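import Pool.Agent.Lib.MP_1a91b9_ntR.OK
import Pool.Agent.Lib.MP_1a91b9_ntV.D.SysN

/-!
# MP_1a91b9_nt, generic part R: the hypotheses `OKt` of the engine of part D

`okt`: for the data `dR cl` (`s q p` the symbol of `p` modulo `q`); `okt'`: for the data
`(sys R).dat cl` (`s q p` the symbol of `q` modulo `p`).
-/

set_option autoImplicit false

namespace Pool.Agent.Lib.MP_1a91b9_ntR

open Finset
open Pool.Agent.Lib.MP_1a91b9_ntQ (Dat2 Mz e2)
open Pool.Agent.Lib.MP_1a91b9_ntH (PS nm pr Sx sg)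
open Pool.Agent.Lib.MP_1a91b9_ntV (OKt An)

noncomputable section

variable {R : Type} [CommRing R] [IsDomain R] [IsPrincipalIdealRing R] [Qi R] [Pri R]
  {κ : Type} [Fintype κ] [DecidableEq κ] {cl : κ → R → ZMod 2} {w : κ → ZMod 2}

omit [IsDomain R] [IsPrincipalIdealRing R] [Qi R] [Pri R] [Fintype κ] [DecidableEq κ] in
theorem sg_ne {x : ZMod 2} (h : x ≠ 0) : ((sg x : ℝ) : ℂ) ≠ 1 := by
  rw [QSys.sg_ne_one h]
  norm_num

omit [DecidableEq κ] in
theorem not_trW {Q : R} (hcl : (sys R).Cls Q cl) {c : κ → ZMod 2} (hc : c ≠ 0) :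
    ¬ (sys R).trW cl (fun _ => (1 : ℂ)) c := by
  obtain ⟨b, hb, h⟩ := hcl.indep c hc
  intro h1
  have h2 := h1 b hb
  rw [one_mul] at h2
  exact sg_ne h h2

omit [Fintype κ] [DecidableEq κ] in
theorem wt_const (Q : R) : (sys R).Wt Q (fun _ => (1 : ℂ)) where
  one := rfl
  mul _ _ _ _ := by rw [mul_one]
  norm _ _ := by simp
  per _ _ _ _ := rfl

omit [IsDomain R] [IsPrincipalIdealRing R] [DecidableEq κ] in
theorem Rcp.tw (h : Rcp cl w) (p q : Pg R) (hpq : p ≠ q) :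
    c2 p q.1 + c2 q p.1 = (∑ j, w j * cl j p.1) * ∑ j, w j * cl j q.1 := by
  rw [h p q hpq]
  have h2 : ∀ x y : ZMod 2, x + y + x = y := by decide
  exact h2 _ _

theorem okt (h : Rcp cl w) {Q : R} (hQ : (sys R).Mod Q) (hQ0 : Q ≠ 0)
    (hcl : (sys R).Cls Q cl) : OKt (dR cl) w where
  tw p q hpq := h.tw p q hpq
  an := ⟨cheb, zt, dR_bl' h⟩
  cb := dR_cb h hQ hQ0 hcl
  mz c hc := by
    have h1 := (dR_wt h hQ hQ0 hcl (wt_const Q) ∅).mz ∅ c (subset_refl _)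
      (Or.inr (not_trW hcl hc))
    simpa only [one_mul] using h1

theorem okt' (h : Rcp cl w) {Q : R} (hQ : (sys R).Mod Q) (hQ0 : Q ≠ 0)
    (hcl : (sys R).Cls Q cl) : OKt ((sys R).dat cl) w where
  tw p q hpq := by
    have h1 := h.tw q p (Ne.symm hpq)
    rw [mul_comm] at h1
    exact h1
  an := ⟨cheb, zt, dat_bl h⟩
  cb := dat_cb hQ hQ0 hcl
  mz c hc := by
    have h1 := (dat_wt hQ hQ0 hcl (wt_const Q) ∅).mz ∅ c (subset_refl _)
      (Or.inr (not_trW hcl hc))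
    simpa only [one_mul] using h1

end

end Pool.Agent.Lib.MP_1a91b9_ntR
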