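import Pool.Agent.Lib.MP_1a91b9_ntR.Den

/-!
# MP_1a91b9_nt, generic part R: a change of the property of the empty set of primes

The densities of the families do not change when the property of the empty set of primes changes.
-/

set_option autoImplicit false
set_option linter.unusedSectionVars false

namespace Pool.Agent.Lib.MP_1a91b9_ntR

open Finset
open Pool.Agent.Lib.MP_1a91b9_ntH (PS nm pr mem_pr Sx mem_Sx)

noncomputable section

variable {R : Type} [CommRing R] [IsDomain R] [IsPrincipalIdealRing R] [Qi R] [Pri R] {Q : R}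
  {A : Type} [Fintype A] [DecidableEq A] {π : A → R}

theorem card_SP_le (hQ : (sys R).Mod Q) (g : GR hQ) (X : ℕ) {P P' : Finset (Pg R) → Prop}
    (h : ∀ S, S ≠ ∅ → P S → P' S) : (SP hQ g X P).card ≤ (SP hQ g X P').card + 1 := by
  classical
  have h1 : SP hQ g X P ⊆ insert ∅ (SP hQ g X P') := by
    intro S hS
    rw [mem_SP] at hS
    rw [mem_insert, mem_SP]
    by_cases h0 : S = ∅
    · exact Or.inl h0
    · exact Or.inr ⟨hS.1, h S h0 hS.2⟩
  exact (card_le_card h1).trans (card_insert_le _ _)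

theorem LowF.congr {hQ : (sys R).Mod Q} {Rc : R → Prop} {κ : ℝ}
    {Good Good' : ZMod 2 × (A → ZMod 2) → Finset (Pg R) → Prop} (h : LowF hQ π Rc κ Good)
    (hg : ∀ i S, S ≠ ∅ → Good i S → Good' i S) : LowF hQ π Rc κ Good' := by
  intro i g hi ε hε
  obtain ⟨X₀, hX⟩ := h i g hi (ε / 2) (by linarith)
  obtain ⟨Y, hY⟩ := exists_nat_ge (2 / ε)
  refine ⟨X₀ + Y, fun X hX' => ?_⟩
  have h1 := hX X (by omega)
  have h2 : ((SP hQ g X (Good i)).card : ℝ) ≤ ((SP hQ g X (Good' i)).card : ℝ) + 1 := by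
    exact_mod_cast card_SP_le hQ g X fun S hS => hg i S hS
  have h3 : (1 : ℝ) ≤ ε / 2 * X := by
    have h4 : 2 / ε ≤ X := hY.trans (by exact_mod_cast (by omega : Y ≤ X))
    rw [div_le_iff₀ hε] at h4
    linarith
  linarith

theorem UppF.congr {hQ : (sys R).Mod Q} {Rc : R → Prop} {κ : ℝ}
    {Good Good' : ZMod 2 × (A → ZMod 2) → Finset (Pg R) → Prop} (h : UppF hQ π Rc κ Good)
    (hg : ∀ i S, S ≠ ∅ → Good' i S → Good i S) : UppF hQ π Rc κ Good' := by
  intro i g hi ε hε
  obtain ⟨X₀, hX⟩ := h i g hi (ε / 2) (by linarith)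
  obtain ⟨Y, hY⟩ := exists_nat_ge (2 / ε)
  refine ⟨X₀ + Y, fun X hX' => ?_⟩
  have h1 := hX X (by omega)
  have h2 : ((SP hQ g X (Good' i)).card : ℝ) ≤ ((SP hQ g X (Good i)).card : ℝ) + 1 := by
    exact_mod_cast card_SP_le hQ g X fun S hS => hg i S hS
  have h3 : (1 : ℝ) ≤ ε / 2 * X := by
    have h4 : 2 / ε ≤ X := hY.trans (by exact_mod_cast (by omega : Y ≤ X))
    rw [div_le_iff₀ hε] at h4
    linarith
  linarith

/-- The product of a nonempty set of primes with a multiplier is not a unit. -/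
theorem not_unit_mu {i : ZMod 2 × (A → ZMod 2)} {S : Finset (Pg R)} (hS : S ≠ ∅) :
    ¬ IsUnit (mu π i * DD S) := by
  intro h
  obtain ⟨q, hq⟩ := Finset.nonempty_iff_ne_empty.2 hS
  have h1 : q.1 ∣ mu π i * DD S := Dvd.dvd.mul_left (dvd_prod_of_mem (fun p : Pg R => p.1) hq) _
  exact q.2.1.not_isUnit (isUnit_of_dvd_unit h1 h)

end

end Pool.Agent.Lib.MP_1a91b9_ntR
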