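import Pool.Agent.Lib.MP_1a91b9_ntR.Jac

/-!
# MP_1a91b9_nt, generic part R: Jacobi symbols as exponents, the case `E ∣ N - 2 M²`
-/

set_option autoImplicit false

namespace Pool.Agent.Lib.MP_1a91b9_ntR

open ZMod NumberTheorySymbols

/-- The case of an odd `E` which divides `N - 2 M²`. -/
theorem js_odd2 {E M : ℤ} {N : ℕ} (hN : N % 2 = 1) (hc : IsCoprime E (N : ℤ))
    (h : E ∣ (N : ℤ) - 2 * M ^ 2) (hE : E % 2 = 1) :
    js E N = (if N % 4 = 3 ∧ E % 4 = 3 then 1 else 0) + (if E % 8 = 3 ∨ E % 8 = 5 then 1 else 0) := by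
  have hd : Odd E.natAbs := Nat.odd_iff.2 (by omega)
  have hcM : IsCoprime M (E.natAbs : ℤ) := by
    have h1 : IsCoprime (M ^ 2) E := by
      obtain ⟨u, v, huv⟩ := hc
      obtain ⟨k, hk⟩ := h
      exact ⟨2 * v, u + v * k, by linear_combination huv - v * hk⟩
    have h2 : IsCoprime M E := (IsCoprime.pow_left_iff (by norm_num)).1 h1
    rcases Int.natAbs_eq E with h3 | h3
    · rw [← h3]
      exact h2
    · have h4 : (E.natAbs : ℤ) = -E := by omega
      rw [h4]
      exact h2.neg_right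
  have h2E : jacobiSym 2 E.natAbs = if E % 8 = 3 ∨ E % 8 = 5 then -1 else 1 := by
    rw [jacobiSym.at_two hd, ZMod.χ₈_nat_eq_if_mod_eight, if_neg (by omega)]
    by_cases h5 : E % 8 = 3 ∨ E % 8 = 5
    · rw [if_pos h5, if_neg (by omega)]
    · rw [if_neg h5, if_pos (by omega)]
  have hJN : jacobiSym (N : ℤ) E.natAbs = if E % 8 = 3 ∨ E % 8 = 5 then -1 else 1 := by
    have h1 : (N : ℤ) % (E.natAbs : ℤ) = (2 * M ^ 2) % (E.natAbs : ℤ) := by
      apply Int.ModEq.eq
      apply Int.ModEq.symm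
      rw [Int.modEq_iff_dvd]
      exact Int.natAbs_dvd.2 h
    rw [jacobiSym.mod_left' h1, jacobiSym.mul_left, h2E,
      jacobiSym.sq_one' (Int.isCoprime_iff_gcd_eq_one.1 hcM), mul_one]
  have hq := jacobiSym.quadratic_reciprocity_if (a := E.natAbs) (b := N) (by omega) hN
  rw [hJN] at hq
  have hcn : IsCoprime (E.natAbs : ℤ) (N : ℤ) := by
    rcases Int.natAbs_eq E with h3 | h3
    · rw [← h3]
      exact hc
    · have h4 : (E.natAbs : ℤ) = -E := by omega
      rw [h4]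
      exact hc.neg_left
  have h11 : (1 : ZMod 2) + 1 = 0 := by decide
  have hjs : js (E.natAbs : ℤ) N = (if E.natAbs % 4 = 3 ∧ N % 4 = 3 then 1 else 0) +
      (if E % 8 = 3 ∨ E % 8 = 5 then 1 else 0) := by
    by_cases h5 : E.natAbs % 4 = 3 ∧ N % 4 = 3
    · rw [if_pos h5] at hq ⊢
      by_cases h6 : E % 8 = 3 ∨ E % 8 = 5
      · rw [if_pos h6] at hq ⊢
        rw [h11]
        exact js_eq_zero (by rw [← hq]; norm_num)
      · rw [if_neg h6] at hq ⊢
        rw [add_zero]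
        exact js_eq_one hq.symm
    · rw [if_neg h5] at hq ⊢
      by_cases h6 : E % 8 = 3 ∨ E % 8 = 5
      · rw [if_pos h6] at hq ⊢
        rw [zero_add]
        exact js_eq_one hq.symm
      · rw [if_neg h6] at hq ⊢
        rw [add_zero]
        exact js_eq_zero hq.symm
  rcases Int.natAbs_eq E with h3 | h3
  · have e : js E N = js (E.natAbs : ℤ) N := by rw [← h3]
    rw [e, hjs]
    have h6 : (E.natAbs % 4 = 3 ∧ N % 4 = 3) ↔ (N % 4 = 3 ∧ E % 4 = 3) := by omega
    simp only [h6]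
  · have e : js E N = js (-(E.natAbs : ℤ)) N := by rw [← h3]
    rw [e, js_neg hN hcn, hjs]
    generalize (if E % 8 = 3 ∨ E % 8 = 5 then (1 : ZMod 2) else 0) = v
    by_cases h7 : N % 4 = 3
    · by_cases h8 : E % 4 = 3
      · have h9 : ¬ (E.natAbs % 4 = 3 ∧ N % 4 = 3) := by omega
        rw [if_neg h9, if_pos h7, if_pos ⟨h7, h8⟩, zero_add, add_comm]
      · have h9 : E.natAbs % 4 = 3 ∧ N % 4 = 3 := by omega
        rw [if_pos h9, if_pos h7, if_neg (fun h => h8 h.2)]
        have h12 : ∀ x : ZMod 2, 1 + x + 1 = 0 + x := by decide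
        exact h12 _
    · rw [if_neg (fun h => h7 h.2), if_neg h7, if_neg (fun h => h7 h.1), add_zero]

end Pool.Agent.Lib.MP_1a91b9_ntR
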