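import Pool.Agent.Lib.MP_1a91b9_ntR.Cheb

/-!
# MP_1a91b9_nt, generic part R: the hypotheses of the abstract engine

Two data: `dR cl` with `s q p` the symbol of `p` modulo `q`, and `(sys R).dat cl` with `s q p` the
symbol of `q` modulo `p`. The reciprocity law is `c2 p q + c2 q p = al p * al q`,
`al q = ∑ w j cl j q`.
-/

set_option autoImplicit false

namespace Pool.Agent.Lib.MP_1a91b9_ntR

open Finset
open Pool.Agent.Lib.MP_1a91b9_ntQ (Dat2 Mz e2)
open Pool.Agent.Lib.MP_1a91b9_ntH (PS nm pr Sx sg sgD_add sgD_sum sgD_abs Cheb Zt CharB)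

noncomputable section

variable {R : Type} [CommRing R] [IsDomain R] [IsPrincipalIdealRing R] [Qi R] [Pri R]
  {κ : Type} [Fintype κ] {cl : κ → R → ZMod 2} {w : κ → ZMod 2}

/-- The reciprocity law with the bit `al q = ∑ w j cl j q`. -/
def Rcp (cl : κ → R → ZMod 2) (w : κ → ZMod 2) : Prop :=
  ∀ p q : Pg R, p ≠ q → c2 p q.1 = c2 q p.1 + (∑ j, w j * cl j p.1) * ∑ j, w j * cl j q.1

omit [IsDomain R] [IsPrincipalIdealRing R] in
theorem Rcp.symm' (h : Rcp cl w) (p q : Pg R) (hpq : p ≠ q) :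
    c2 q p.1 = c2 p q.1 + (∑ j, w j * cl j p.1) * ∑ j, w j * cl j q.1 := by
  rw [h p q hpq, add_assoc]
  have h2 : ∀ x : ZMod 2, x + x = 0 := by decide
  rw [h2, add_zero]

/-- The change of the class character. -/
def csh (cl : κ → R → ZMod 2) (w : κ → ZMod 2) (T : Finset (Pg R)) (c : κ → ZMod 2) : κ → ZMod 2 :=
  fun j => c j + (∑ p ∈ T, ∑ i, w i * cl i p.1) * w j

omit [IsDomain R] [IsPrincipalIdealRing R] in
theorem csh_empty (c : κ → ZMod 2) : csh cl w ∅ c = c := by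
  funext j
  simp [csh]

theorem ex1_swap (h : Rcp cl w) {T : Finset (Pg R)} (c : κ → ZMod 2) {q : Pg R} (hq : q ∉ T) :
    (dR cl).ex1 T c q = ((sys R).dat cl).ex1 T (csh cl w T c) q := by
  unfold Dat2.ex1
  change ∑ j, c j * cl j q.1 + ∑ p ∈ T, c2 q p.1 =
    ∑ j, csh cl w T c j * cl j q.1 + ∑ p ∈ T, c2 p q.1
  have h1 : ∑ p ∈ T, c2 q p.1 = ∑ p ∈ T, c2 p q.1 +
      (∑ p ∈ T, ∑ i, w i * cl i p.1) * ∑ j, w j * cl j q.1 := by
    rw [sum_mul, ← sum_add_distrib]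
    refine sum_congr rfl fun p hp => ?_
    exact h.symm' p q fun e => hq (e ▸ hp)
  have h2 : ∑ j, csh cl w T c j * cl j q.1 = ∑ j, c j * cl j q.1 +
      (∑ p ∈ T, ∑ i, w i * cl i p.1) * ∑ j, w j * cl j q.1 := by
    rw [mul_sum, ← sum_add_distrib]
    refine sum_congr rfl fun j _ => ?_
    unfold csh
    ring
  rw [h1, h2]
  ring

theorem ch_swap (h : Rcp cl w) (T : Finset (Pg R)) (c : κ → ZMod 2) :
    (dR cl).ch T c = ((sys R).dat cl).ch T (csh cl w T c) := by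
  funext q
  unfold Dat2.ch
  split_ifs with hq
  · rfl
  · rw [ex1_swap h c hq]

/-- **The nontrivial quadratic characters have bounded Euler products** (symbols of `q` modulo the
fixed primes). -/
theorem dat_cb {Q : R} (hQ : (sys R).Mod Q) (hQ0 : Q ≠ 0) (hcl : (sys R).Cls Q cl) :
    ∃ C, ((sys R).dat cl).CB C := QSys.cb sys_com hQ hQ0 hcl

/-- **The nontrivial quadratic characters have bounded Euler products** (symbols of the fixed primes
modulo `q`). -/
theorem dR_cb (h : Rcp cl w) {Q : R} (hQ : (sys R).Mod Q) (hQ0 : Q ≠ 0)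
    (hcl : (sys R).Cls Q cl) : ∃ C, (dR cl).CB C := by
  obtain ⟨C, hC⟩ := dat_cb hQ hQ0 hcl
  refine ⟨C, fun T c hT => ?_⟩
  rw [ch_swap h]
  apply hC
  rcases T.eq_empty_or_nonempty with rfl | hT'
  · rw [csh_empty]
    exact hT
  · exact Or.inl hT'.ne_empty

theorem mz_swap (h : Rcp cl w) {B T : Finset (Pg R)} (hTB : T ⊆ B) (c : κ → ZMod 2)
    (g : Pg R → ℂ) : Mz B (fun q => g q * e2 ((dR cl).ex1 T c q)) ↔
      Mz B (fun q => g q * e2 (((sys R).dat cl).ex1 T (csh cl w T c) q)) := by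
  classical
  have key : ∀ X : ℕ, ∑ S ∈ (Sx (Pg R) X).filter (fun S => Disjoint S B),
      ∏ q ∈ S, (g q * e2 ((dR cl).ex1 T c q)) =
      ∑ S ∈ (Sx (Pg R) X).filter (fun S => Disjoint S B),
      ∏ q ∈ S, (g q * e2 (((sys R).dat cl).ex1 T (csh cl w T c) q)) := by
    intro X
    refine sum_congr rfl fun S hS => prod_congr rfl fun q hq => ?_
    rw [ex1_swap h c fun hqT => disjoint_left.1 (mem_filter.1 hS).2 hq (hTB hqT)]
  unfold Mz
  constructor
  · intro h1 ε hε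
    obtain ⟨X₀, hX⟩ := h1 ε hε
    exact ⟨X₀, fun X hX' => by
      have := hX X hX'
      convert this using 2
      rw [← sum_congr (filter_congr_decidable _ _ _) fun _ _ => rfl]
      exact (key X).symm⟩
  · intro h1 ε hε
    obtain ⟨X₀, hX⟩ := h1 ε hε
    exact ⟨X₀, fun X hX' => by
      have := hX X hX'
      convert this using 2
      exact key X⟩

/-- **The hypotheses of the engine on a class weight.** -/
theorem dat_wt {Q : R} (hQ : (sys R).Mod Q) (hQ0 : Q ≠ 0) (hcl : (sys R).Cls Q cl) {ψ : R → ℂ}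
    (hψ : (sys R).Wt Q ψ) (B : Finset (Pg R)) :
    ((sys R).dat cl).Wt B (fun q => ψ q.1) ((sys R).trW cl ψ) :=
  QSys.wt_engine sys_com hQ hQ0 hcl hψ B

theorem dR_wt (h : Rcp cl w) {Q : R} (hQ : (sys R).Mod Q) (hQ0 : Q ≠ 0)
    (hcl : (sys R).Cls Q cl) {ψ : R → ℂ} (hψ : (sys R).Wt Q ψ) (B : Finset (Pg R)) :
    (dR cl).Wt B (fun q => ψ q.1) ((sys R).trW cl ψ) := by
  have h0 := dat_wt hQ hQ0 hcl hψ B
  refine ⟨h0.nrm, fun c hc q => ?_, fun T c hTB hT => ?_⟩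
  · have := h0.one c hc q
    rw [ex1_swap h c (notMem_empty q), csh_empty]
    exact this
  · rw [mz_swap h hTB c]
    apply h0.mz T _ hTB
    rcases T.eq_empty_or_nonempty with rfl | hT'
    · rw [csh_empty]
      exact hT
    · exact Or.inl hT'.ne_empty

/-- The bilinear bound. -/
theorem dR_bl' (h : Rcp cl w) : ∃ C K c, 0 < c ∧ (dR cl).BL C K c :=
  dR_bl cl (fun q => ∑ j, w j * cl j q.1) h

theorem dat_bl (h : Rcp cl w) : ∃ C K c, 0 < c ∧ ((sys R).dat cl).BL C K c := by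
  obtain ⟨C, K, c, hc, hb⟩ := dR_bl' h
  refine ⟨C, K, c, hc, fun A B X V hA hB hV hX => ?_⟩
  refine le_trans (le_of_eq ?_) (hb B A X V hB hA hV hX)
  congr 1
  rw [sum_comm]
  refine sum_congr rfl fun T _ => sum_congr rfl fun S _ => ?_
  have e : ((sys R).dat cl).ss S T = (dR cl).ss T S := by
    unfold Dat2.ss
    rw [sum_comm]
    rfl
  by_cases hcd : nm S * nm T ≤ X ∧ V < nm S ∧ V < nm T ∧ Disjoint S T
  · rw [if_pos hcd, if_pos ⟨by rw [mul_comm]; exact hcd.1, hcd.2.2.1, hcd.2.1, hcd.2.2.2.symm⟩, e]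
    ring
  · rw [if_neg hcd,
      if_neg fun h => hcd ⟨by rw [mul_comm]; exact h.1, h.2.2.1, h.2.1, h.2.2.2.symm⟩]

end

end Pool.Agent.Lib.MP_1a91b9_ntR
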