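import Pool.Agent.Lib.MP_1a91b9_ntR.Sym

/-!
# MP_1a91b9_nt, generic part R: the quadratic reciprocity law, from the one over `ℤ`

`Rd R m w C hz bt`: the primary elements have the form `c + d w`, `w² = -m`, norm `c² + m d²`, with
the condition `C c d`; `hz E` is the exponent of `(E / M² + m E²)`.
-/

set_option autoImplicit false

namespace Pool.Agent.Lib.MP_1a91b9_ntR

noncomputable section

/-- The 2-adic data. -/
structure Rd (R : Type) [CommRing R] [IsDomain R] [IsPrincipalIdealRing R] [Qi R] [Pri R] (m : ℤ)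
    (w : R) (C : ℤ → ℤ → Prop) (hz bt : ℤ → ZMod 2) : Prop where
  sq : w ^ 2 = -(m : R)
  unit : ∀ u : R, nG u = 1 → u = 1 ∨ u = -1
  form : ∀ x : R, Pri.In x → ∃ c d : ℤ, x = (c : R) + (d : R) * w ∧
    (nG x : ℤ) = c ^ 2 + m * d ^ 2 ∧ C c d
  inj : ∀ r c d : ℤ, (r : R) = (c : R) + (d : R) * w → c = r ∧ d = 0
  jsz : ∀ (E M : ℤ) (N : ℕ), N % 2 = 1 → E ≠ 0 → IsCoprime E (N : ℤ) →
    (N : ℤ) = M ^ 2 + m * E ^ 2 → js E N = hz E
  fin : ∀ x y c d : ℤ, C x y → C c d → hz (x * d - y * c) +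
    (if (x ^ 2 + m * y ^ 2) % 4 = 3 then 1 else 0) + hz d + hz y = bt y * bt d
  rat : ∀ c : ℤ, C c 0 → c % 4 = 1
  bt0 : bt 0 = 0

variable {R : Type} [CommRing R] [IsDomain R] [IsPrincipalIdealRing R] [Qi R] [Pri R] {m : ℤ}
  {w : R} {C : ℤ → ℤ → Prop} {hz bt : ℤ → ZMod 2}

/-- The two kinds of primes. -/
theorem Rd.cases (h : Rd R m w C hz bt) (q : Pg R) {c d : ℤ} (hq : q.1 = (c : R) + (d : R) * w)
    (hC : C c d) : (∃ p : ℕ, p.Prime ∧ p ≠ 2 ∧ nG q.1 = p) ∨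
      (∃ p : ℕ, p.Prime ∧ p ≠ 2 ∧ nG q.1 = p ^ 2 ∧ q.1 ∣ (p : R) ∧ (c = p ∨ c = -p) ∧ d = 0 ∧
        c % 4 = 1) := by
  obtain ⟨p, hp, hd, hN | hN⟩ := B.nG_cases q.2.1
  · refine Or.inl ⟨p, hp, ?_, hN⟩
    rintro rfl
    have := Pri.odd q.1 q.inP
    rw [hN] at this
    omega
  · right
    have hp2 : p ≠ 2 := by
      rintro rfl
      have := Pri.odd q.1 q.inP
      rw [hN] at this
      omega
    obtain ⟨t, ht⟩ := hd
    have h1 : nG (p : R) = nG q.1 * nG t := by rw [ht, nG_mul]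
    rw [nG_nat, hN] at h1
    have h2 : nG t = 1 := by
      have h3 : 0 < p ^ 2 := pow_pos hp.pos 2
      exact (Nat.eq_of_mul_eq_mul_left h3 (by rw [mul_one]; exact h1)).symm
    have h4 : (c = p ∨ c = -p) ∧ d = 0 := by
      rcases h.unit t h2 with h5 | h5
      · rw [h5, mul_one, hq] at ht
        have h6 := h.inj (p : ℤ) c d (by rw [Int.cast_natCast]; exact ht)
        exact ⟨Or.inl h6.1, h6.2⟩
      · rw [h5, hq] at ht
        have h6 := h.inj (-(p : ℤ)) c d (by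
          rw [Int.cast_neg, Int.cast_natCast, ht]
          ring)
        exact ⟨Or.inr h6.1, h6.2⟩
    refine ⟨p, hp, hp2, hN, ⟨t, ht⟩, h4.1, h4.2, ?_⟩
    rw [h4.2] at hC
    exact h.rat c hC

/-- The symbol of a rational integer modulo an element of prime norm. -/
theorem c2_rat (h : Rd R m w C hz bt) (q : Pg R) {p : ℕ} (hp : p.Prime) (hN : nG q.1 = p)
    {c d : ℤ} (hq : q.1 = (c : R) + (d : R) * w) (hNm : c ^ 2 + m * d ^ 2 = p) {r : ℤ}
    (hr : ¬ q.1 ∣ (r : R)) : ¬ (p : ℤ) ∣ r ∧ c2 q (r : R) = js r p := by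
  have h0 : ¬ q.1 ∣ (r : R) + ((0 : ℤ) : R) * w := by
    rw [Int.cast_zero, zero_mul, add_zero]
    exact hr
  obtain ⟨h1, h2, h3⟩ := c2_split q hp hN h.sq hq hNm h0
  rw [Int.cast_zero, zero_mul, add_zero, zero_mul, sub_zero] at h3
  rw [zero_mul, sub_zero] at h2
  have hpZ : Prime (p : ℤ) := Nat.prime_iff_prime_int.1 hp
  have hr' : ¬ (p : ℤ) ∣ r := fun h4 => h2 (Dvd.dvd.mul_right h4 d)
  refine ⟨hr', ?_⟩
  rw [h3, js_mul (coprime_of_not_dvd hp hr') (coprime_of_not_dvd hp h1), add_assoc]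
  have key : ∀ x : ZMod 2, x + x = 0 := by decide
  rw [key, add_zero]

/-- Both primes have prime norm. -/
theorem Rd.recip_split (h : Rd R m w C hz bt) {A B : Pg R} (hAB : A ≠ B) {x y c d : ℤ} {p q : ℕ}
    (hA : A.1 = (x : R) + (y : R) * w) (hB : B.1 = (c : R) + (d : R) * w)
    (hCA : C x y) (hCB : C c d) (hq : q.Prime) (hp : p.Prime) (hp2 : p ≠ 2) (hq2 : q ≠ 2)
    (hNA : nG A.1 = q)
    (hNB : nG B.1 = p) (hmA : x ^ 2 + m * y ^ 2 = q) (hmB : c ^ 2 + m * d ^ 2 = p) :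
    c2 B A.1 + c2 A B.1 = bt y * bt d := by
  have n1 : ¬ B.1 ∣ (x : R) + (y : R) * w := by
    rw [← hA]
    exact Pg.not_dvd (Ne.symm hAB)
  have n2 : ¬ A.1 ∣ (c : R) + (d : R) * w := by
    rw [← hB]
    exact Pg.not_dvd hAB
  obtain ⟨a1, a2, a3⟩ := c2_split B hp hNB h.sq hB hmB n1
  obtain ⟨b1, b2, b3⟩ := c2_split A hq hNA h.sq hA hmA n2
  rw [← hA] at a3
  rw [← hB] at b3
  obtain ⟨E, hE⟩ : ∃ E, E = x * d - y * c := ⟨_, rfl⟩
  have e2 : c * y - d * x = -E := by rw [hE]; ring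
  rw [← hE] at a2 a3
  rw [e2] at b2 b3
  have b2' : ¬ (q : ℤ) ∣ E := fun h1 => b2 (dvd_neg.2 h1)
  have hpo : p % 2 = 1 := Nat.odd_iff.1 (hp.odd_of_ne_two hp2)
  have hqo : q % 2 = 1 := Nat.odd_iff.1 (hq.odd_of_ne_two hq2)
  have cp : IsCoprime E (p : ℤ) := coprime_of_not_dvd hp a2
  have cq : IsCoprime E (q : ℤ) := coprime_of_not_dvd hq b2'
  have cd : IsCoprime d (p : ℤ) := coprime_of_not_dvd hp a1
  have cy : IsCoprime y (q : ℤ) := coprime_of_not_dvd hq b1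
  have hE0 : E ≠ 0 := by
    rintro h0
    rw [h0] at a2
    exact a2 (dvd_zero _)
  have hd0 : d ≠ 0 := by
    rintro h0
    rw [h0] at a1
    exact a1 (dvd_zero _)
  have hy0 : y ≠ 0 := by
    rintro h0
    rw [h0] at b1
    exact b1 (dvd_zero _)
  have k1 : js E p + js E q = hz E := by
    rw [← js_mul_right E hp.ne_zero hq.ne_zero cp cq]
    refine h.jsz E (x * c + m * (y * d)) (p * q) ?_ hE0 ?_ ?_
    · rw [Nat.mul_mod, hpo, hqo]
    · push_cast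
      exact cp.mul_right cq
    · push_cast
      rw [← hmA, ← hmB, hE]
      ring
  have k2 : js d p = hz d := h.jsz d c p hpo hd0 cd hmB.symm
  have k3 : js y q = hz y := h.jsz y x q hqo hy0 cy hmA.symm
  have k4 := h.fin x y c d hCA hCB
  rw [a3, b3, js_neg hqo cq, k2, k3, ← k4, ← hE, hmA]
  have k5 : ((q : ℤ) % 4 = 3) ↔ (q % 4 = 3) := by omega
  simp only [k5]
  rw [← k1]
  ring

/-- **The quadratic reciprocity law.** -/
theorem Rd.recip (h : Rd R m w C hz bt) {A B : Pg R} (hAB : A ≠ B) {x y c d : ℤ}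
    (hA : A.1 = (x : R) + (y : R) * w) (hB : B.1 = (c : R) + (d : R) * w)
    (hCA : C x y) (hCB : C c d) (hmA : (nG A.1 : ℤ) = x ^ 2 + m * y ^ 2)
    (hmB : (nG B.1 : ℤ) = c ^ 2 + m * d ^ 2) : c2 B A.1 + c2 A B.1 = bt y * bt d := by
  have h2 : ∀ t : ZMod 2, t + t = 0 := by decide
  rcases h.cases A hA hCA with ⟨q, hq, hq2, hNA⟩ | ⟨q, hq, hq2, hNA, hdA, hcA, hyA, hA4⟩
  · rcases h.cases B hB hCB with ⟨p, hp, hp2, hNB⟩ | ⟨p, hp, hp2, hNB, hdB, hcB, hdB0, hB4⟩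
    · exact h.recip_split hAB hA hB hCA hCB hq hp hp2 hq2 hNA hNB (by rw [← hmA, hNA])
        (by rw [← hmB, hNB])
    · -- `B = ± p`, `A` of prime norm `q`
      have e1 : B.1 = (c : R) := by rw [hB, hdB0]; simp
      obtain ⟨f1, f2⟩ := c2_inert B hp hp2 hNB hdB (Pg.not_dvd (Ne.symm hAB) : ¬ B.1 ∣ A.1)
      have n2 : ¬ A.1 ∣ (c : R) := by
        rw [← e1]
        exact Pg.not_dvd hAB
      obtain ⟨g1, g2⟩ := c2_rat h A hq hNA hA (by rw [← hmA, hNA]) n2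
      rw [e1, g2, f2, hNA, hdB0, h.bt0, mul_zero]
      have hcp : IsCoprime (p : ℤ) (q : ℤ) := by
        have := coprime_of_not_dvd hq g1
        rcases hcB with h1 | h1
        · rw [← h1]
          exact this
        · rw [h1] at this
          exact (IsCoprime.neg_left_iff _ _).1 this
      rw [js_recip hcB hB4 (Nat.odd_iff.1 (hq.odd_of_ne_two hq2)) hcp, h2]
  · have e0 : A.1 = (x : R) := by rw [hA, hyA]; simp
    rcases h.cases B hB hCB with ⟨p, hp, hp2, hNB⟩ | ⟨p, hp, hp2, hNB, hdB, hcB, hdB0, hB4⟩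
    · obtain ⟨f1, f2⟩ := c2_inert A hq hq2 hNA hdA (Pg.not_dvd hAB : ¬ A.1 ∣ B.1)
      have n2 : ¬ B.1 ∣ (x : R) := by
        rw [← e0]
        exact Pg.not_dvd (Ne.symm hAB)
      obtain ⟨g1, g2⟩ := c2_rat h B hp hNB hB (by rw [← hmB, hNB]) n2
      rw [e0, g2, f2, hNB, hyA, h.bt0, zero_mul]
      have hcp : IsCoprime (q : ℤ) (p : ℤ) := by
        have := coprime_of_not_dvd hp g1
        rcases hcA with h1 | h1
        · rw [← h1]
          exact this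
        · rw [h1] at this
          exact (IsCoprime.neg_left_iff _ _).1 this
      rw [js_recip hcA hA4 (Nat.odd_iff.1 (hp.odd_of_ne_two hp2)) hcp, h2]
    · -- both inert
      obtain ⟨f1, f2⟩ := c2_inert A hq hq2 hNA hdA (Pg.not_dvd hAB : ¬ A.1 ∣ B.1)
      obtain ⟨g1, g2⟩ := c2_inert B hp hp2 hNB hdB (Pg.not_dvd (Ne.symm hAB) : ¬ B.1 ∣ A.1)
      rw [g2, f2, hyA, h.bt0, zero_mul]
      have s1 : ((nG A.1 : ℕ) : ℤ) = (q : ℤ) ^ 2 := by rw [hNA]; push_cast; rfl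
      have s2 : ((nG B.1 : ℕ) : ℤ) = (p : ℤ) ^ 2 := by rw [hNB]; push_cast; rfl
      rw [s1] at g1 ⊢
      rw [s2] at f1 ⊢
      have hqZ : Prime (q : ℤ) := Nat.prime_iff_prime_int.1 hq
      have hpZ : Prime (p : ℤ) := Nat.prime_iff_prime_int.1 hp
      rw [js_sq (coprime_of_not_dvd hp fun h3 => g1 (dvd_pow h3 (by norm_num))),
        js_sq (coprime_of_not_dvd hq fun h3 => f1 (dvd_pow h3 (by norm_num))), add_zero]

end

end Pool.Agent.Lib.MP_1a91b9_ntR
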