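import Pool.Agent.Lib.MP_1a91b9_ntR.BL

/-!
# MP_1a91b9_nt, generic part R: Chebyshev's bound for the primary primes and the sum of the squares
of the inverses of the norms
-/

set_option autoImplicit false

namespace Pool.Agent.Lib.MP_1a91b9_ntR

open Finset
open Pool.Agent.Lib.MP_1a91b9_ntH (PS nm pr Cheb mem_pr)

noncomputable section

variable {R : Type} [CommRing R] [IsDomain R] [IsPrincipalIdealRing R] [Qi R] [Pri R]

/-- The norm of a prime is a rational prime, or the square of a rational prime. -/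
theorem nG_prime_cases (q : Pg R) : ∃ p : ℕ, p.Prime ∧ (nG q.1 = p ∨ nG q.1 = p ^ 2) := by
  obtain ⟨p, hp, -, h⟩ := B.nG_cases q.2.1
  exact ⟨p, hp, h⟩

/-- At most two primes have the same norm. -/
theorem card_nG_eq (n : ℕ) (s : Finset (Pg R)) (hs : ∀ q ∈ s, nG q.1 = n) : s.card ≤ 2 := by
  rcases s.eq_empty_or_nonempty with rfl | ⟨q₀, hq₀⟩
  · simp
  have hn : 2 ≤ n := by
    rw [← hs q₀ hq₀]
    exact nG_two_le q₀.2.1
  have h1 : ∏ q ∈ s, q.1 ∣ ((n : ℕ) : R) := by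
    refine Finset.prod_dvd_of_coprime (fun p _ q _ hpq => Pg.cop hpq) fun q hq => ?_
    rw [← hs q hq]
    exact dvd_nG q.1
  have h2 := nG_dvd h1
  have h3 : nG (∏ q ∈ s, q.1) = ∏ q ∈ s, nG q.1 := (prm R).nG_dd s
  rw [nG_nat, h3, Finset.prod_congr rfl hs, Finset.prod_const] at h2
  exact (Nat.pow_dvd_pow_iff_le_right (by omega)).1 h2

theorem cheb : ∃ C, Cheb (Pg R) C := by
  classical
  refine ⟨4 * (Real.log 4 + 4), fun x => ?_⟩
  have h1 : ∀ q : Pg R, Real.log (PS.N q) ≤ 2 * ArithmeticFunction.vonMangoldt (PS.N q) := by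
    intro q
    change Real.log (nG q.1) ≤ 2 * ArithmeticFunction.vonMangoldt (nG q.1)
    obtain ⟨p, hp, h | h⟩ := nG_prime_cases q
    · rw [h, ArithmeticFunction.vonMangoldt_apply_prime hp]
      have : 0 ≤ Real.log p := Real.log_natCast_nonneg p
      linarith
    · rw [h, ArithmeticFunction.vonMangoldt_apply_pow two_ne_zero,
        ArithmeticFunction.vonMangoldt_apply_prime hp]
      push_cast
      rw [Real.log_pow]
      push_cast
      exact le_refl _
  calc ∑ q ∈ pr (Pg R) x, Real.log (PS.N q)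
      ≤ ∑ q ∈ pr (Pg R) x, 2 * ArithmeticFunction.vonMangoldt (PS.N q) :=
        Finset.sum_le_sum fun q _ => h1 q
    _ = ∑ n ∈ Finset.Ioc 0 x, ∑ q ∈ (pr (Pg R) x).filter (fun q => PS.N q = n),
          2 * ArithmeticFunction.vonMangoldt (PS.N q) := by
        rw [Finset.sum_fiberwise_of_maps_to]
        intro q hq
        rw [mem_pr] at hq
        have := PS.two_le q
        rw [Finset.mem_Ioc]
        omega
    _ ≤ ∑ n ∈ Finset.Ioc 0 x, 4 * ArithmeticFunction.vonMangoldt n := by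
        refine Finset.sum_le_sum fun n _ => ?_
        have h2 : ∑ q ∈ (pr (Pg R) x).filter (fun q => PS.N q = n),
            2 * ArithmeticFunction.vonMangoldt (PS.N q) =
            (((pr (Pg R) x).filter (fun q => PS.N q = n)).card : ℝ) *
              (2 * ArithmeticFunction.vonMangoldt n) := by
          rw [← nsmul_eq_mul, ← Finset.sum_const]
          refine Finset.sum_congr rfl fun q hq => ?_
          rw [(Finset.mem_filter.1 hq).2]
        have h3 : (((pr (Pg R) x).filter (fun q => PS.N q = n)).card : ℝ) ≤ 2 := by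
          exact_mod_cast card_nG_eq n _ fun q hq => (Finset.mem_filter.1 hq).2
        have h4 : 0 ≤ ArithmeticFunction.vonMangoldt n := ArithmeticFunction.vonMangoldt_nonneg
        rw [h2]
        nlinarith
    _ = 4 * Chebyshev.psi x := by
        rw [Chebyshev.psi, Nat.floor_natCast, Finset.mul_sum]
    _ ≤ 4 * ((Real.log 4 + 4) * x) := by
        have := Chebyshev.psi_le_const_mul_self (Nat.cast_nonneg (α := ℝ) x)
        linarith
    _ = 4 * (Real.log 4 + 4) * x := by ring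

private theorem cheb_sq (s : Finset (Pg R)) (Y : ℕ) (hY : Y ≠ 0) (hs : ∀ q ∈ s, Y < nG q.1) :
    ∑ q ∈ s, (1 : ℝ) / (nG q.1 : ℝ) ^ 2 ≤ 2 / Y := by
  classical
  obtain ⟨M, hM⟩ : ∃ M : ℕ, ∀ q ∈ s, nG q.1 ≤ M := by
    refine ⟨s.sup fun q => nG q.1, fun q hq => Finset.le_sup (f := fun q : Pg R => nG q.1) hq⟩
  have hYM : Y ≤ max Y M := le_max_left _ _
  calc ∑ q ∈ s, (1 : ℝ) / (nG q.1 : ℝ) ^ 2
      = ∑ n ∈ Finset.Ioc Y (max Y M), ∑ q ∈ s.filter (fun q => nG q.1 = n),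
          (1 : ℝ) / (nG q.1 : ℝ) ^ 2 := by
        rw [Finset.sum_fiberwise_of_maps_to]
        intro q hq
        rw [Finset.mem_Ioc]
        exact ⟨hs q hq, (hM q hq).trans (le_max_right _ _)⟩
    _ ≤ ∑ n ∈ Finset.Ioc Y (max Y M), 2 * ((n : ℝ) ^ 2)⁻¹ := by
        refine Finset.sum_le_sum fun n _ => ?_
        have h2 : ∑ q ∈ s.filter (fun q => nG q.1 = n), (1 : ℝ) / (nG q.1 : ℝ) ^ 2 =
            ((s.filter (fun q => nG q.1 = n)).card : ℝ) * ((n : ℝ) ^ 2)⁻¹ := by
          rw [← nsmul_eq_mul, ← Finset.sum_const]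
          refine Finset.sum_congr rfl fun q hq => ?_
          rw [(Finset.mem_filter.1 hq).2, one_div]
        have h3 : ((s.filter (fun q => nG q.1 = n)).card : ℝ) ≤ 2 := by
          exact_mod_cast card_nG_eq n _ fun q hq => (Finset.mem_filter.1 hq).2
        rw [h2]
        exact mul_le_mul_of_nonneg_right h3 (by positivity)
    _ ≤ 2 * ((Y : ℝ)⁻¹ - ((max Y M : ℕ) : ℝ)⁻¹) := by
        rw [← Finset.mul_sum]
        exact mul_le_mul_of_nonneg_left (sum_Ioc_inv_sq_le_sub hY hYM) (by norm_num)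
    _ ≤ 2 / Y := by
        have : 0 ≤ ((max Y M : ℕ) : ℝ)⁻¹ := by positivity
        rw [div_eq_mul_inv]
        linarith

/-- The telescoping sum. -/
theorem sum_odd_inv_sq (K : ℕ) :
    ∑ k ∈ Finset.range K, (2 : ℝ) / (2 * (k + 1 : ℕ) + 1) ^ 2 ≤ 1 / 2 := by
  have h : ∀ K : ℕ, ∑ k ∈ Finset.range K, (2 : ℝ) / (2 * (k + 1 : ℕ) + 1) ^ 2 ≤
      (1 / 2 : ℝ) - 1 / (2 * ((K : ℝ) + 1)) := by
    intro K
    induction K with
    | zero => simp
    | succ K ih =>
      rw [Finset.sum_range_succ]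
      refine (add_le_add ih le_rfl).trans ?_
      have hK : (0 : ℝ) ≤ K := Nat.cast_nonneg K
      push_cast
      have h1 : (2 : ℝ) / (2 * (K + 1) + 1) ^ 2 ≤ 1 / (2 * (K + 1)) - 1 / (2 * (K + 1 + 1)) := by
        rw [div_sub_div _ _ (by positivity) (by positivity), div_le_div_iff₀ (by positivity)
          (by positivity)]
        nlinarith
      linarith
  refine (h K).trans ?_
  have : (0 : ℝ) ≤ 1 / (2 * ((K : ℝ) + 1)) := by positivity
  linarith

/-- The sum of `N(q)⁻²` is at most `1/2`. -/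
theorem sum_inv_sq (s : Finset (Pg R)) : ∑ q ∈ s, (1 : ℝ) / (nG q.1 : ℝ) ^ 2 ≤ 1 / 2 := by
  classical
  obtain ⟨M, hM⟩ : ∃ M : ℕ, ∀ q ∈ s, nG q.1 ≤ M := by
    refine ⟨s.sup fun q => nG q.1, fun q hq => Finset.le_sup (f := fun q : Pg R => nG q.1) hq⟩
  have hodd : ∀ q : Pg R, nG q.1 = 2 * ((nG q.1 - 3) / 2 + 1) + 1 := by
    intro q
    have h1 := Pri.odd q.1 q.inP
    have h2 := nG_two_le q.2.1
    omega
  calc ∑ q ∈ s, (1 : ℝ) / (nG q.1 : ℝ) ^ 2
      = ∑ k ∈ Finset.range (M + 1), ∑ q ∈ s.filter (fun q => (nG q.1 - 3) / 2 = k),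
          (1 : ℝ) / (nG q.1 : ℝ) ^ 2 := by
        rw [Finset.sum_fiberwise_of_maps_to]
        intro q hq
        rw [Finset.mem_range]
        have := hM q hq
        omega
    _ ≤ ∑ k ∈ Finset.range (M + 1), (2 : ℝ) / (2 * (k + 1 : ℕ) + 1) ^ 2 := by
        refine Finset.sum_le_sum fun k _ => ?_
        have hk : ∀ q ∈ s.filter (fun q => (nG q.1 - 3) / 2 = k), nG q.1 = 2 * (k + 1) + 1 := by
          intro q hq
          have h1 := hodd q
          rw [(Finset.mem_filter.1 hq).2] at h1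
          exact h1
        have h2 : ∑ q ∈ s.filter (fun q => (nG q.1 - 3) / 2 = k), (1 : ℝ) / (nG q.1 : ℝ) ^ 2 =
            ((s.filter (fun q => (nG q.1 - 3) / 2 = k)).card : ℝ) *
              (1 / (2 * (k + 1 : ℕ) + 1) ^ 2) := by
          rw [← nsmul_eq_mul, ← Finset.sum_const]
          refine Finset.sum_congr rfl fun q hq => ?_
          rw [hk q hq]
          push_cast
          rfl
        have h3 : ((s.filter (fun q => (nG q.1 - 3) / 2 = k)).card : ℝ) ≤ 2 := by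
          exact_mod_cast card_nG_eq _ _ hk
        rw [h2]
        calc ((s.filter (fun q => (nG q.1 - 3) / 2 = k)).card : ℝ) *
              (1 / (2 * (k + 1 : ℕ) + 1) ^ 2) ≤ 2 * (1 / (2 * (k + 1 : ℕ) + 1) ^ 2) :=
              mul_le_mul_of_nonneg_right h3 (by positivity)
          _ = _ := by ring
    _ ≤ 1 / 2 := sum_odd_inv_sq _

/-- The tail of the sum of `N(q)⁻²`. -/
theorem sum_inv_sq_tail (ε : ℝ) (hε : 0 < ε) : ∃ Y : ℕ, ∀ s : Finset (Pg R),
    (∀ q ∈ s, Y < nG q.1) → ∑ q ∈ s, (1 : ℝ) / (nG q.1 : ℝ) ^ 2 ≤ ε := by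
  obtain ⟨Y, hY⟩ := exists_nat_gt (2 / ε)
  have h0 : (0 : ℝ) < Y := lt_trans (by positivity) hY
  refine ⟨Y, fun s hs => (cheb_sq s Y (by exact_mod_cast h0.ne') hs).trans ?_⟩
  rw [div_le_iff₀ h0]
  rw [div_lt_iff₀ hε] at hY
  linarith

end

end Pool.Agent.Lib.MP_1a91b9_ntR
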