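import Pool.Agent.Lib.MP_1a91b9_ntR.Mlt

/-!
# MP_1a91b9_nt, generic part R: transfer of the density

The squarefree elements are the `mu π i * DD S`. A lower bound for the proportion of the good sets
`S` in each family (class of `DD S` modulo `Q`, fixed `i`) gives the same lower bound among the
squarefree elements with a condition `Rc`; also for upper bounds.
-/

set_option autoImplicit false

namespace Pool.Agent.Lib.MP_1a91b9_ntR

open Finset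
open Pool.Agent.Lib.MP_1a91b9_ntH (PS nm pr mem_pr Sx mem_Sx)

noncomputable section

variable {R : Type} [CommRing R] [IsDomain R] [IsPrincipalIdealRing R] [Qi R] [Pri R] {Q : R}

omit [Pri R] in
theorem finite_quot (hQ0 : Q ≠ 0) : Finite (R ⧸ Ideal.span {Q}) := by
  apply Nat.finite_of_card_ne_zero
  rw [card_quot_nG]
  exact fun h => hQ0 (nG_eq_zero.1 h)

/-- The group of the primary classes modulo `Q`. -/
abbrev GR (hQ : (sys R).Mod Q) : Type := (sys R).GQ hQ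

/-- The class of a primary element. -/
def gc (hQ : (sys R).Mod Q) (x : R) (hx : Pri.In x) : GR hQ := QSys.gq (D := sys R) hQ x hx

/-- The class of a prime. -/
def cq (hQ : (sys R).Mod Q) (q : Pg R) : GR hQ := QSys.clp (D := sys R) hQ q

theorem gc_mul (hQ : (sys R).Mod Q) {x y : R} (hx : Pri.In x) (hy : Pri.In y)
    (hxy : Pri.In (x * y)) : gc hQ (x * y) hxy = gc hQ x hx + gc hQ y hy :=
  QSys.gq_mul (D := sys R) hQ hx hy

theorem gc_one (hQ : (sys R).Mod Q) : gc hQ 1 Pri.in_one = 0 := QSys.gq_one (D := sys R) hQ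

theorem gc_eq_iff (hQ : (sys R).Mod Q) {x y : R} (hx : Pri.In x) (hy : Pri.In y) :
    gc hQ x hx = gc hQ y hy ↔ Q ∣ x - y := QSys.gq_eq_iff (D := sys R) hQ hx hy

theorem gc_surj (hQ : (sys R).Mod Q) (g : GR hQ) : ∃ (x : R) (hx : Pri.In x), gc hQ x hx = g :=
  QSys.gq_surj (D := sys R) hQ g

theorem gc_DD (hQ : (sys R).Mod Q) (S : Finset (Pg R)) :
    gc hQ (DD S) (in_DD S) = ∑ q ∈ S, cq hQ q := QSys.gq_DD (D := sys R) hQ S

theorem gc_prime (hQ : (sys R).Mod Q) (q : Pg R) : gc hQ q.1 q.inP = cq hQ q := rfl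

/-! ### All classes have positive density -/

theorem psi_one (hQ : (sys R).Mod Q) (ψ : AddChar (GR hQ) ℂ) (h : ∀ q, ψ (cq hQ q) = 1) :
    ∀ (n : ℕ) (x : R) (hx : Pri.In x), nG x ≤ n → ψ (gc hQ x hx) = 1 := by
  intro n
  induction n with
  | zero =>
    intro x hx hn
    exact absurd (nG_eq_zero.1 (Nat.le_zero.1 hn)) (fun h0 => Pri.zero (h0 ▸ hx))
  | succ n ih =>
    intro x hx hn
    by_cases h1 : x = 1
    · subst h1
      rw [gc_one, AddChar.map_zero_eq_one]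
    · obtain ⟨q, y, hy⟩ := exists_prime_dvd hx h1
      subst hy
      have hy4 : Pri.In y := (Pri.mul_in q.1 y q.inP).1 hx
      have h2 : nG y ≤ n := by
        rw [nG_mul] at hn
        have h3 : 2 ≤ nG q.1 := nG_two_le q.2.1
        have h4 : nG y ≠ 0 := fun h0 => Pri.zero ((nG_eq_zero.1 h0) ▸ hy4)
        nlinarith [Nat.pos_of_ne_zero h4]
      rw [gc_mul hQ q.inP hy4, AddChar.map_add_eq_mul, ih y hy4 h2, mul_one]
      exact h q

theorem psi_eq_one (hQ : (sys R).Mod Q) (ψ : AddChar (GR hQ) ℂ) (h : ∀ q, ψ (cq hQ q) = 1) :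
    ψ = 1 := by
  ext g
  obtain ⟨x, hx, rfl⟩ := gc_surj hQ g
  rw [psi_one hQ ψ h (nG x) x hx le_rfl]
  rfl

/-- The sets with a given class. -/
def SR (hQ : (sys R).Mod Q) (g : GR hQ) (X : ℕ) : Finset (Finset (Pg R)) := by
  classical exact (Sx (Pg R) X).filter fun S => ∑ q ∈ S, cq hQ q = g

theorem mem_SR {hQ : (sys R).Mod Q} {g : GR hQ} {X : ℕ} {S : Finset (Pg R)} :
    S ∈ SR hQ g X ↔ nm S ≤ X ∧ ∑ q ∈ S, cq hQ q = g := by
  classical
  rw [SR, mem_filter, mem_Sx]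

/-- The sets with a given class and a property. -/
def SP (hQ : (sys R).Mod Q) (g : GR hQ) (X : ℕ) (P : Finset (Pg R) → Prop) :
    Finset (Finset (Pg R)) := by
  classical exact (SR hQ g X).filter P

theorem mem_SP {hQ : (sys R).Mod Q} {g : GR hQ} {X : ℕ} {P : Finset (Pg R) → Prop}
    {S : Finset (Pg R)} : S ∈ SP hQ g X P ↔ S ∈ SR hQ g X ∧ P S := by
  classical
  rw [SP, mem_filter]

theorem SP_not {hQ : (sys R).Mod Q} {g : GR hQ} {X : ℕ} {P : Finset (Pg R) → Prop} :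
    (SP hQ g X P).card + (SP hQ g X fun S => ¬ P S).card = (SR hQ g X).card := by
  classical
  have h := card_filter_add_card_filter_not (s := SR hQ g X) P
  have e1 : SP hQ g X P = (SR hQ g X).filter P := by
    ext S
    rw [mem_SP, mem_filter]
  have e2 : (SP hQ g X fun S => ¬ P S) = (SR hQ g X).filter fun S => ¬ P S := by
    ext S
    rw [mem_SP, mem_filter]
  rw [e1, e2]
  exact h

omit [IsDomain R] [IsPrincipalIdealRing R] [Qi R] [Pri R] in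
theorem psi_sum {G : Type} [AddCommGroup G] (ψ : AddChar G ℂ) {α : Type} (S : Finset α) (f : α → G) :
    ψ (∑ q ∈ S, f q) = ∏ q ∈ S, ψ (f q) := by
  classical
  induction S using Finset.induction_on with
  | empty => rw [sum_empty, prod_empty, AddChar.map_zero_eq_one]
  | insert a S ha ih => rw [sum_insert ha, prod_insert ha, AddChar.map_add_eq_mul, ih]

theorem finite_GR (hQ : (sys R).Mod Q) (hQ0 : Q ≠ 0) : Finite (GR hQ) := by
  have := finite_quot hQ0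
  infer_instance

/-- The orthogonality relation. -/
theorem card_SR (hQ : (sys R).Mod Q) [Fintype (GR hQ)] (g : GR hQ) (X : ℕ) :
    (Fintype.card (GR hQ) : ℂ) * ((SR hQ g X).card : ℂ) =
      ∑ ψ : AddChar (GR hQ) ℂ, ψ (-g) * ∑ S ∈ Sx (Pg R) X, ∏ q ∈ S, ψ (cq hQ q) := by
  classical
  have h1 : ∀ S ∈ Sx (Pg R) X, ∑ ψ : AddChar (GR hQ) ℂ, ψ (-g) * ∏ q ∈ S, ψ (cq hQ q) =
      if ∑ q ∈ S, cq hQ q = g then (Fintype.card (GR hQ) : ℂ) else 0 := by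
    intro S _
    have h2 : ∀ ψ : AddChar (GR hQ) ℂ, ψ (-g) * ∏ q ∈ S, ψ (cq hQ q) =
        ψ (-g + ∑ q ∈ S, cq hQ q) := by
      intro ψ
      rw [AddChar.map_add_eq_mul, psi_sum]
    simp only [h2]
    rw [AddChar.sum_apply_eq_ite]
    by_cases h3 : ∑ q ∈ S, cq hQ q = g
    · rw [if_pos h3, if_pos (by rw [h3, neg_add_cancel])]
    · rw [if_neg h3, if_neg (fun h4 => h3 (by rwa [neg_add_eq_zero, eq_comm] at h4))]
  simp only [mul_sum]
  rw [sum_comm, sum_congr rfl h1, ← sum_filter, sum_const, nsmul_eq_mul, mul_comm, SR]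

/-- **Every class has positive density.** -/
theorem class_card_ge (hQ : (sys R).Mod Q) (hQ0 : Q ≠ 0) (g : GR hQ) :
    ∃ c : ℝ, 0 < c ∧ ∃ X₀ : ℕ, ∀ X : ℕ, X₀ ≤ X → c * X ≤ ((SR hQ g X).card : ℝ) := by
  classical
  have hfin := finite_quot hQ0
  have hfin2 := finite_GR hQ hQ0
  let _ : Fintype (GR hQ) := Fintype.ofFinite _
  obtain ⟨c, hc, X₁, h1⟩ := PrmG.card_ge (md (R := R))
  obtain ⟨N, hN⟩ : ∃ N : ℝ, N = (Fintype.card (GR hQ) : ℝ) := ⟨_, rfl⟩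
  have hN0 : 0 < N := by
    rw [hN]
    exact_mod_cast Fintype.card_pos
  have hε : 0 < c / (2 * N) := by positivity
  have h2 : ∀ ψ : AddChar (GR hQ) ℂ, ∃ X₀ : ℕ, ∀ X : ℕ, X₀ ≤ X → ψ ≠ 1 →
      ‖∑ S ∈ Sx (Pg R) X, ∏ q ∈ S, ψ (cq hQ q)‖ ≤ c / (2 * N) * X := by
    intro ψ
    by_cases hψ : ψ = 1
    · exact ⟨0, fun X _ h => absurd hψ h⟩
    · have h3 : ∃ q, ψ (cq hQ q) ≠ 1 := by
        by_contra h3
        push Not at h3
        exact hψ (psi_eq_one hQ ψ h3)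
      obtain ⟨X₀, h4⟩ := QSys.h3G (D := sys R) sys_com hQ hQ0 ψ h3 _ hε
      exact ⟨X₀, fun X hX _ => h4 X hX⟩
  choose X₂ h2 using h2
  refine ⟨c / (2 * N), hε, X₁ + ∑ ψ, X₂ ψ, fun X hX => ?_⟩
  have hX2 : ∀ ψ, X₂ ψ ≤ X := fun ψ =>
    (single_le_sum (fun _ _ => Nat.zero_le _) (mem_univ ψ)).trans ((Nat.le_add_left _ _).trans hX)
  have e := card_SR hQ g X
  rw [← add_sum_erase _ _ (mem_univ (1 : AddChar (GR hQ) ℂ))] at e
  have e0 : (1 : AddChar (GR hQ) ℂ) (-g) * ∑ S ∈ Sx (Pg R) X, ∏ q ∈ S,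
      (1 : AddChar (GR hQ) ℂ) (cq hQ q) = ((Sx (Pg R) X).card : ℂ) := by
    simp
  rw [e0] at e
  have hX0 : (0 : ℝ) ≤ X := Nat.cast_nonneg _
  have hrest : ‖∑ ψ ∈ (univ : Finset (AddChar (GR hQ) ℂ)).erase 1,
      ψ (-g) * ∑ S ∈ Sx (Pg R) X, ∏ q ∈ S, ψ (cq hQ q)‖ ≤ N * (c / (2 * N) * X) := by
    refine (norm_sum_le _ _).trans ?_
    have h3 : ∀ ψ ∈ (univ : Finset (AddChar (GR hQ) ℂ)).erase 1,
        ‖ψ (-g) * ∑ S ∈ Sx (Pg R) X, ∏ q ∈ S, ψ (cq hQ q)‖ ≤ c / (2 * N) * X := by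
      intro ψ hψ
      rw [norm_mul, AddChar.norm_apply, one_mul]
      exact h2 ψ X (hX2 ψ) (mem_erase.1 hψ).1
    refine (sum_le_sum h3).trans ?_
    rw [sum_const, nsmul_eq_mul]
    have h4 : ((univ : Finset (AddChar (GR hQ) ℂ)).erase 1).card ≤ Fintype.card (GR hQ) := by
      refine (card_le_card (erase_subset _ _)).trans ?_
      rw [card_univ, AddChar.card_eq]
    have h5 : (((univ : Finset (AddChar (GR hQ) ℂ)).erase 1).card : ℝ) ≤ N := by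
      rw [hN]
      exact_mod_cast h4
    exact mul_le_mul_of_nonneg_right h5 (by positivity)
  have h4 := h1 X (by omega)
  have h5 : N * ((SR hQ g X).card : ℝ) ≥ ((Sx (Pg R) X).card : ℝ) - N * (c / (2 * N) * X) := by
    have h6 : ‖((Sx (Pg R) X).card : ℂ)‖ ≤
        ‖(Fintype.card (GR hQ) : ℂ) * ((SR hQ g X).card : ℂ)‖ + N * (c / (2 * N) * X) := by
      have h7 : ((Sx (Pg R) X).card : ℂ) = (Fintype.card (GR hQ) : ℂ) * ((SR hQ g X).card : ℂ) -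
          ∑ ψ ∈ (univ : Finset (AddChar (GR hQ) ℂ)).erase 1,
            ψ (-g) * ∑ S ∈ Sx (Pg R) X, ∏ q ∈ S, ψ (cq hQ q) := by
        rw [e]
        ring
      rw [h7]
      refine (norm_sub_le _ _).trans ?_
      linarith
    rw [norm_mul, Complex.norm_natCast, Complex.norm_natCast, Complex.norm_natCast, ← hN] at h6
    linarith
  have h6 : N * (c / (2 * N) * X) = c * X / 2 := by
    field_simp
  rw [h6] at h5
  have h7 : N * (c / (2 * N) * X) ≤ N * ((SR hQ g X).card : ℝ) := by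
    rw [h6]
    linarith
  exact le_of_mul_le_mul_left h7 hN0

/-! ### The families -/

variable {A : Type} [Fintype A] [DecidableEq A] {π : A → R}

/-- The bound for the norm of the primary factor. -/
def NX (π : A → R) (i : ZMod 2 × (A → ZMod 2)) (X : ℝ) : ℕ := ⌊X / (nG (mu π i) : ℝ)⌋₊

omit [IsPrincipalIdealRing R] in
theorem Bad.nG_mu_pos (h : Bad π) (i : ZMod 2 × (A → ZMod 2)) : (1 : ℝ) ≤ (nG (mu π i) : ℝ) := by
  have h1 : 0 < nG (mu π i) := Nat.pos_of_ne_zero fun h0 => h.mu_ne i (nG_eq_zero.1 h0)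
  exact_mod_cast h1

theorem Bad.nG_le (h : Bad π) (i : ZMod 2 × (A → ZMod 2)) (S : Finset (Pg R)) {X : ℝ}
    (hX : 0 ≤ X) : (nG (mu π i * DD S) : ℝ) ≤ X ↔ nm S ≤ NX π i X := by
  have h1 := h.nG_mu_pos i
  have h2 : (0 : ℝ) < (nG (mu π i) : ℝ) := by linarith
  have e : nG (DD S) = nm S := (prm R).nG_dd S
  rw [nG_mul, e, NX, Nat.le_floor_iff (by positivity), le_div_iff₀ h2]
  push_cast
  rw [mul_comm]

theorem Bad.NX_le (h : Bad π) (i : ZMod 2 × (A → ZMod 2)) {X : ℝ} (hX : 0 ≤ X) :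
    (NX π i X : ℝ) ≤ X := by
  have h1 := h.nG_mu_pos i
  unfold NX
  refine (Nat.floor_le (by positivity)).trans ?_
  exact div_le_self hX h1

theorem Bad.le_NX (h : Bad π) (i : ZMod 2 × (A → ZMod 2)) {X : ℝ}
    (hX : 2 * (nG (mu π i) : ℝ) ≤ X) : X / (2 * (nG (mu π i) : ℝ)) ≤ (NX π i X : ℝ) := by
  have h1 := h.nG_mu_pos i
  have h2 : (0 : ℝ) < (nG (mu π i) : ℝ) := by linarith
  have h3 := Nat.lt_floor_add_one (X / (nG (mu π i) : ℝ))
  have h4 : X / (nG (mu π i) : ℝ) = 2 * (X / (2 * (nG (mu π i) : ℝ))) := by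
    field_simp
  have h5 : 1 ≤ X / (2 * (nG (mu π i) : ℝ)) := by
    rw [le_div_iff₀ (by positivity), one_mul]
    exact hX
  unfold NX
  linarith

theorem Bad.tendsto_NX (h : Bad π) (i : ZMod 2 × (A → ZMod 2)) :
    Filter.Tendsto (NX π i) Filter.atTop Filter.atTop := by
  have h1 := h.nG_mu_pos i
  unfold NX
  exact tendsto_nat_floor_atTop.comp (Filter.tendsto_id.atTop_div_const (by linarith))

open Classical in
theorem Bad.card_all (h : Bad π) {X : ℝ} (hX : 0 ≤ X) (P : R → Prop) :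
    Nat.card {x : R // Squarefree x ∧ (nG x : ℝ) ≤ X ∧ P x} =
      ∑ i : ZMod 2 × (A → ZMod 2), ((Sx (Pg R) (NX π i X)).filter fun S => P (mu π i * DD S)).card := by
  have e : ∑ i : ZMod 2 × (A → ZMod 2),
      ((Sx (Pg R) (NX π i X)).filter fun S => P (mu π i * DD S)).card =
      Nat.card ((i : ZMod 2 × (A → ZMod 2)) ×
        {S // S ∈ (Sx (Pg R) (NX π i X)).filter fun S => P (mu π i * DD S)}) := by
    rw [Nat.card_sigma]
    refine sum_congr rfl fun i _ => ?_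
    rw [Nat.card_eq_fintype_card, Fintype.card_coe]
  rw [e]
  symm
  refine Nat.card_congr (Equiv.ofBijective
    (fun s => ⟨mu π s.1 * DD s.2.1, h.sqf _ _, (h.nG_le _ _ hX).2
      (mem_Sx.1 (mem_filter.1 s.2.2).1), (mem_filter.1 s.2.2).2⟩) ⟨?_, ?_⟩)
  · rintro ⟨i, S, hS⟩ ⟨j, S', hS'⟩ h0
    have h1 : mu π i * DD S = mu π j * DD S' := congrArg Subtype.val h0
    obtain ⟨rfl, rfl⟩ := h.mul_inj h1
    rfl
  · rintro ⟨x, h1, h2, h3⟩
    obtain ⟨i, S, rfl⟩ := h.surj h1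
    refine ⟨⟨i, S, ?_⟩, rfl⟩
    rw [mem_filter, mem_Sx]
    exact ⟨(h.nG_le i S hX).1 h2, h3⟩

omit [IsDomain R] [IsPrincipalIdealRing R] [Pri R] in
theorem abs_norm_le (x : R) (X : ℝ) :
    ((|Algebra.norm ℤ x| : ℤ) : ℝ) ≤ X ↔ (nG x : ℝ) ≤ X := by
  rw [norm_eq_nG, abs_of_nonneg (Int.natCast_nonneg _), Int.cast_natCast]

/-- The condition `Rc` only depends on the multiplier and the class of the primary factor. -/
def Cnd (π : A → R) (Q : R) (Rc : R → Prop) : Prop :=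
  ∀ (i : ZMod 2 × (A → ZMod 2)) (y y' : R), Pri.In y → Pri.In y' → Q ∣ y - y' →
    (Rc (mu π i * y) ↔ Rc (mu π i * y'))

/-- The families have the density at least `κ`. -/
def LowF (hQ : (sys R).Mod Q) (π : A → R) (Rc : R → Prop) (κ : ℝ)
    (Good : ZMod 2 × (A → ZMod 2) → Finset (Pg R) → Prop) : Prop :=
  ∀ (i : ZMod 2 × (A → ZMod 2)) (g : GR hQ),
    (∃ (y : R) (hy : Pri.In y), gc hQ y hy = g ∧ Rc (mu π i * y)) →
    ∀ ε : ℝ, 0 < ε → ∃ X₀ : ℕ, ∀ X : ℕ, X₀ ≤ X →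
    κ * ((SR hQ g X).card : ℝ) - ε * X ≤ ((SP hQ g X (Good i)).card : ℝ)

/-- The families have the density at most `κ`. -/
def UppF (hQ : (sys R).Mod Q) (π : A → R) (Rc : R → Prop) (κ : ℝ)
    (Good : ZMod 2 × (A → ZMod 2) → Finset (Pg R) → Prop) : Prop :=
  ∀ (i : ZMod 2 × (A → ZMod 2)) (g : GR hQ),
    (∃ (y : R) (hy : Pri.In y), gc hQ y hy = g ∧ Rc (mu π i * y)) →
    ∀ ε : ℝ, 0 < ε → ∃ X₀ : ℕ, ∀ X : ℕ, X₀ ≤ X →
    ((SP hQ g X (Good i)).card : ℝ) ≤ κ * ((SR hQ g X).card : ℝ) + ε * X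

open Classical in
theorem Bad.den (hB : Bad π) (hQ : (sys R).Mod Q) (hQ0 : Q ≠ 0) (Rc : R → Prop)
    (hR : Cnd π Q Rc)
    (hne : ∃ (i : ZMod 2 × (A → ZMod 2)) (y : R), Pri.In y ∧ Rc (mu π i * y))
    (κ κ' : ℝ) (hκ : κ' < κ) (Good : ZMod 2 × (A → ZMod 2) → Finset (Pg R) → Prop)
    (h : LowF hQ π Rc κ Good) (P : R → Prop)
    (hP : ∀ (i : ZMod 2 × (A → ZMod 2)) (S : Finset (Pg R)), Rc (mu π i * DD S) → Good i S →
      P (mu π i * DD S)) :
    ∀ᶠ X : ℝ in Filter.atTop,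
      0 < (Nat.card {x : R // Squarefree x ∧ Rc x ∧ |Algebra.norm ℤ x| ≤ X} : ℝ) ∧
      κ' * (Nat.card {x : R // Squarefree x ∧ Rc x ∧ |Algebra.norm ℤ x| ≤ X} : ℝ) ≤
        (Nat.card {x : R // Squarefree x ∧ Rc x ∧ |Algebra.norm ℤ x| ≤ X ∧ P x} : ℝ) := by
  have hfin2 := finite_GR hQ hQ0
  let _ : Fintype (GR hQ) := Fintype.ofFinite _
  -- the families
  obtain ⟨J, hJ⟩ : ∃ J : Finset ((ZMod 2 × (A → ZMod 2)) × GR hQ), ∀ i, i ∈ J ↔
      ∃ (y : R) (hy : Pri.In y), gc hQ y hy = i.2 ∧ Rc (mu π i.1 * y) :=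
    ⟨univ.filter fun i => ∃ (y : R) (hy : Pri.In y), gc hQ y hy = i.2 ∧ Rc (mu π i.1 * y),
      fun i => by rw [mem_filter, and_iff_right (mem_univ _)]⟩
  have hRi : ∀ (i : (ZMod 2 × (A → ZMod 2)) × GR hQ) (S : Finset (Pg R)),
      ∑ q ∈ S, cq hQ q = i.2 → (Rc (mu π i.1 * DD S) ↔ i ∈ J) := by
    intro i S hS
    rw [← gc_DD] at hS
    rw [hJ]
    constructor
    · intro h1
      exact ⟨DD S, in_DD S, hS, h1⟩
    · rintro ⟨y, hy, h1, h2⟩
      rw [← h1, gc_eq_iff] at hS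
      exact (hR _ _ _ (in_DD S) hy hS).2 h2
  obtain ⟨i₀, hi₀⟩ : J.Nonempty := by
    obtain ⟨i, y, hy, h1⟩ := hne
    exact ⟨(i, gc hQ y hy), (hJ _).2 ⟨y, hy, rfl, h1⟩⟩
  -- the numbers
  have hcount : ∀ (X : ℝ), 0 ≤ X → ∀ P : R → Prop,
      Nat.card {x : R // Squarefree x ∧ Rc x ∧ (nG x : ℝ) ≤ X ∧ P x} =
        ∑ i ∈ J, (SP hQ i.2 (NX π i.1 X) fun S => P (mu π i.1 * DD S)).card := by
    intro X hX P
    obtain ⟨P', hP'⟩ : ∃ P' : R → Prop, ∀ x, P' x ↔ Rc x ∧ P x := ⟨fun x => Rc x ∧ P x, fun _ => Iff.rfl⟩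
    have e : Nat.card {x : R // Squarefree x ∧ Rc x ∧ (nG x : ℝ) ≤ X ∧ P x} =
        Nat.card {x : R // Squarefree x ∧ (nG x : ℝ) ≤ X ∧ P' x} :=
      Nat.card_congr (Equiv.subtypeEquivRight fun x => by
        rw [hP']
        constructor
        · rintro ⟨a, b, c, d⟩
          exact ⟨a, c, b, d⟩
        · rintro ⟨a, c, b, d⟩
          exact ⟨a, b, c, d⟩)
    rw [e, hB.card_all hX P']
    have e2 : ∀ i : ZMod 2 × (A → ZMod 2),
        ((Sx (Pg R) (NX π i X)).filter fun S => P' (mu π i * DD S)).card =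
        ∑ g : GR hQ, if (i, g) ∈ J then (SP hQ g (NX π i X) fun S =>
          P (mu π i * DD S)).card else 0 := by
      intro i
      rw [card_eq_sum_card_fiberwise (f := fun S : Finset (Pg R) => ∑ q ∈ S, cq hQ q)
        (t := (univ : Finset (GR hQ))) (fun _ _ => mem_coe.2 (mem_univ _))]
      refine sum_congr rfl fun g _ => ?_
      rw [filter_filter]
      split_ifs with hg
      · congr 1
        ext S
        rw [mem_filter, mem_SP, mem_SR, mem_Sx, hP']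
        constructor
        · rintro ⟨a, ⟨-, b⟩, c⟩
          exact ⟨⟨a, c⟩, b⟩
        · rintro ⟨⟨a, c⟩, b⟩
          exact ⟨a, ⟨(hRi (i, g) S c).2 hg, b⟩, c⟩
      · rw [card_eq_zero, filter_eq_empty_iff]
        rintro S _ ⟨a, b⟩
        exact hg ((hRi (i, g) S b).1 ((hP' _).1 a).1)
    rw [sum_congr rfl fun i _ => e2 i]
    have e3 : ∑ i ∈ J, (SP hQ i.2 (NX π i.1 X) fun S => P (mu π i.1 * DD S)).card =
        ∑ i : (ZMod 2 × (A → ZMod 2)) × GR hQ, if i ∈ J then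
          (SP hQ i.2 (NX π i.1 X) fun S => P (mu π i.1 * DD S)).card else 0 := by
      rw [sum_ite_mem, univ_inter]
    rw [e3, Fintype.sum_prod_type (f := fun i : (ZMod 2 × (A → ZMod 2)) × GR hQ =>
      if i ∈ J then (SP hQ i.2 (NX π i.1 X) fun S => P (mu π i.1 * DD S)).card else 0)]
  have hcount' : ∀ (X : ℝ), 0 ≤ X →
      Nat.card {x : R // Squarefree x ∧ Rc x ∧ (nG x : ℝ) ≤ X} =
        ∑ i ∈ J, (SR hQ i.2 (NX π i.1 X)).card := by
    intro X hX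
    have := hcount X hX (fun _ => True)
    simp only [and_true] at this
    rw [this]
    refine sum_congr rfl fun i _ => ?_
    congr 1
    ext S
    rw [mem_SP, and_true]
  -- the constants
  obtain ⟨c, hc, X₁, hX₁⟩ := class_card_ge hQ hQ0 i₀.2
  obtain ⟨n, hn⟩ : ∃ n : ℝ, n = (J.card : ℝ) := ⟨_, rfl⟩
  have hn0 : 0 < n := by
    rw [hn]
    exact_mod_cast card_pos.2 ⟨i₀, hi₀⟩
  obtain ⟨K, hK⟩ : ∃ K : ℝ, K = 2 * (nG (mu π i₀.1) : ℝ) := ⟨_, rfl⟩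
  have hK0 : 0 < K := by
    have := hB.nG_mu_pos i₀.1
    rw [hK]
    linarith
  have hd : 0 < κ - κ' := by linarith
  obtain ⟨ε, hε⟩ : ∃ ε : ℝ, ε = (κ - κ') * c / (K * n) := ⟨_, rfl⟩
  have hε0 : 0 < ε := by
    rw [hε]
    positivity
  have h' : ∀ i ∈ J, ∃ X₀ : ℕ, ∀ X : ℕ, X₀ ≤ X →
      κ * ((SR hQ i.2 X).card : ℝ) - ε * X ≤
        ((SP hQ i.2 X (Good i.1)).card : ℝ) :=
    fun i hi => h i.1 i.2 ((hJ i).1 hi) ε hε0
  have hev : ∀ i ∈ J, ∀ᶠ X : ℝ in Filter.atTop,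
      κ * ((SR hQ i.2 (NX π i.1 X)).card : ℝ) - ε * (NX π i.1 X : ℝ) ≤
        ((SP hQ i.2 (NX π i.1 X) (Good i.1)).card : ℝ) := by
    intro i hi
    obtain ⟨X₀, hX₀⟩ := h' i hi
    filter_upwards [(hB.tendsto_NX i.1).eventually_ge_atTop X₀] with X hX
    exact hX₀ _ hX
  have hev2 := (Filter.eventually_all_finset J).2 hev
  filter_upwards [hev2, (hB.tendsto_NX i₀.1).eventually_ge_atTop X₁,
    Filter.eventually_ge_atTop K] with X hX hX1 hX4
  have hX0 : (0 : ℝ) ≤ X := by linarith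
  simp only [abs_norm_le]
  rw [hcount X hX0 P, hcount' X hX0]
  push_cast
  -- the lower bound for the denominator
  have hden : c * (X / K) ≤ ∑ i ∈ J, ((SR hQ i.2 (NX π i.1 X)).card : ℝ) := by
    have h1 := hX₁ _ hX1
    have h0 : X / K ≤ (NX π i₀.1 X : ℝ) := by
      rw [hK] at hX4 ⊢
      exact hB.le_NX i₀.1 hX4
    have h2 : c * (X / K) ≤ c * (NX π i₀.1 X : ℝ) := mul_le_mul_of_nonneg_left h0 hc.le
    have h3 : ((SR hQ i₀.2 (NX π i₀.1 X)).card : ℝ) ≤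
        ∑ i ∈ J, ((SR hQ i.2 (NX π i.1 X)).card : ℝ) :=
      single_le_sum (f := fun i : (ZMod 2 × (A → ZMod 2)) × GR hQ =>
        ((SR hQ i.2 (NX π i.1 X)).card : ℝ)) (fun _ _ => Nat.cast_nonneg _) hi₀
    linarith
  have hXp : 0 < X := lt_of_lt_of_le hK0 hX4
  have hpos : (0 : ℝ) < ∑ i ∈ J, ((SR hQ i.2 (NX π i.1 X)).card : ℝ) :=
    lt_of_lt_of_le (by positivity) hden
  refine ⟨hpos, ?_⟩
  -- the numerator
  have hnum : κ * ∑ i ∈ J, ((SR hQ i.2 (NX π i.1 X)).card : ℝ) - n * (ε * X) ≤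
      ∑ i ∈ J, ((SP hQ i.2 (NX π i.1 X) fun S => P (mu π i.1 * DD S)).card : ℝ) := by
    have h1 : ∀ i ∈ J, κ * ((SR hQ i.2 (NX π i.1 X)).card : ℝ) - ε * X ≤
        ((SP hQ i.2 (NX π i.1 X) fun S => P (mu π i.1 * DD S)).card : ℝ) := by
      intro i hi
      have h2 := hX i hi
      have h3 : ε * (NX π i.1 X : ℝ) ≤ ε * X :=
        mul_le_mul_of_nonneg_left (hB.NX_le _ hX0) hε0.le
      have h4 : ((SP hQ i.2 (NX π i.1 X) (Good i.1)).card : ℝ) ≤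
          ((SP hQ i.2 (NX π i.1 X) fun S => P (mu π i.1 * DD S)).card : ℝ) := by
        refine Nat.cast_le.2 (card_le_card ?_)
        intro S hS
        rw [mem_SP] at hS ⊢
        exact ⟨hS.1, hP _ S ((hRi i S (mem_SR.1 hS.1).2).2 hi) hS.2⟩
      linarith
    have h5 := sum_le_sum h1
    rw [sum_sub_distrib, ← mul_sum, sum_const, nsmul_eq_mul, ← hn] at h5
    exact h5
  have hfin : n * (ε * X) = (κ - κ') * (c * (X / K)) := by
    rw [hε]
    field_simp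
  have hfin2 : (κ - κ') * (c * (X / K)) ≤
      (κ - κ') * ∑ i ∈ J, ((SR hQ i.2 (NX π i.1 X)).card : ℝ) :=
    mul_le_mul_of_nonneg_left hden hd.le
  linarith

theorem lowF_not {hQ : (sys R).Mod Q} {Rc : R → Prop} {κ : ℝ}
    {Good : ZMod 2 × (A → ZMod 2) → Finset (Pg R) → Prop} (h : UppF hQ π Rc κ Good) :
    LowF hQ π Rc (1 - κ) (fun i S => ¬ Good i S) := by
  intro i g hg ε hε
  obtain ⟨X₀, hX₀⟩ := h i g hg ε hε
  refine ⟨X₀, fun X hX => ?_⟩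
  have h1 := hX₀ X hX
  have h2 := SP_not (hQ := hQ) (g := g) (X := X) (P := Good i)
  have h3 : ((SP hQ g X (Good i)).card : ℝ) + ((SP hQ g X fun S => ¬ Good i S).card : ℝ) =
      ((SR hQ g X).card : ℝ) := by
    exact_mod_cast h2
  linarith

/-- **The lower bound for the density.** -/
theorem Bad.low (hB : Bad π) (hQ : (sys R).Mod Q) (hQ0 : Q ≠ 0) {Rc : R → Prop}
    (hR : Cnd π Q Rc)
    (hne : ∃ (i : ZMod 2 × (A → ZMod 2)) (y : R), Pri.In y ∧ Rc (mu π i * y))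
    {κ κ' : ℝ} (hκ : κ' < κ) {Good : ZMod 2 × (A → ZMod 2) → Finset (Pg R) → Prop}
    (h : LowF hQ π Rc κ Good) (P : R → Prop)
    (hP : ∀ (i : ZMod 2 × (A → ZMod 2)) (S : Finset (Pg R)), Rc (mu π i * DD S) → Good i S →
      P (mu π i * DD S)) :
    ∀ᶠ X : ℝ in Filter.atTop,
      κ' ≤ (Nat.card {x : R // Squarefree x ∧ Rc x ∧ |Algebra.norm ℤ x| ≤ X ∧ P x} : ℝ) /
        (Nat.card {x : R // Squarefree x ∧ Rc x ∧ |Algebra.norm ℤ x| ≤ X} : ℝ) := by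
  filter_upwards [hB.den hQ hQ0 Rc hR hne κ κ' hκ Good h P hP] with X hX
  rw [le_div_iff₀ hX.1]
  exact hX.2

/-- The number of the elements with and without a property. -/
theorem Bad.card_split (hB : Bad π) {X : ℝ} (hX : 0 ≤ X) (Rc P : R → Prop) :
    (Nat.card {x : R // Squarefree x ∧ Rc x ∧ |Algebra.norm ℤ x| ≤ X ∧ P x}) +
      (Nat.card {x : R // Squarefree x ∧ Rc x ∧ |Algebra.norm ℤ x| ≤ X ∧ ¬ P x}) =
      Nat.card {x : R // Squarefree x ∧ Rc x ∧ |Algebra.norm ℤ x| ≤ X} := by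
  classical
  have hfin : Finite {x : R // Squarefree x ∧ Rc x ∧ |Algebra.norm ℤ x| ≤ X} := by
    have h1 : {x : R | Squarefree x ∧ Rc x ∧ ((|Algebra.norm ℤ x| : ℤ) : ℝ) ≤ X} ⊆
        {x : R | nG x ≤ ⌊X⌋₊} := by
      rintro x ⟨-, -, h⟩
      rw [abs_norm_le] at h
      exact Nat.le_floor h
    exact ((nG_fin ⌊X⌋₊).subset h1).to_subtype
  have e1 : Nat.card {x : R // Squarefree x ∧ Rc x ∧ |Algebra.norm ℤ x| ≤ X ∧ P x} =
      Nat.card {y : {x : R // Squarefree x ∧ Rc x ∧ |Algebra.norm ℤ x| ≤ X} // P y.1} :=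
    Nat.card_congr ⟨fun x => ⟨⟨x.1, x.2.1, x.2.2.1, x.2.2.2.1⟩, x.2.2.2.2⟩,
      fun y => ⟨y.1.1, y.1.2.1, y.1.2.2.1, y.1.2.2.2, y.2⟩, fun _ => rfl, fun _ => rfl⟩
  have e2 : Nat.card {x : R // Squarefree x ∧ Rc x ∧ |Algebra.norm ℤ x| ≤ X ∧ ¬ P x} =
      Nat.card {y : {x : R // Squarefree x ∧ Rc x ∧ |Algebra.norm ℤ x| ≤ X} // ¬ P y.1} :=
    Nat.card_congr ⟨fun x => ⟨⟨x.1, x.2.1, x.2.2.1, x.2.2.2.1⟩, x.2.2.2.2⟩,
      fun y => ⟨y.1.1, y.1.2.1, y.1.2.2.1, y.1.2.2.2, y.2⟩, fun _ => rfl, fun _ => rfl⟩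
  rw [e1, e2, ← Nat.card_sum]
  exact Nat.card_congr (Equiv.sumCompl fun y :
    {x : R // Squarefree x ∧ Rc x ∧ |Algebra.norm ℤ x| ≤ X} => P y.1)

/-- **The upper bound for the density.** -/
theorem Bad.upp (hB : Bad π) (hQ : (sys R).Mod Q) (hQ0 : Q ≠ 0) {Rc : R → Prop}
    (hR : Cnd π Q Rc)
    (hne : ∃ (i : ZMod 2 × (A → ZMod 2)) (y : R), Pri.In y ∧ Rc (mu π i * y))
    {κ κ' : ℝ} (hκ : κ < κ') {Good : ZMod 2 × (A → ZMod 2) → Finset (Pg R) → Prop}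
    (h : UppF hQ π Rc κ Good) (P : R → Prop)
    (hP : ∀ (i : ZMod 2 × (A → ZMod 2)) (S : Finset (Pg R)), Rc (mu π i * DD S) →
      P (mu π i * DD S) → Good i S) :
    ∀ᶠ X : ℝ in Filter.atTop,
      (Nat.card {x : R // Squarefree x ∧ Rc x ∧ |Algebra.norm ℤ x| ≤ X ∧ P x} : ℝ) /
        (Nat.card {x : R // Squarefree x ∧ Rc x ∧ |Algebra.norm ℤ x| ≤ X} : ℝ) ≤ κ' := by
  have h1 := hB.den hQ hQ0 Rc hR hne (1 - κ) (1 - κ') (by linarith) (fun i S => ¬ Good i S)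
    (lowF_not h) (fun x => ¬ P x) (fun i S hRc hg hp => hg (hP i S hRc hp))
  filter_upwards [h1, Filter.eventually_ge_atTop (0 : ℝ)] with X hX hX0
  rw [div_le_iff₀ hX.1]
  have h2 : (Nat.card {x : R // Squarefree x ∧ Rc x ∧ |Algebra.norm ℤ x| ≤ X ∧ P x} : ℝ) +
      (Nat.card {x : R // Squarefree x ∧ Rc x ∧ |Algebra.norm ℤ x| ≤ X ∧ ¬ P x} : ℝ) =
      (Nat.card {x : R // Squarefree x ∧ Rc x ∧ |Algebra.norm ℤ x| ≤ X} : ℝ) := by
    exact_mod_cast hB.card_split hX0 Rc P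
  have h3 := hX.2
  linarith

/-- The condition of a class modulo `m`, a divisor of `Q`. -/
theorem cnd_cls {m u : R} (hm : m ∣ Q) : Cnd π Q (fun x => m ∣ x - u) := by
  intro i y y' _ _ hyy
  have h1 : m ∣ mu π i * y - mu π i * y' := by
    refine (hm.trans hyy).trans ⟨mu π i, ?_⟩
    ring
  constructor
  · intro h2
    have h3 := dvd_sub h2 h1
    have e : mu π i * y - u - (mu π i * y - mu π i * y') = mu π i * y' - u := by ring
    rwa [e] at h3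
  · intro h2
    have h3 := dvd_add h2 h1
    have e : mu π i * y' - u + (mu π i * y - mu π i * y') = mu π i * y - u := by ring
    rwa [e] at h3

/-- The limit of the density. -/
theorem tendsto_of {f : ℝ → ℝ} {κ : ℝ} (h1 : ∀ a, a < κ → ∀ᶠ X in Filter.atTop, a ≤ f X)
    (h2 : ∀ b, κ < b → ∀ᶠ X in Filter.atTop, f X ≤ b) :
    Filter.Tendsto f Filter.atTop (nhds κ) := by
  rw [Metric.tendsto_nhds]
  intro ε hε
  filter_upwards [h1 (κ - ε / 2) (by linarith), h2 (κ + ε / 2) (by linarith)] with X a b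
  rw [Real.dist_eq, abs_lt]
  constructor <;> linarith

end

end Pool.Agent.Lib.MP_1a91b9_ntR
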