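import Pool.Agent.Lib.MP_1a91b9_ntR.Mlt

/-!
# MP_1a91b9_nt, generic part R: the squarefree part of a product

`exists_sf`: every nonzero element is `mu π i * DD T * s ^ 2`. `mu_mul`: the product rule.
-/

set_option autoImplicit false
set_option linter.unusedSectionVars false

namespace Pool.Agent.Lib.MP_1a91b9_ntR

open Finset

noncomputable section

variable {R : Type} [CommRing R] [IsDomain R] [IsPrincipalIdealRing R] [Qi R] [Pri R]
  {A : Type} [Fintype A] [DecidableEq A] {π : A → R}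

theorem DD_union {S T : Finset (Pg R)} (h : Disjoint S T) : DD (S ∪ T) = DD S * DD T :=
  prod_union h

theorem DD_ne_zero (S : Finset (Pg R)) : DD S ≠ 0 := fun h0 => Pri.zero (h0 ▸ in_DD S)

theorem DD_mul (S T : Finset (Pg R)) : DD S * DD T = DD (symmDiff S T) * DD (S ∩ T) ^ 2 := by
  have h1 : DD S = DD (S \ T) * DD (S ∩ T) := by
    rw [← DD_union (disjoint_sdiff_inter S T), sdiff_union_inter]
  have h2 : DD T = DD (T \ S) * DD (S ∩ T) := by
    rw [inter_comm, ← DD_union (disjoint_sdiff_inter T S), sdiff_union_inter]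
  have h3 : DD (symmDiff S T) = DD (S \ T) * DD (T \ S) := by
    rw [← DD_union (disjoint_sdiff_sdiff), symmDiff_def]
    rfl
  rw [h1, h2, h3]
  ring

/-- The squarefree part of an element. -/
theorem Bad.exists_sf (h : Bad π) (a : R) : a ≠ 0 →
    ∃ (i : ZMod 2 × (A → ZMod 2)) (T : Finset (Pg R)) (s : R), s ≠ 0 ∧
      a = mu π i * DD T * s ^ 2 := by
  suffices h' : a ≠ 0 → ∃ δ s : R, Squarefree δ ∧ s ≠ 0 ∧ a = δ * s ^ 2 by
    intro ha
    obtain ⟨δ, s, h1, h2, h3⟩ := h' ha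
    obtain ⟨i, T, h4⟩ := h.surj h1
    exact ⟨i, T, s, h2, by rw [h3, h4]⟩
  refine UniqueFactorizationMonoid.induction_on_prime a (fun h => absurd rfl h)
    (fun x hx _ => ⟨x, 1, hx.squarefree, one_ne_zero, by ring⟩) ?_
  intro b p hb hp ih hpb
  obtain ⟨δ, s, h1, h2, h3⟩ := ih hb
  by_cases h : p ∣ δ
  · obtain ⟨δ', rfl⟩ := h
    refine ⟨δ', p * s, h1.squarefree_of_dvd (Dvd.intro_left p rfl), mul_ne_zero hp.ne_zero h2, ?_⟩
    rw [h3]
    ring
  · refine ⟨p * δ, s, ?_, h2, ?_⟩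
    · rw [squarefree_mul_iff]
      exact ⟨(hp.irreducible.isRelPrime_iff_not_dvd).2 h, hp.squarefree, h1⟩
    · rw [h3]
      ring

theorem neg_one_pow_add (u u' : ZMod 2) :
    (-1 : R) ^ u.val * (-1) ^ u'.val = (-1) ^ (u + u').val := by
  rcases z2v u with ⟨h1, h2⟩ | ⟨h1, h2⟩ <;> rcases z2v u' with ⟨h3, h4⟩ | ⟨h3, h4⟩
  · rw [h2, h4, h1, h3, add_zero, ZMod.val_zero, pow_zero, one_mul]
  · rw [h2, h4, h1, zero_add, h4, pow_zero, one_mul]
  · rw [h2, h4, h3, add_zero, h2, pow_zero, mul_one]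
  · have e : (1 : ZMod 2) + 1 = 0 := by decide
    rw [h2, h4, h1, h3, e, ZMod.val_zero]
    ring

theorem pow_add' (x : R) (hx : x ≠ 0) (u u' : ZMod 2) :
    ∃ t : R, t ≠ 0 ∧ x ^ u.val * x ^ u'.val = x ^ (u + u').val * t ^ 2 := by
  rcases z2v u with ⟨h1, h2⟩ | ⟨h1, h2⟩ <;> rcases z2v u' with ⟨h3, h4⟩ | ⟨h3, h4⟩
  · exact ⟨1, one_ne_zero, by rw [h2, h4, h1, h3, add_zero, ZMod.val_zero]; ring⟩
  · exact ⟨1, one_ne_zero, by rw [h2, h4, h1, zero_add, h4]; ring⟩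
  · exact ⟨1, one_ne_zero, by rw [h2, h4, h3, add_zero, h2]; ring⟩
  · have e : (1 : ZMod 2) + 1 = 0 := by decide
    exact ⟨x, hx, by rw [h2, h4, h1, h3, e, ZMod.val_zero]; ring⟩

theorem Bad.pb_add (h : Bad π) (e e' : A → ZMod 2) :
    ∃ t : R, t ≠ 0 ∧ pb π e * pb π e' = pb π (e + e') * t ^ 2 := by
  choose t ht0 ht using fun a => pow_add' (π a) (h.prime a).ne_zero (e a) (e' a)
  refine ⟨∏ a, t a, prod_ne_zero_iff.2 fun a _ => ht0 a, ?_⟩
  unfold pb
  rw [← prod_mul_distrib, ← prod_pow, ← prod_mul_distrib]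
  exact prod_congr rfl fun a _ => ht a

/-- The squarefree part of a product. -/
theorem Bad.mu_mul (h : Bad π) (i i' : ZMod 2 × (A → ZMod 2)) (S T : Finset (Pg R)) :
    ∃ t : R, t ≠ 0 ∧
      mu π i * DD S * (mu π i' * DD T) = mu π (i + i') * DD (symmDiff S T) * t ^ 2 := by
  obtain ⟨t, h1, h2⟩ := h.pb_add i.2 i'.2
  refine ⟨t * DD (S ∩ T), mul_ne_zero h1 (DD_ne_zero _), ?_⟩
  have h3 := neg_one_pow_add (R := R) i.1 i'.1
  have h4 := DD_mul S T
  unfold mu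
  calc (-1) ^ i.1.val * pb π i.2 * DD S * ((-1) ^ i'.1.val * pb π i'.2 * DD T)
      = ((-1) ^ i.1.val * (-1) ^ i'.1.val) * (pb π i.2 * pb π i'.2) * (DD S * DD T) := by ring
    _ = _ := by
      rw [h3, h2, h4, Prod.fst_add, Prod.snd_add]
      ring

theorem symm_union {B S B' T : Finset (Pg R)} (hT : T ⊆ B) (hB : B' ⊆ B) (hS : Disjoint S B) :
    symmDiff (B' ∪ S) T = S ∪ symmDiff B' T := by
  ext q
  simp only [mem_symmDiff, mem_union]
  have h1 : q ∈ S → q ∉ B := fun h => disjoint_left.1 hS h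
  have h2 : q ∈ T → q ∈ B := fun h => hT h
  have h3 : q ∈ B' → q ∈ B := fun h => hB h
  tauto

theorem symmDiff_cancel {S A B : Finset (Pg R)} (h : symmDiff S A = symmDiff S B) : A = B := by
  have h1 := congrArg (fun X => symmDiff S X) h
  simpa only [symmDiff_symmDiff_cancel_left] using h1

end

end Pool.Agent.Lib.MP_1a91b9_ntR
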