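import Pool.Agent.Lib.MP_1a91b9_ntR.TrB
import Pool.Agent.Lib.MP_1a91b9_ntR.SqfB

/-!
# MP_1a91b9_nt, generic part R: the density of the squarefree `d` for which all the twists `a d` are
good

`DSJR hQ Good c`: the joint density of the good sets of primes (part D). `Bad.den_all`: the
proportion of the squarefree `d` in a class for which `a d` is good for all `a` in a finite list `L`
of elements which are different modulo squares is at least `c ^ L.length - ε`.
-/

set_option autoImplicit false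
set_option linter.unusedSectionVars false

namespace Pool.Agent.Lib.MP_1a91b9_ntR

open Finset
open Pool.Agent.Lib.MP_1a91b9_ntH (PS nm pr mem_pr Sx mem_Sx nm_union one_le_nm)

noncomputable section

variable {R : Type} [CommRing R] [IsDomain R] [IsPrincipalIdealRing R] [Qi R] [Pri R] {Q : R}
  {A : Type} [Fintype A] [DecidableEq A] {π : A → R}

/-- The joint density of the good sets of primes (part D). -/
def DSJR (hQ : (sys R).Mod Q) (Good : ZMod 2 × (A → ZMod 2) → Finset (Pg R) → Prop) (c : ℝ) :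
    Prop := ∀ (N : ℕ), 0 < N → ∀ (i : Fin N → ZMod 2 × (A → ZMod 2)) (T : Fin N → Finset (Pg R))
  (B : Finset (Pg R)), (∀ n, T n ⊆ B) → Function.Injective (fun n => (i n, T n)) →
  ∀ (g : GRB hQ B) (κ₀ : ℝ), κ₀ < c ^ N → DSBR hQ B g κ₀ fun S => ∀ n, Good (i n) (S ∪ T n)

/-- The families of all the sets of primes. -/
theorem lowF_all (hQ : (sys R).Mod Q) (hQ0 : Q ≠ 0)
    {Good : ZMod 2 × (A → ZMod 2) → Finset (Pg R) → Prop} {c : ℝ} (hJ : DSJR hQ Good c) {N : ℕ}
    (hN : 0 < N) (i : Fin N → ZMod 2 × (A → ZMod 2)) (T : Fin N → Finset (Pg R))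
    (hinj : Function.Injective fun n => (i n, T n)) (Rc : R → Prop) {κ : ℝ} (hκ : κ < c ^ N) :
    LowF hQ π Rc κ fun e S => ∀ n, Good (e + i n) (symmDiff S (T n)) := by
  have := finite_GR hQ hQ0
  let _ : Fintype (GR hQ) := Fintype.ofFinite _
  obtain ⟨B, hB⟩ : ∃ B : Finset (Pg R), B = univ.biUnion T := ⟨_, rfl⟩
  have hTB : ∀ n, T n ⊆ B := fun n => by
    rw [hB]
    exact subset_biUnion_of_mem T (mem_univ n)
  intro e g _
  refine dsr_of hQ B g fun B' hB' g' => ?_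
  have h1 := hJ N hN (fun n => e + i n) (fun n => symmDiff B' (T n)) B
    (fun n => by
      intro q hq
      rw [mem_symmDiff] at hq
      rcases hq with hq | hq
      · exact hB' hq.1
      · exact hTB n hq.1)
    (fun n n' h => by
      simp only [Prod.mk.injEq] at h
      apply hinj
      show (i n, T n) = (i n', T n')
      rw [add_left_cancel h.1, symmDiff_cancel h.2]) g' κ hκ
  refine h1.mono fun S hS _ h2 n => ?_
  have e1 := symm_union (hTB n) hB' hS
  rw [e1]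
  exact h2 n

/-- **The density of the squarefree `d` for which all the twists by the elements of `L` are good.** -/
theorem Bad.den_all (hB : Bad π) (hQ : (sys R).Mod Q) (hQ0 : Q ≠ 0)
    {Good : ZMod 2 × (A → ZMod 2) → Finset (Pg R) → Prop} {c : ℝ} (hJ : DSJR hQ Good c)
    {L : List R} (hL : L ≠ []) (hne : ∀ a ∈ L, a ≠ 0)
    (hpw : L.Pairwise fun a b : R => ¬ ∃ y : R, y ^ 2 = a * b)
    {m u : R} (hm : m ∣ Q) (hu : ∀ a, ¬ (π a ^ 2 ∣ m ∧ π a ^ 2 ∣ u)) (P : R → Prop)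
    (hP : ∀ d : R, Squarefree d → (∀ a ∈ L, ∃ (i : ZMod 2 × (A → ZMod 2)) (S : Finset (Pg R))
      (t : R), t ≠ 0 ∧ a * d = mu π i * DD S * t ^ 2 ∧ Good i S) → P d)
    {κ' : ℝ} (hκ : κ' < c ^ L.length) :
    ∀ᶠ X : ℝ in Filter.atTop,
      κ' ≤ (Nat.card {x : R // Squarefree x ∧ m ∣ x - u ∧ |Algebra.norm ℤ x| ≤ X ∧ P x} : ℝ) /
        (Nat.card {x : R // Squarefree x ∧ m ∣ x - u ∧ |Algebra.norm ℤ x| ≤ X} : ℝ) := by
  obtain ⟨N, hN⟩ : ∃ N, N = L.length := ⟨_, rfl⟩
  have hN0 : 0 < N := by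
    rw [hN]
    exact List.length_pos_iff.2 hL
  obtain ⟨a, ha⟩ : ∃ a : Fin N → R, (∀ x, x ∈ L ↔ ∃ i, a i = x) ∧
      ∀ i i', i ≠ i' → ¬ ∃ y : R, y ^ 2 = a i * a i' := by
    subst hN
    refine ⟨L.get, fun x => ?_, fun i i' hii => ?_⟩
    · rw [List.mem_iff_get]
    · have h1 := List.pairwise_iff_get.1 hpw
      rcases lt_or_gt_of_ne hii with h2 | h2
      · exact h1 i i' h2
      · rintro ⟨y, hy⟩
        exact h1 i' i h2 ⟨y, by rw [hy, mul_comm]⟩
  obtain ⟨hmem, hdis⟩ := ha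
  have h1 : ∀ n, ∃ (i : ZMod 2 × (A → ZMod 2)) (T : Finset (Pg R)) (s : R), s ≠ 0 ∧
      a n = mu π i * DD T * s ^ 2 := fun n => hB.exists_sf (a n) (hne _ ((hmem _).2 ⟨n, rfl⟩))
  choose i T s hs hT using h1
  have hinj : Function.Injective fun n => (i n, T n) := by
    intro n n' h
    by_contra hnn
    apply hdis n n' hnn
    simp only [Prod.mk.injEq] at h
    refine ⟨mu π (i n) * DD (T n) * s n * s n', ?_⟩
    rw [hT n, hT n', ← h.1, ← h.2]
    ring
  rw [← hN] at hκ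
  obtain ⟨κ, h2, h3⟩ := exists_between hκ
  have hc : m ∣ Q := hm
  refine hB.low hQ hQ0 (Rc := fun x => m ∣ x - u) (cnd_cls hc) (hB.exists_cls hu) h2
    (lowF_all (π := π) hQ hQ0 hJ hN0 i T hinj (fun x => m ∣ x - u) h3) P ?_
  intro e S _ h4
  refine hP _ (hB.sqf e S) fun b hb => ?_
  obtain ⟨n, rfl⟩ := (hmem b).1 hb
  obtain ⟨t, h5, h6⟩ := hB.mu_mul e (i n) S (T n)
  refine ⟨e + i n, symmDiff S (T n), t * s n, mul_ne_zero h5 (hs n), ?_, h4 n⟩
  rw [hT n]
  linear_combination (s n) ^ 2 * h6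

end

end Pool.Agent.Lib.MP_1a91b9_ntR
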