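import Pool.Agent.Lib.MP_1a91b9_ntR.Lat
import Pool.Agent.Lib.MP_1a91b9_ntH.R.BHyp
import Pool.Agent.Lib.MP_1a91b9_ntQ.D.Defs

/-!
# MP_1a91b9_nt, generic part R: the bilinear bound for complex symbols, asymmetric form, with the
twisted reciprocity `e q p = (-1) ^ (al q al p) e p q`

The `n`-th moment is replaced by the fourth moment with phases: `‖S_T‖⁴ = θ_T S_T⁴`.
-/

set_option autoImplicit false
set_option linter.unusedSectionVars false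

namespace Pool.Agent.Lib.MP_1a91b9_ntR.B

open Finset
open Pool.Agent.Lib.MP_1a91b9_ntH (PS nm Sx mem_Sx one_le_nm sg sgD_add sgD_sum sgD_abs)
open Pool.Agent.Lib.MP_1a91b9_ntH.B (Fib gS g4 nm4 Q4 nm4_mem card_Q4_le sum_Q4_le card_Sx_le kbl)

/-- The symbols `e q p` come from generators `g q` and characters `ψ q` of a ring with
coordinates; reciprocity off the diagonal with the sign of `al`. -/
structure SyG {ι : Type} [PS ι] (e : ι → ι → ℂ) {R : Type} [CommRing R] [Qi R] (g : ι → R)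
    (ψ : ι → R → ℂ) (al : ι → ZMod 2) : Prop where
  comm : ∀ q p, q ≠ p → e q p = ((sg (al q * al p) : ℝ) : ℂ) * e p q
  fib : Fib ι
  nG_g : ∀ q, nG (g q) = PS.N q
  mul : ∀ q x y, ψ q (x * y) = ψ q x * ψ q y
  one : ∀ q, ψ q 1 = 1
  le : ∀ q x, ‖ψ q x‖ ≤ 1
  per : ∀ q x y, ψ q (x + g q * y) = ψ q x
  self : ∀ q, ψ q (g q) = 0
  sym : ∀ q p, q ≠ p → ψ p (g q) = e q p
  non : ∀ q, ∃ u, ψ q u ≠ 1 ∧ IsCoprime u (g q)
  cop : ∀ q p, q ≠ p → IsCoprime (g q) (g p)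

section

variable {ι : Type} [DecidableEq ι] [PS ι] {e : ι → ι → ℂ} {R : Type} [CommRing R] [Qi R]
  {g : ι → R} {ψ : ι → R → ℂ} {al : ι → ZMod 2}

/-- the symbol modulo a squarefree integer -/
noncomputable def JG (ψ : ι → R → ℂ) (T : Finset ι) (x : R) : ℂ := ∏ q ∈ T, ψ q x

theorem nG_gS (h : SyG e g ψ al) (S : Finset ι) : nG (gS g S) = nm S := by
  unfold gS nm
  induction S using Finset.induction_on with
  | empty =>
    have h1 : nG (1 : R) * nG (1 : R) = nG (1 : R) := by rw [← nG_mul, mul_one]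
    rw [prod_empty, prod_empty]
    rcases Nat.eq_zero_or_pos (nG (1 : R)) with h2 | h2
    · exfalso
      have h3 : (1 : R) = 0 := nG_eq_zero.1 h2
      have h4 : Qi.co (R := R).symm (1, 0) = 0 := by
        rw [← mul_one (Qi.co (R := R).symm (1, 0)), h3, mul_zero]
      have h5 : ((1, 0) : ℤ × ℤ) = 0 := by
        rw [← (Qi.co (R := R)).apply_symm_apply (1, 0), h4, map_zero]
      simp at h5
    · exact Nat.eq_of_mul_eq_mul_left h2 (by rw [h1, mul_one])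
  | insert a S ha ih => rw [prod_insert ha, prod_insert ha, nG_mul, ih, h.nG_g]

theorem J_mul (h : SyG e g ψ al) (T : Finset ι) (x y : R) : JG ψ T (x * y) = JG ψ T x * JG ψ T y := by
  unfold JG
  rw [← prod_mul_distrib]
  exact prod_congr rfl fun q _ => h.mul q x y

theorem J_one (h : SyG e g ψ al) (T : Finset ι) : JG ψ T 1 = 1 := prod_eq_one fun q _ => h.one q

theorem J_norm (h : SyG e g ψ al) (T : Finset ι) (x : R) : ‖JG ψ T x‖ ≤ 1 := by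
  unfold JG
  rw [norm_prod]
  exact prod_le_one (fun _ _ => norm_nonneg _) fun q _ => h.le q x

theorem J_prod (h : SyG e g ψ al) (T S : Finset ι) : JG ψ T (gS g S) = ∏ q ∈ S, JG ψ T (g q) := by
  unfold gS
  induction S using Finset.induction_on with
  | empty => rw [prod_empty, prod_empty, J_one h]
  | insert a S ha ih => rw [prod_insert ha, prod_insert ha, J_mul h, ih]

theorem J_disj (h : SyG e g ψ al) {S T : Finset ι} (hd : Disjoint S T) :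
    JG ψ T (gS g S) = ∏ q ∈ S, ∏ p ∈ T, e q p := by
  rw [J_prod h]
  refine prod_congr rfl fun q hq => ?_
  rw [JG]
  exact prod_congr rfl fun p hp => h.sym q p fun e => disjoint_left.1 hd hq (e ▸ hp)

theorem J_not_disj (h : SyG e g ψ al) {S T : Finset ι} (hd : ¬ Disjoint S T) :
    JG ψ T (gS g S) = 0 := by
  rw [not_disjoint_iff] at hd
  obtain ⟨q, hq, hq'⟩ := hd
  rw [J_prod h]
  refine prod_eq_zero hq (prod_eq_zero hq' (h.self q))

theorem J_gS (h : SyG e g ψ al) (S T : Finset ι) :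
    JG ψ T (gS g S) = if Disjoint S T then ∏ q ∈ S, ∏ p ∈ T, e q p else 0 := by
  split_ifs with hd
  · exact J_disj h hd
  · exact J_not_disj h hd

theorem ψ_per' (h : SyG e g ψ al) (q : ι) (x y m : R) (hm : g q ∣ m) : ψ q (x + m * y) = ψ q x := by
  obtain ⟨t, rfl⟩ := hm
  rw [mul_assoc, h.per]

/-- Chinese remainders: an element with prescribed symbols. -/
theorem exists_unit (h : SyG e g ψ al) (W : Finset ι) (q : ι) (hq : q ∉ W) :
    ∃ u : R, ψ q u ≠ 1 ∧ (∀ p ∈ W, ψ p u = 1) ∧ IsCoprime u (gS g (insert q W)) := by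
  obtain ⟨u0, hu0, hc0⟩ := h.non q
  have hc : IsCoprime (g q) (gS g W) := by
    unfold gS
    exact IsCoprime.prod_right fun p hp => h.cop q p fun e => hq (e ▸ hp)
  obtain ⟨a, b, hab⟩ := hc
  -- `u = u0 * (b * G) + a * g q`, with `a * g q + b * G = 1`
  refine ⟨u0 * (b * gS g W) + a * g q, ?_, ?_, ?_⟩
  · have e : u0 * (b * gS g W) + a * g q = u0 + g q * (a - u0 * a) := by
      linear_combination u0 * hab
    rw [e, h.per]
    exact hu0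
  · intro p hp
    have e : u0 * (b * gS g W) + a * g q = 1 + gS g W * (u0 * b - b) := by
      linear_combination hab
    rw [e, ψ_per' h p _ _ (gS g W) (dvd_prod_of_mem g hp), h.one]
  · unfold gS
    rw [prod_insert hq]
    refine IsCoprime.mul_right ?_ ?_
    · have e : u0 * (b * gS g W) + a * g q = u0 + g q * (a - u0 * a) := by
        linear_combination u0 * hab
      change IsCoprime (u0 * (b * gS g W) + a * g q) (g q)
      rw [e]
      exact IsCoprime.add_mul_left_left hc0 _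
    · have e : u0 * (b * gS g W) + a * g q = 1 + gS g W * (u0 * b - b) := by
        linear_combination hab
      change IsCoprime (u0 * (b * gS g W) + a * g q) (gS g W)
      rw [e]
      exact IsCoprime.add_mul_left_left isCoprime_one_left _

theorem gS_ne_zero (h : SyG e g ψ al) (S : Finset ι) : gS g S ≠ 0 := by
  intro h0
  have h1 := nG_gS h S
  rw [h0, nG_eq_zero.2 rfl] at h1
  have := one_le_nm S
  omega

/-- Off-diagonal cancellation. -/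
theorem offdiag_aux (h : SyG e g ψ al) (S T : Finset ι) (q : ι) (hqS : q ∈ S) (hqT : q ∉ T) (x y : ℤ)
    (L : ℕ) : ‖∑ z ∈ boxG R x y L, JG ψ S z * (starRingEnd ℂ) (JG ψ T z)‖ ≤
      4 * Nat.sqrt (nm S * nm T) * L := by
  have hqW : q ∉ (S ∪ T).erase q := notMem_erase q _
  have hins : insert q ((S ∪ T).erase q) = S ∪ T :=
    insert_erase (mem_union_left _ hqS)
  obtain ⟨u, hu1, hu2, hu3⟩ := exists_unit h ((S ∪ T).erase q) q hqW
  rw [hins] at hu3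
  have hun : IsCoprime u (gS g S * gS g T) := by
    refine IsCoprime.mul_right ?_ ?_
    · exact hu3.of_isCoprime_of_dvd_right (prod_dvd_prod_of_subset _ _ _ subset_union_left)
    · exact hu3.of_isCoprime_of_dvd_right (prod_dvd_prod_of_subset _ _ _ subset_union_right)
  obtain ⟨v, w, hvw⟩ := hun
  have hJS : JG ψ S u = ψ q u := by
    unfold JG
    rw [← mul_prod_erase _ _ hqS, prod_eq_one, mul_one]
    intro p hp
    exact hu2 p (mem_erase.2 ⟨(mem_erase.1 hp).1, mem_union_left _ (mem_erase.1 hp).2⟩)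
  have hJT : JG ψ T u = 1 := by
    unfold JG
    refine prod_eq_one fun p hp => hu2 p (mem_erase.2 ⟨fun e => hqT (e ▸ hp), mem_union_right _ hp⟩)
  have hm : gS g S * gS g T ≠ 0 := by
    intro h0
    have h1 : nG (gS g S * gS g T) = nm S * nm T := by rw [nG_mul, nG_gS h, nG_gS h]
    rw [h0, nG_eq_zero.2 rfl] at h1
    have h2 := one_le_nm S
    have h3 := one_le_nm T
    have h4 : 0 < nm S * nm T := by positivity
    omega
  have hb := sum_boxGC (gS g S * gS g T) hm (fun z => JG ψ S z * (starRingEnd ℂ) (JG ψ T z))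
    (fun z => by
      rw [norm_mul, RCLike.norm_conj]
      exact mul_le_one₀ (J_norm h S z) (norm_nonneg _) (J_norm h T z))
    (fun z w' => by
      have e1 : JG ψ S (z + gS g S * gS g T * w') = JG ψ S z := by
        unfold JG
        exact prod_congr rfl fun p hp => ψ_per' h p _ _ _ (Dvd.dvd.mul_right (dvd_prod_of_mem g hp) _)
      have e2 : JG ψ T (z + gS g S * gS g T * w') = JG ψ T z := by
        unfold JG
        exact prod_congr rfl fun p hp => ψ_per' h p _ _ _ (Dvd.dvd.mul_left (dvd_prod_of_mem g hp) _)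
      rw [e1, e2])
    u v (-w) (by linear_combination hvw) (ψ q u) hu1
    (fun z => by
      rw [J_mul h, J_mul h, hJS, hJT, one_mul]
      ring) x y L
  rw [nG_mul, nG_gS h, nG_gS h] at hb
  exact hb

theorem offdiag (h : SyG e g ψ al) (S T : Finset ι) (hST : S ≠ T) (x y : ℤ)
    (L : ℕ) : ‖∑ z ∈ boxG R x y L, JG ψ S z * (starRingEnd ℂ) (JG ψ T z)‖ ≤
      4 * Nat.sqrt (nm S * nm T) * L := by
  have : (∃ q, q ∈ S ∧ q ∉ T) ∨ (∃ q, q ∈ T ∧ q ∉ S) := by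
    by_contra hcon
    push Not at hcon
    exact hST (Subset.antisymm (fun q hq => hcon.1 q hq) fun q hq => hcon.2 q hq)
  rcases this with ⟨q, h1, h2⟩ | ⟨q, h1, h2⟩
  · exact offdiag_aux h S T q h1 h2 x y L
  · have e := offdiag_aux h T S q h1 h2 x y L
    rw [mul_comm (nm T)] at e
    refine le_trans (le_of_eq ?_) e
    rw [← RCLike.norm_conj, map_sum]
    congr 1
    refine sum_congr rfl fun z _ => ?_
    rw [map_mul, Complex.conj_conj, mul_comm]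

/-! ### The fourth moment -/

theorem nG_g4 (h : SyG e g ψ al) (q : (Finset ι × Finset ι) × (Finset ι × Finset ι)) :
    nG (g4 g q) = nm4 q := by
  unfold g4 nm4
  simp only [nG_mul, nG_gS h]

/-- a box containing the elements of norm at most `M ^ 4` -/
noncomputable def bxG (R : Type) [CommRing R] [Qi R] (M : ℕ) : Finset R :=
  boxG R (-(2 * (M : ℤ) ^ 2)) (-(2 * (M : ℤ) ^ 2)) (4 * M ^ 2 + 1)

theorem mem_bxG {M : ℕ} {z : R} (hz : nG z ≤ M ^ 4) : z ∈ bxG R M := by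
  have key : ∀ a : ℤ, 3 * a ^ 2 ≤ 4 * nfG (Qi.F R) (Qi.co z) → -(2 * (M : ℤ) ^ 2) ≤ a ∧ a ≤ 2 * (M : ℤ) ^ 2 := by
    intro a ha
    have h1 : nfG (Qi.F R) (Qi.co z) ≤ (M : ℤ) ^ 4 := by
      rw [← nG_cast]
      exact_mod_cast hz
    have h2 : a ^ 2 ≤ (2 * (M : ℤ) ^ 2) ^ 2 := by nlinarith [sq_nonneg a]
    exact abs_le.1 (abs_le_of_sq_le_sq h2 (by positivity))
  have k1 := key _ (nfG_fst (Qi.co z))
  have k2 := key _ (nfG_snd (Qi.co z))
  rw [bxG, mem_boxG]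
  push_cast
  omega

/-- the coefficients -/
noncomputable def cQG (g : ι → R) (A : Finset ι → ℂ) (M : ℕ) [DecidableEq R] (k : R) : ℂ :=
  ∑ q ∈ Q4 ι M with g4 g q = k, A q.1.1 * A q.1.2 * (A q.2.1 * A q.2.2)

theorem S4_eq (h : SyG e g ψ al) [DecidableEq R] (A : Finset ι → ℂ) (M : ℕ) (T : Finset ι) :
    (∑ S ∈ Sx ι M, A S * JG ψ T (gS g S)) ^ 4 = ∑ k ∈ bxG R M, cQG g A M k * JG ψ T k := by
  have e1 : (∑ S ∈ Sx ι M, A S * JG ψ T (gS g S)) ^ 4 =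
      ∑ q ∈ Q4 ι M, A q.1.1 * A q.1.2 * (A q.2.1 * A q.2.2) * JG ψ T (g4 g q) := by
    have h2 : (∑ S ∈ Sx ι M, A S * JG ψ T (gS g S)) ^ 2 =
        ∑ q ∈ Sx ι M ×ˢ Sx ι M, (A q.1 * A q.2) * (JG ψ T (gS g q.1) * JG ψ T (gS g q.2)) := by
      rw [sq, sum_mul_sum, sum_product]
      refine sum_congr rfl fun a _ => sum_congr rfl fun b _ => ?_
      ring
    have h4 : (∑ S ∈ Sx ι M, A S * JG ψ T (gS g S)) ^ 4 =
        ((∑ S ∈ Sx ι M, A S * JG ψ T (gS g S)) ^ 2) * ((∑ S ∈ Sx ι M, A S * JG ψ T (gS g S)) ^ 2) := by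
      ring
    rw [h4, h2, sum_mul_sum, Q4, sum_product (s := Sx ι M ×ˢ Sx ι M) (t := Sx ι M ×ˢ Sx ι M)]
    refine sum_congr rfl fun a _ => sum_congr rfl fun b _ => ?_
    unfold g4
    rw [J_mul h, J_mul h, J_mul h]
    ring
  rw [e1, ← sum_fiberwise_of_maps_to (s := Q4 ι M) (t := bxG R M) (g := g4 g)
    (fun q hq => mem_bxG (by rw [nG_g4 h]; exact (mem_Icc.1 (nm4_mem hq)).2))]
  refine sum_congr rfl fun k _ => ?_
  unfold cQG
  rw [sum_mul]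
  refine sum_congr rfl fun q hq => ?_
  rw [(mem_filter.1 hq).2]

theorem sum_cQ_le (h : SyG e g ψ al) [DecidableEq R] (A : Finset ι → ℂ) (hA : ∀ S, ‖A S‖ ≤ 1) (M : ℕ)
    (hM : 1 ≤ M) :
    ∑ k ∈ bxG R M, ‖cQG g A M k‖ ^ 2 ≤ (M : ℝ) ^ 4 * (1 + 4 * Real.log M) ^ (2 ^ 14 - 1) := by
  refine le_trans ?_ (sum_Q4_le h.fib M hM)
  rw [← sum_fiberwise_of_maps_to (s := Q4 ι M) (t := bxG R M) (g := g4 g)
    (fun q hq => mem_bxG (by rw [nG_g4 h]; exact (mem_Icc.1 (nm4_mem hq)).2))]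
  refine sum_le_sum fun k _ => ?_
  set r : ℝ := (((Q4 ι M).filter fun q => g4 g q = k).card : ℝ) with hr
  have h1 : ‖cQG g A M k‖ ≤ r := by
    unfold cQG
    refine (norm_sum_le _ _).trans ?_
    refine (sum_le_card_nsmul _ _ 1 ?_).trans ?_
    · intro q _
      rw [norm_mul, norm_mul, norm_mul]
      have h12 : ‖A q.1.1‖ * ‖A q.1.2‖ ≤ 1 := mul_le_one₀ (hA _) (norm_nonneg _) (hA _)
      have h34 : ‖A q.2.1‖ * ‖A q.2.2‖ ≤ 1 := mul_le_one₀ (hA _) (norm_nonneg _) (hA _)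
      exact mul_le_one₀ h12 (by positivity) h34
    · rw [nsmul_eq_mul, mul_one]
  have hr0 : 0 ≤ r := Nat.cast_nonneg _
  have h2 : ‖cQG g A M k‖ ^ 2 ≤ r * r := by
    rw [← sq]
    exact pow_le_pow_left₀ (norm_nonneg _) h1 2
  refine h2.trans ?_
  have e : ∑ q ∈ Q4 ι M with g4 g q = k, ((nm4 q).divisors.card : ℝ) ^ 7 =
      r * ((nG k).divisors.card : ℝ) ^ 7 := by
    rw [hr, ← nsmul_eq_mul, ← sum_const]
    refine sum_congr rfl fun q hq => ?_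
    rw [← nG_g4 h, (mem_filter.1 hq).2]
  rw [e]
  rcases ((Q4 ι M).filter fun q => g4 g q = k).eq_empty_or_nonempty with h3 | ⟨q0, hq0⟩
  · have : r = 0 := by rw [hr, h3]; simp
    rw [this, zero_mul, zero_mul]
  · have hk0 : nG k ≠ 0 := by
      rw [mem_filter] at hq0
      rw [← hq0.2, nG_g4 h]
      have := (mem_Icc.1 (nm4_mem hq0.1)).1
      omega
    have h4 : r ≤ ((nG k).divisors.card : ℝ) ^ 7 := by
      have h5 := card_Q4_le h.fib M (nG k) hk0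
      have h6 : ((Q4 ι M).filter fun q => g4 g q = k).card ≤
          ((Q4 ι M).filter fun q => nm4 q = nG k).card := by
        refine card_le_card fun q hq => ?_
        rw [mem_filter] at hq ⊢
        exact ⟨hq.1, by rw [← nG_g4 h, hq.2]⟩
      rw [hr]
      exact_mod_cast h6.trans h5
    exact mul_le_mul_of_nonneg_left h4 hr0

theorem sum_T_le (h : SyG e g ψ al) (th : Finset ι → ℂ) (hth : ∀ T, ‖th T‖ ≤ 1) (M N : ℕ)
    (hN : 1 ≤ N) (hNM : N ≤ M) :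
    ∑ k ∈ bxG R M, ‖∑ T ∈ Sx ι N, th T * JG ψ T k‖ ^ 2 ≤
      45 * (1 + Real.log N) ^ 2 * N * (M : ℝ) ^ 4 := by
  classical
  have hNr : (1 : ℝ) ≤ N := by exact_mod_cast hN
  have hNMr : (N : ℝ) ≤ M := by exact_mod_cast hNM
  have hMr : (1 : ℝ) ≤ M := hNr.trans hNMr
  have hlog : 0 ≤ Real.log N := Real.log_nonneg hNr
  obtain ⟨l, hl⟩ : ∃ l : ℝ, l = 1 + Real.log N := ⟨_, rfl⟩
  have hl1 : 1 ≤ l := by rw [hl]; linarith
  have hcard : ((Sx ι N).card : ℝ) ≤ N * l := by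
    rw [hl]
    exact card_Sx_le h.fib N hN
  rw [← hl]
  have h1 : ∑ k ∈ bxG R M, ‖∑ T ∈ Sx ι N, th T * JG ψ T k‖ ^ 2 ≤
      ∑ S ∈ Sx ι N, ∑ T ∈ Sx ι N, ‖∑ k ∈ bxG R M, JG ψ S k * (starRingEnd ℂ) (JG ψ T k)‖ := by
    have e0 : ((∑ k ∈ bxG R M, ‖∑ T ∈ Sx ι N, th T * JG ψ T k‖ ^ 2 : ℝ) : ℂ) =
        ∑ S ∈ Sx ι N, ∑ T ∈ Sx ι N, (th S * (starRingEnd ℂ) (th T)) *
          ∑ k ∈ bxG R M, JG ψ S k * (starRingEnd ℂ) (JG ψ T k) := by
      push_cast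
      have : ∀ k ∈ bxG R M, ((‖∑ T ∈ Sx ι N, th T * JG ψ T k‖ : ℝ) : ℂ) ^ 2 =
          ∑ S ∈ Sx ι N, ∑ T ∈ Sx ι N, (th S * (starRingEnd ℂ) (th T)) *
            (JG ψ S k * (starRingEnd ℂ) (JG ψ T k)) := by
        intro k _
        rw [← Complex.mul_conj', map_sum, sum_mul_sum]
        refine sum_congr rfl fun S _ => sum_congr rfl fun T _ => ?_
        rw [map_mul]
        ring
      rw [sum_congr rfl this, sum_comm]
      refine sum_congr rfl fun a _ => ?_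
      rw [sum_comm]
      refine sum_congr rfl fun b _ => ?_
      rw [mul_sum]
    have e1 : ∑ k ∈ bxG R M, ‖∑ T ∈ Sx ι N, th T * JG ψ T k‖ ^ 2 =
        ‖((∑ k ∈ bxG R M, ‖∑ T ∈ Sx ι N, th T * JG ψ T k‖ ^ 2 : ℝ) : ℂ)‖ := by
      rw [Complex.norm_real, Real.norm_of_nonneg (sum_nonneg fun _ _ => sq_nonneg _)]
    rw [e1, e0]
    refine (norm_sum_le _ _).trans (sum_le_sum fun S _ => ?_)
    refine (norm_sum_le _ _).trans (sum_le_sum fun T _ => ?_)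
    rw [norm_mul, norm_mul, RCLike.norm_conj]
    exact mul_le_of_le_one_left (norm_nonneg _) (mul_le_one₀ (hth S) (norm_nonneg _) (hth T))
  refine h1.trans ?_
  have hL : ((4 * M ^ 2 + 1 : ℕ) : ℝ) ≤ 5 * (M : ℝ) ^ 2 := by
    push_cast
    nlinarith
  have h2 : ∀ S ∈ Sx ι N, ∀ T ∈ Sx ι N,
      ‖∑ k ∈ bxG R M, JG ψ S k * (starRingEnd ℂ) (JG ψ T k)‖ ≤
      (if S = T then 25 * (M : ℝ) ^ 4 else 0) + 20 * N * (M : ℝ) ^ 2 := by
    intro S hS T hT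
    rw [mem_Sx] at hS hT
    by_cases hST : S = T
    · rw [if_pos hST]
      have e1 : ‖∑ k ∈ bxG R M, JG ψ S k * (starRingEnd ℂ) (JG ψ T k)‖ ≤ ∑ k ∈ bxG R M, (1 : ℝ) := by
        refine (norm_sum_le _ _).trans (sum_le_sum fun k _ => ?_)
        rw [norm_mul, RCLike.norm_conj]
        exact mul_le_one₀ (J_norm h _ _) (norm_nonneg _) (J_norm h _ _)
      refine e1.trans ?_
      rw [sum_const, nsmul_eq_mul, mul_one, bxG, card_boxG, Nat.cast_mul]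
      have h3 : ((4 * M ^ 2 + 1 : ℕ) : ℝ) * ((4 * M ^ 2 + 1 : ℕ) : ℝ) ≤
          (5 * (M : ℝ) ^ 2) * (5 * (M : ℝ) ^ 2) := mul_le_mul hL hL (Nat.cast_nonneg _) (by positivity)
      have h4 : 0 ≤ 20 * (N : ℝ) * (M : ℝ) ^ 2 := by positivity
      nlinarith
    · rw [if_neg hST, zero_add]
      refine (offdiag h S T hST _ _ _).trans ?_
      have h3 : Nat.sqrt (nm S * nm T) ≤ N := by
        calc Nat.sqrt (nm S * nm T) ≤ Nat.sqrt (N * N) := Nat.sqrt_le_sqrt (Nat.mul_le_mul hS hT)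
          _ = N := Nat.sqrt_eq N
      have h4 : ((Nat.sqrt (nm S * nm T) : ℕ) : ℝ) ≤ N := by exact_mod_cast h3
      calc (4 : ℝ) * (Nat.sqrt (nm S * nm T) : ℕ) * ((4 * M ^ 2 + 1 : ℕ) : ℝ)
          ≤ 4 * N * (5 * (M : ℝ) ^ 2) := by gcongr
        _ = 20 * N * (M : ℝ) ^ 2 := by ring
  refine (sum_le_sum fun S hS => sum_le_sum fun T hT => h2 S hS T hT).trans ?_
  have h3 : ∀ S ∈ Sx ι N, ∑ T ∈ Sx ι N, ((if S = T then 25 * (M : ℝ) ^ 4 else 0) +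
      20 * N * (M : ℝ) ^ 2) ≤ 45 * (M : ℝ) ^ 4 * l := by
    intro S hS
    rw [sum_add_distrib, sum_ite_eq, if_pos hS, sum_const, nsmul_eq_mul]
    have h4 : ((Sx ι N).card : ℝ) * (20 * N * (M : ℝ) ^ 2) ≤ N * l * (20 * N * (M : ℝ) ^ 2) :=
      mul_le_mul_of_nonneg_right hcard (by positivity)
    have h5 : (N : ℝ) * N ≤ (M : ℝ) ^ 2 := by nlinarith
    have h6 : N * l * (20 * N * (M : ℝ) ^ 2) ≤ 20 * l * (M : ℝ) ^ 4 := by
      calc N * l * (20 * N * (M : ℝ) ^ 2) = 20 * l * (M : ℝ) ^ 2 * (N * N) := by ring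
        _ ≤ 20 * l * (M : ℝ) ^ 2 * (M : ℝ) ^ 2 := mul_le_mul_of_nonneg_left h5 (by positivity)
        _ = 20 * l * (M : ℝ) ^ 4 := by ring
    have h7 : 25 * (M : ℝ) ^ 4 ≤ 25 * (M : ℝ) ^ 4 * l := le_mul_of_one_le_right (by positivity) hl1
    linarith
  refine (sum_le_sum h3).trans ?_
  rw [sum_const, nsmul_eq_mul]
  calc ((Sx ι N).card : ℝ) * (45 * (M : ℝ) ^ 4 * l) ≤ (N * l) * (45 * (M : ℝ) ^ 4 * l) :=
        mul_le_mul_of_nonneg_right hcard (by positivity)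
    _ = 45 * l ^ 2 * N * (M : ℝ) ^ 4 := by ring

theorem exists_phase (z : ℂ) : ∃ th : ℂ, ‖th‖ ≤ 1 ∧ ((‖z‖ : ℝ) : ℂ) = th * z := by
  rcases eq_or_ne z 0 with rfl | hz
  · exact ⟨0, by simp, by simp⟩
  · have h1 : ((‖z‖ : ℝ) : ℂ) ≠ 0 := by
      simpa using hz
    refine ⟨(starRingEnd ℂ) z / (‖z‖ : ℝ), ?_, ?_⟩
    · rw [norm_div, RCLike.norm_conj, Complex.norm_real, norm_norm]
      exact div_self_le_one _
    · rw [div_mul_eq_mul_div, eq_div_iff h1, Complex.conj_mul', sq]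

theorem bl_core0 (h : SyG e g ψ al) (A B : Finset ι → ℂ) (M N : ℕ) (hA : ∀ S, ‖A S‖ ≤ 1)
    (hB : ∀ T, ‖B T‖ ≤ 1) (hN : 1 ≤ N) (hNM : N ≤ M) :
    ‖∑ S ∈ Sx ι M, ∑ T ∈ Sx ι N, A S * B T * JG ψ T (gS g S)‖ ≤
      2 * M * (N : ℝ) ^ (7 / 8 : ℝ) * (1 + 4 * Real.log M) ^ (2 ^ 11 + 1) := by
  classical
  have hNr : (1 : ℝ) ≤ N := by exact_mod_cast hN
  have hNMr : (N : ℝ) ≤ M := by exact_mod_cast hNM
  have hM1 : (1 : ℝ) ≤ M := hNr.trans hNMr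
  have hlog : 0 ≤ Real.log M := Real.log_nonneg hM1
  have hlogN : 0 ≤ Real.log N := Real.log_nonneg hNr
  have hlogNM : Real.log N ≤ Real.log M := Real.log_le_log (by linarith) hNMr
  obtain ⟨L, hLd⟩ : ∃ L : ℝ, L = 1 + 4 * Real.log M := ⟨_, rfl⟩
  have hL0 : 1 ≤ L := by rw [hLd]; linarith
  have hlL : 1 + Real.log N ≤ L := by rw [hLd]; linarith
  set S4 : Finset ι → ℂ := fun T => ∑ S ∈ Sx ι M, A S * JG ψ T (gS g S) with hS4
  have h1 : ∑ S ∈ Sx ι M, ∑ T ∈ Sx ι N, A S * B T * JG ψ T (gS g S) =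
      ∑ T ∈ Sx ι N, B T * S4 T := by
    rw [sum_comm]
    refine sum_congr rfl fun n _ => ?_
    rw [hS4, mul_sum]
    refine sum_congr rfl fun m _ => ?_
    ring
  have h2 : ‖∑ S ∈ Sx ι M, ∑ T ∈ Sx ι N, A S * B T * JG ψ T (gS g S)‖ ≤
      ∑ T ∈ Sx ι N, ‖S4 T‖ := by
    rw [h1]
    refine (norm_sum_le _ _).trans (sum_le_sum fun T _ => ?_)
    rw [norm_mul]
    exact mul_le_of_le_one_left (norm_nonneg _) (hB T)
  set W : ℝ := ∑ T ∈ Sx ι N, ‖S4 T‖ with hW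
  have hW0 : 0 ≤ W := sum_nonneg fun _ _ => norm_nonneg _
  have hcard : ((Sx ι N).card : ℝ) ≤ N * L :=
    (card_Sx_le h.fib N hN).trans (mul_le_mul_of_nonneg_left hlL (by positivity))
  set Q : ℝ := ∑ T ∈ Sx ι N, ‖S4 T‖ ^ 4 with hQ
  have hQ0 : 0 ≤ Q := sum_nonneg fun n _ => by positivity
  have hfour : Q ^ 2 ≤ ((M : ℝ) ^ 4 * L ^ (2 ^ 14 - 1)) * (45 * L ^ 2 * N * (M : ℝ) ^ 4) := by
    choose th hth1 hth2 using fun T : Finset ι => exists_phase ((S4 T) ^ 4)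
    have e1 : (Q : ℂ) = ∑ k ∈ bxG R M, cQG g A M k * ∑ T ∈ Sx ι N, th T * JG ψ T k := by
      have e0 : ∀ T ∈ Sx ι N, ((‖S4 T‖ ^ 4 : ℝ) : ℂ) = ∑ k ∈ bxG R M, th T * (cQG g A M k * JG ψ T k) := by
        intro T _
        rw [← norm_pow, hth2 T, ← mul_sum, ← S4_eq h A M T]
      rw [hQ]
      push_cast at e0 ⊢
      rw [sum_congr rfl e0, sum_comm]
      refine sum_congr rfl fun k _ => ?_
      rw [mul_sum]
      refine sum_congr rfl fun T _ => ?_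
      ring
    have e1' : Q ≤ ∑ k ∈ bxG R M, ‖cQG g A M k‖ * ‖∑ T ∈ Sx ι N, th T * JG ψ T k‖ := by
      have e3 : Q = ‖(Q : ℂ)‖ := by rw [Complex.norm_real, Real.norm_of_nonneg hQ0]
      rw [e3, e1]
      refine (norm_sum_le _ _).trans (sum_le_sum fun k _ => ?_)
      rw [norm_mul]
    refine (pow_le_pow_left₀ hQ0 e1' 2).trans ?_
    refine (sum_mul_sq_le_sq_mul_sq _ _ _).trans ?_
    have e2 := sum_cQ_le h A hA M (by omega)
    have e3 := sum_T_le h th hth1 M N hN hNM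
    rw [← hLd] at e2
    have e4 : 45 * (1 + Real.log N) ^ 2 * N * (M : ℝ) ^ 4 ≤ 45 * L ^ 2 * N * (M : ℝ) ^ 4 := by
      gcongr
    exact mul_le_mul e2 (e3.trans e4) (sum_nonneg fun _ _ => sq_nonneg _) (by positivity)
  have h3 : W ^ 4 ≤ (N * L) ^ 3 * Q := by
    have e1 : W ^ 2 ≤ (N * L) * ∑ n ∈ Sx ι N, ‖S4 n‖ ^ 2 :=
      (sq_sum_le_card_mul_sum_sq).trans
        (mul_le_mul_of_nonneg_right hcard (sum_nonneg fun _ _ => sq_nonneg _))
    have e2 : (∑ n ∈ Sx ι N, ‖S4 n‖ ^ 2) ^ 2 ≤ (N * L) * Q := by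
      refine (sq_sum_le_card_mul_sum_sq).trans ?_
      have e3 : ∑ n ∈ Sx ι N, (‖S4 n‖ ^ 2) ^ 2 = Q := by
        refine sum_congr rfl fun n _ => ?_
        ring
      rw [e3]
      exact mul_le_mul_of_nonneg_right hcard hQ0
    calc W ^ 4 = (W ^ 2) ^ 2 := by ring
      _ ≤ ((N * L) * ∑ n ∈ Sx ι N, ‖S4 n‖ ^ 2) ^ 2 := pow_le_pow_left₀ (sq_nonneg _) e1 2
      _ = (N * L) ^ 2 * (∑ n ∈ Sx ι N, ‖S4 n‖ ^ 2) ^ 2 := by ring
      _ ≤ (N * L) ^ 2 * ((N * L) * Q) := mul_le_mul_of_nonneg_left e2 (by positivity)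
      _ = (N * L) ^ 3 * Q := by ring
  have h4 : W ^ 8 ≤ 45 * (N : ℝ) ^ 7 * (M : ℝ) ^ 8 * (L ^ (2 ^ 14 - 1) * L ^ 8) := by
    calc W ^ 8 = (W ^ 4) ^ 2 := by ring
      _ ≤ ((N * L) ^ 3 * Q) ^ 2 := pow_le_pow_left₀ (by positivity) h3 2
      _ = (N * L) ^ 6 * Q ^ 2 := by ring
      _ ≤ (N * L) ^ 6 * (((M : ℝ) ^ 4 * L ^ (2 ^ 14 - 1)) * (45 * L ^ 2 * N * (M : ℝ) ^ 4)) :=
          mul_le_mul_of_nonneg_left hfour (by positivity)
      _ = _ := by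
          generalize L ^ (2 ^ 14 - 1) = Y
          ring
  have h5 : (2 * M * (N : ℝ) ^ (7 / 8 : ℝ) * L ^ (2 ^ 11 + 1)) ^ 8 =
      256 * (N : ℝ) ^ 7 * (M : ℝ) ^ 8 * (L ^ (2 ^ 11 + 1)) ^ 8 := by
    have e : ((N : ℝ) ^ (7 / 8 : ℝ)) ^ 8 = (N : ℝ) ^ 7 := by
      rw [← Real.rpow_natCast, ← Real.rpow_mul (by positivity)]
      norm_num
    generalize L ^ (2 ^ 11 + 1) = Y
    rw [mul_pow, mul_pow, mul_pow, e]
    ring
  have h6 : W ≤ 2 * M * (N : ℝ) ^ (7 / 8 : ℝ) * L ^ (2 ^ 11 + 1) := by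
    refine le_of_pow_le_pow_left₀ (n := 8) (by norm_num) (by positivity) ?_
    rw [h5]
    refine h4.trans ?_
    have e63 : L ^ (2 ^ 14 - 1) * L ^ 8 ≤ (L ^ (2 ^ 11 + 1)) ^ 8 := by
      rw [← pow_add, ← pow_mul]
      exact pow_le_pow_right₀ hL0 (by norm_num)
    have e64 : 45 * (N : ℝ) ^ 7 * (M : ℝ) ^ 8 * (L ^ (2 ^ 14 - 1) * L ^ 8) ≤
        45 * (N : ℝ) ^ 7 * (M : ℝ) ^ 8 * (L ^ (2 ^ 11 + 1)) ^ 8 :=
      mul_le_mul_of_nonneg_left e63 (by positivity)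
    refine e64.trans ?_
    have hnn : 0 ≤ (N : ℝ) ^ 7 * (M : ℝ) ^ 8 * (L ^ (2 ^ 11 + 1)) ^ 8 := by positivity
    generalize L ^ (2 ^ 11 + 1) = Y at hnn ⊢
    nlinarith
  rw [← hLd]
  exact h2.trans h6

/-- The bilinear bound for `N ≤ M`. -/
theorem bl_core (h : SyG e g ψ al) (A B : Finset ι → ℂ) (M N : ℕ) (hA : ∀ S, ‖A S‖ ≤ 1)
    (hB : ∀ T, ‖B T‖ ≤ 1) (hN : 1 ≤ N) (hNM : N ≤ M) :
    ‖∑ S ∈ Sx ι M, ∑ T ∈ Sx ι N, A S * B T * JG ψ T (gS g S)‖ ≤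
      2 * M * (N : ℝ) ^ (7 / 8 : ℝ) * (1 + 4 * Real.log M) ^ kbl :=
  bl_core0 h A B M N hA hB hN hNM

/-- the sum of the bits -/
def sal (al : ι → ZMod 2) (S : Finset ι) : ZMod 2 := ∑ q ∈ S, al q

theorem J_rec (h : SyG e g ψ al) (S T : Finset ι) :
    JG ψ T (gS g S) = ((sg (sal al S * sal al T) : ℝ) : ℂ) * JG ψ S (gS g T) := by
  by_cases hd : Disjoint S T
  · rw [J_disj h hd, J_disj h hd.symm]
    have e1 : ((sg (sal al S * sal al T) : ℝ) : ℂ) =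
        ∏ q ∈ S, ∏ p ∈ T, ((sg (al q * al p) : ℝ) : ℂ) := by
      rw [sal, sal, sum_mul_sum, sgD_sum, Complex.ofReal_prod]
      refine prod_congr rfl fun q _ => ?_
      rw [sgD_sum, Complex.ofReal_prod]
    rw [e1, prod_comm (s := T) (t := S), ← prod_mul_distrib]
    refine prod_congr rfl fun q hq => ?_
    rw [← prod_mul_distrib]
    refine prod_congr rfl fun p hp => ?_
    exact h.comm q p fun e => disjoint_left.1 hd hq (e ▸ hp)
  · rw [J_not_disj h hd, J_not_disj h fun e => hd e.symm, mul_zero]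

theorem sg_mul_expand (x y : ZMod 2) :
    sg (x * y) = (1 / 2) * (1 + sg x + sg y - sg x * sg y) := by
  have h0 : sg 0 = 1 := by simp [sg]
  have h1 : sg 1 = -1 := by simp [sg]
  have h : ∀ x : ZMod 2, x = 0 ∨ x = 1 := by decide
  rcases h x with rfl | rfl <;> rcases h y with rfl | rfl <;>
    simp only [mul_zero, zero_mul, mul_one, h0, h1] <;> norm_num

/-- The bilinear bound for `N ≤ M` with the sign of the reciprocity law. -/
theorem bl_tw (h : SyG e g ψ al) (A B : Finset ι → ℂ) (M N : ℕ) (hA : ∀ S, ‖A S‖ ≤ 1)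
    (hB : ∀ T, ‖B T‖ ≤ 1) (hN : 1 ≤ N) (hNM : N ≤ M) :
    ‖∑ S ∈ Sx ι M, ∑ T ∈ Sx ι N, A S * B T *
        (((sg (sal al T * sal al S) : ℝ) : ℂ) * JG ψ T (gS g S))‖ ≤
      2 * (2 * M * (N : ℝ) ^ (7 / 8 : ℝ) * (1 + 4 * Real.log M) ^ kbl) := by
  have hu : ∀ (Z : Finset ι → ℂ), (∀ S, ‖Z S‖ ≤ 1) → ∀ S,
      ‖((sg (sal al S) : ℝ) : ℂ) * Z S‖ ≤ 1 := by
    intro Z hZ S
    rw [norm_mul, Complex.norm_real, Real.norm_eq_abs, sgD_abs, one_mul]
    exact hZ S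
  have h1 := bl_core h A B M N hA hB hN hNM
  have h2 := bl_core h (fun S => ((sg (sal al S) : ℝ) : ℂ) * A S) B M N (hu A hA) hB hN hNM
  have h3 := bl_core h A (fun T => ((sg (sal al T) : ℝ) : ℂ) * B T) M N hA (hu B hB) hN hNM
  have h4 := bl_core h (fun S => ((sg (sal al S) : ℝ) : ℂ) * A S)
    (fun T => ((sg (sal al T) : ℝ) : ℂ) * B T) M N (hu A hA) (hu B hB) hN hNM
  generalize 2 * M * (N : ℝ) ^ (7 / 8 : ℝ) * (1 + 4 * Real.log M) ^ kbl = Y at h1 h2 h3 h4 ⊢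
  have e : ∑ S ∈ Sx ι M, ∑ T ∈ Sx ι N, A S * B T *
        (((sg (sal al T * sal al S) : ℝ) : ℂ) * JG ψ T (gS g S)) =
      (1 / 2 : ℂ) * (((∑ S ∈ Sx ι M, ∑ T ∈ Sx ι N, A S * B T * JG ψ T (gS g S)) +
        ∑ S ∈ Sx ι M, ∑ T ∈ Sx ι N, (((sg (sal al S) : ℝ) : ℂ) * A S) * B T * JG ψ T (gS g S)) +
        (∑ S ∈ Sx ι M, ∑ T ∈ Sx ι N, A S * (((sg (sal al T) : ℝ) : ℂ) * B T) * JG ψ T (gS g S)) -
        ∑ S ∈ Sx ι M, ∑ T ∈ Sx ι N, (((sg (sal al S) : ℝ) : ℂ) * A S) *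
          (((sg (sal al T) : ℝ) : ℂ) * B T) * JG ψ T (gS g S)) := by
    simp only [← sum_add_distrib, ← sum_sub_distrib, mul_sum]
    refine sum_congr rfl fun S _ => sum_congr rfl fun T _ => ?_
    rw [sg_mul_expand]
    push_cast
    ring
  rw [e, norm_mul]
  have e2 : ‖(1 / 2 : ℂ)‖ = 1 / 2 := by
    rw [norm_div, norm_one, Complex.norm_ofNat]
  rw [e2]
  have t1 := norm_sub_le
    (((∑ S ∈ Sx ι M, ∑ T ∈ Sx ι N, A S * B T * JG ψ T (gS g S)) +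
        ∑ S ∈ Sx ι M, ∑ T ∈ Sx ι N, (((sg (sal al S) : ℝ) : ℂ) * A S) * B T * JG ψ T (gS g S)) +
        (∑ S ∈ Sx ι M, ∑ T ∈ Sx ι N, A S * (((sg (sal al T) : ℝ) : ℂ) * B T) * JG ψ T (gS g S)))
    (∑ S ∈ Sx ι M, ∑ T ∈ Sx ι N, (((sg (sal al S) : ℝ) : ℂ) * A S) *
          (((sg (sal al T) : ℝ) : ℂ) * B T) * JG ψ T (gS g S))
  have t2 := norm_add₃_le
    (a := ∑ S ∈ Sx ι M, ∑ T ∈ Sx ι N, A S * B T * JG ψ T (gS g S))
    (b := ∑ S ∈ Sx ι M, ∑ T ∈ Sx ι N, (((sg (sal al S) : ℝ) : ℂ) * A S) * B T * JG ψ T (gS g S))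
    (c := ∑ S ∈ Sx ι M, ∑ T ∈ Sx ι N, A S * (((sg (sal al T) : ℝ) : ℂ) * B T) * JG ψ T (gS g S))
  linarith

/-- The symmetric bilinear bound. -/
theorem bl_sym (h : SyG e g ψ al) (A B : Finset ι → ℂ) (M N : ℕ) (hA : ∀ S, ‖A S‖ ≤ 1)
    (hB : ∀ T, ‖B T‖ ≤ 1) (hM : 1 ≤ M) (hN : 1 ≤ N) :
    ‖∑ S ∈ Sx ι M, ∑ T ∈ Sx ι N, A S * B T * JG ψ T (gS g S)‖ ≤
      4 * M * N * ((min M N : ℕ) : ℝ) ^ (-(1 / 8) : ℝ) *
        (1 + 4 * Real.log (max M N : ℕ)) ^ kbl := by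
  classical
  have rp : ∀ n : ℕ, 1 ≤ n → (n : ℝ) ^ (7 / 8 : ℝ) = n * (n : ℝ) ^ (-(1 / 8) : ℝ) := by
    intro n hn
    have hn0 : (0 : ℝ) < n := by exact_mod_cast hn
    rw [show (7 / 8 : ℝ) = 1 + -(1 / 8) by norm_num, Real.rpow_add hn0, Real.rpow_one]
  have hM1 : (1 : ℝ) ≤ M := by exact_mod_cast hM
  have hN1 : (1 : ℝ) ≤ N := by exact_mod_cast hN
  rcases le_or_gt N M with hNM | hNM
  · rw [min_eq_right hNM, max_eq_left hNM]
    refine (bl_core h A B M N hA hB hN hNM).trans ?_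
    rw [rp N hN]
    have hY : 0 ≤ (1 + 4 * Real.log (M : ℝ)) ^ kbl := by
      have := Real.log_nonneg hM1
      positivity
    generalize (1 + 4 * Real.log (M : ℝ)) ^ kbl = Y at hY ⊢
    have hZ : 0 ≤ M * (N * (N : ℝ) ^ (-(1 / 8) : ℝ)) * Y := by positivity
    linarith
  · rw [min_eq_left hNM.le, max_eq_right hNM.le]
    have e : ∑ S ∈ Sx ι M, ∑ T ∈ Sx ι N, A S * B T * JG ψ T (gS g S) =
        ∑ T ∈ Sx ι N, ∑ S ∈ Sx ι M, B T * A S *
          (((sg (sal al S * sal al T) : ℝ) : ℂ) * JG ψ S (gS g T)) := by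
      rw [sum_comm]
      refine sum_congr rfl fun T _ => sum_congr rfl fun S _ => ?_
      rw [J_rec h, mul_comm (A S)]
    rw [e]
    refine (bl_tw h B A N M hB hA hM hNM.le).trans (le_of_eq ?_)
    rw [rp M hM]
    generalize (1 + 4 * Real.log (N : ℝ)) ^ kbl = Y
    ring

end

end Pool.Agent.Lib.MP_1a91b9_ntR.B
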