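import Pool.Agent.Lib.MP_1a91b9_ntR.BCore

/-!
# MP_1a91b9_nt, generic part R: the complex bilinear bound in a hyperbolic region
-/

set_option autoImplicit false
set_option linter.unusedSectionVars false

namespace Pool.Agent.Lib.MP_1a91b9_ntR.B

open Finset
open Pool.Agent.Lib.MP_1a91b9_ntH (PS nm Sx mem_Sx one_le_nm)
open Pool.Agent.Lib.MP_1a91b9_ntH.B (Fib gS g4 nm4 Q4 nm4_mem card_Q4_le sum_Q4_le card_Sx_le kbl one_le_kbl qcut qcut_succ qcut_strict qcut_step qcut_double qcut_pow err_count sum_inv_nm_le)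

section

variable {ι : Type} [DecidableEq ι] [PS ι] {e : ι → ι → ℂ} {R : Type} [CommRing R] [Qi R]
  {g : ι → R} {ψ : ι → R → ℂ} {al : ι → ZMod 2}

theorem sum_pieces (X : ℕ) (F : Finset ι → ℂ) (a : ℕ → ℕ) (ha : Monotone a) (K : ℕ) :
    ∑ S ∈ Sx ι X with a 0 < nm S ∧ nm S ≤ a K, F S =
      ∑ k ∈ range K, ∑ S ∈ Sx ι X with a k < nm S ∧ nm S ≤ a (k + 1), F S := by
  classical
  induction K with
  | zero =>
    rw [range_zero, sum_empty]
    refine sum_eq_zero fun S hS => ?_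
    rw [mem_filter] at hS
    omega
  | succ K ih =>
    rw [sum_range_succ, ← ih, ← sum_union]
    · refine sum_congr ?_ fun _ _ => rfl
      ext S
      rw [mem_union, mem_filter, mem_filter, mem_filter]
      have h1 := ha (Nat.zero_le K)
      have h2 : a K ≤ a (K + 1) := ha (Nat.le_succ K)
      constructor
      · rintro ⟨h3, h4, h5⟩
        rcases le_or_gt (nm S) (a K) with h6 | h6
        · exact Or.inl ⟨h3, h4, h6⟩
        · exact Or.inr ⟨h3, h6, h5⟩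
      · rintro (⟨h3, h4, h5⟩ | ⟨h3, h4, h5⟩)
        · exact ⟨h3, h4, by omega⟩
        · exact ⟨h3, by omega, h5⟩
    · rw [disjoint_filter]
      rintro S _ h3 h4
      omega

/-- the main part of one piece -/
theorem main_piece (h : SyG e g ψ al) (A B : Finset ι → ℂ) (X : ℕ) (V : ℝ) (hA : ∀ S, ‖A S‖ ≤ 1)
    (hB : ∀ T, ‖B T‖ ≤ 1) (hV : 1 ≤ V) (hX : 2 ≤ X) (a b : ℕ) (hVa : V < b) (hab : a < b) :
    ‖∑ S ∈ Sx ι X with a < nm S ∧ nm S ≤ b, ∑ T ∈ Sx ι X,
        if b * nm T ≤ X ∧ V < nm T then A S * B T * JG ψ T (gS g S) else 0‖ ≤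
      32 * X * V ^ (-(1 / 8) : ℝ) * (1 + 4 * Real.log X) ^ kbl := by
  classical
  have hV0 : 0 < V := by linarith
  have hb0 : 0 < b := by omega
  have hX1 : (1 : ℝ) ≤ X := by exact_mod_cast (by omega : 1 ≤ X)
  have hlog : 0 ≤ Real.log X := Real.log_nonneg hX1
  have hrhs : 0 ≤ 32 * X * V ^ (-(1 / 8) : ℝ) * (1 + 4 * Real.log X) ^ kbl := by positivity
  set N := X / b with hN
  have hdiv : ∀ n : ℕ, b * n ≤ X ↔ n ≤ N := fun n => by
    rw [hN, Nat.le_div_iff_mul_le hb0, mul_comm]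
  by_cases hNV : (N : ℝ) ≤ V
  · rw [sum_eq_zero, norm_zero]
    · exact hrhs
    · intro S _
      refine sum_eq_zero fun T _ => if_neg ?_
      rintro ⟨h1, h2⟩
      rw [hdiv] at h1
      have : (nm T : ℝ) ≤ N := by exact_mod_cast h1
      linarith
  · push Not at hNV
    have hN1 : 1 ≤ N := by
      have : (0 : ℝ) < N := by linarith
      exact_mod_cast this
    have hNX : N ≤ X := Nat.div_le_self _ _
    have hbN : b * N ≤ X := Nat.mul_div_le _ _
    have hbX : b ≤ X := le_trans (Nat.le_mul_of_pos_right b hN1) hbN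
    have key := bl_sym h (fun S => if a < nm S then A S else 0) (fun T => if V < nm T then B T else 0)
      b N (fun S => by split_ifs; exacts [hA S, by simp])
      (fun T => by split_ifs; exacts [hB T, by simp]) hb0 hN1
    have e : ∑ S ∈ Sx ι X with a < nm S ∧ nm S ≤ b, ∑ T ∈ Sx ι X,
        (if b * nm T ≤ X ∧ V < nm T then A S * B T * JG ψ T (gS g S) else 0) =
        ∑ S ∈ Sx ι b, ∑ T ∈ Sx ι N, (if a < nm S then A S else 0) * (if V < nm T then B T else 0) *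
          JG ψ T (gS g S) := by
      have e1 : ∀ S, ∑ T ∈ Sx ι X,
          (if b * nm T ≤ X ∧ V < nm T then A S * B T * JG ψ T (gS g S) else 0) =
          ∑ T ∈ Sx ι N, A S * (if V < nm T then B T else 0) * JG ψ T (gS g S) := by
        intro S
        symm
        have hsub : Sx ι N ⊆ Sx ι X := fun T hT => mem_Sx.2 ((mem_Sx.1 hT).trans hNX)
        rw [← sum_subset hsub]
        · refine sum_congr rfl fun T hT => ?_
          have h1 : b * nm T ≤ X := (hdiv _).2 (mem_Sx.1 hT)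
          by_cases h2 : V < nm T
          · rw [if_pos h2, if_pos ⟨h1, h2⟩]
          · rw [if_neg h2, if_neg fun h => h2 h.2]; ring
        · intro T _ hT
          exact if_neg fun h => hT (mem_Sx.2 ((hdiv _).1 h.1))
      rw [sum_congr rfl fun S _ => e1 S]
      have hsub : ((Sx ι X).filter fun S => a < nm S ∧ nm S ≤ b) ⊆ Sx ι b := fun S hS =>
        mem_Sx.2 (mem_filter.1 hS).2.2
      rw [← sum_subset hsub]
      · refine sum_congr rfl fun S hS => sum_congr rfl fun T _ => ?_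
        rw [if_pos (mem_filter.1 hS).2.1]
      · intro S hS hS'
        refine sum_eq_zero fun T _ => ?_
        rw [if_neg]
        · ring
        · intro h3
          exact hS' (mem_filter.2 ⟨mem_Sx.2 ((mem_Sx.1 hS).trans hbX), h3, mem_Sx.1 hS⟩)
    rw [e]
    refine key.trans ?_
    have hbN' : (b : ℝ) * N ≤ X := by exact_mod_cast hbN
    have hmin : V ≤ ((min b N : ℕ) : ℝ) := by
      rcases min_choice b N with h | h <;> rw [h] <;> linarith
    have hmax : ((max b N : ℕ) : ℝ) ≤ X := by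
      exact_mod_cast max_le hbX hNX
    have hmax1 : (1 : ℝ) ≤ ((max b N : ℕ) : ℝ) := by
      exact_mod_cast le_max_of_le_right hN1
    have h1 : ((min b N : ℕ) : ℝ) ^ (-(1 / 8) : ℝ) ≤ V ^ (-(1 / 8) : ℝ) :=
      Real.rpow_le_rpow_of_nonpos hV0 hmin (by norm_num)
    have h2 : Real.log ((max b N : ℕ) : ℝ) ≤ Real.log X := Real.log_le_log (by linarith) hmax
    have h3 : 0 ≤ Real.log ((max b N : ℕ) : ℝ) := Real.log_nonneg hmax1
    have h4 : (1 + 4 * Real.log ((max b N : ℕ) : ℝ)) ^ kbl ≤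
        (1 + 4 * Real.log X) ^ kbl := by
      gcongr
    have h5 : (0 : ℝ) ≤ ((min b N : ℕ) : ℝ) ^ (-(1 / 8) : ℝ) := by positivity
    have h6 : 0 ≤ (1 + 4 * Real.log ((max b N : ℕ) : ℝ)) ^ kbl := by positivity
    generalize (1 + 4 * Real.log ((max b N : ℕ) : ℝ)) ^ kbl = Y at h4 h6 ⊢
    generalize (1 + 4 * Real.log X) ^ kbl = Z at h4 ⊢
    have hZ : 0 ≤ Z := h6.trans h4
    calc 4 * (b : ℝ) * N * ((min b N : ℕ) : ℝ) ^ (-(1 / 8) : ℝ) * Y
        = 4 * ((b : ℝ) * N) * ((min b N : ℕ) : ℝ) ^ (-(1 / 8) : ℝ) * Y := by ring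
      _ ≤ 32 * X * V ^ (-(1 / 8) : ℝ) * Z := by
          gcongr
          norm_num

theorem J_norm' (h : SyG e g ψ al) {A B : Finset ι → ℂ} (hA : ∀ S, ‖A S‖ ≤ 1) (hB : ∀ T, ‖B T‖ ≤ 1)
    (S T : Finset ι) : ‖A S * B T * JG ψ T (gS g S)‖ ≤ 1 := by
  rw [norm_mul, norm_mul]
  exact mul_le_one₀ (mul_le_one₀ (hA S) (norm_nonneg _) (hB T)) (norm_nonneg _) (J_norm h _ _)

theorem bl_hyp (h : SyG e g ψ al) : ∃ C : ℝ, 0 < C ∧ ∀ (A B : Finset ι → ℂ) (X : ℕ) (V : ℝ),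
    (∀ S, ‖A S‖ ≤ 1) → (∀ S, ‖B S‖ ≤ 1) → 1 ≤ V → 2 ≤ X →
    ‖∑ S ∈ Sx ι X, ∑ T ∈ Sx ι X, if nm S * nm T ≤ X ∧ V < nm S ∧ V < nm T then
        A S * B T * JG ψ T (gS g S) else 0‖ ≤
      C * X * (1 + Real.log X) ^ (kbl + 3) * V ^ (-(1 / 32) : ℝ) := by
  classical
  refine ⟨64 * 4 ^ (kbl + 1) + 1, by positivity, ?_⟩
  intro A B X V hA hB hV hX
  have hV0 : 0 < V := by linarith
  have hX1 : (1 : ℝ) ≤ X := by exact_mod_cast (by omega : 1 ≤ X)
  have hlog : 0 ≤ Real.log X := Real.log_nonneg hX1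
  set hc : ℕ := ⌈V ^ (1 / 16 : ℝ)⌉₊ with hh
  have hV16 : 1 ≤ V ^ (1 / 16 : ℝ) := Real.one_le_rpow hV (by norm_num)
  have hh1 : 1 ≤ hc := Nat.one_le_ceil_iff.2 (by linarith)
  have hhle : V ^ (1 / 16 : ℝ) ≤ hc := Nat.le_ceil _
  have hhge : (hc : ℝ) ≤ 2 * V ^ (1 / 16 : ℝ) := by
    have := (Nat.ceil_lt_add_one (show 0 ≤ V ^ (1 / 16 : ℝ) by linarith)).le
    linarith
  have hh0 : (0 : ℝ) < hc := by linarith
  set a0 : ℕ := ⌊V⌋₊ with ha0
  have ha01 : 1 ≤ a0 := Nat.one_le_floor_iff V |>.2 hV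
  set a : ℕ → ℕ := qcut hc a0 with ha
  have hamono : Monotone a := (qcut_strict hc a0).monotone
  set K : ℕ := hc * (Nat.log 2 X + 1) with hK
  have haK : X ≤ a K := (Nat.lt_pow_succ_log_self (by norm_num) X).le.trans
    (qcut_pow hc a0 hh1 ha01 (Nat.log 2 X + 1))
  have hKle : (K : ℝ) ≤ 2 * V ^ (1 / 16 : ℝ) * (1 + 2 * Real.log X) := by
    have h1 : (Nat.log 2 X : ℝ) ≤ 2 * Real.log X := by
      have h2 := Real.natLog_le_logb X 2
      have h3 : Real.logb (2 : ℕ) X = Real.log X / Real.log 2 := by simp [Real.logb]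
      rw [h3] at h2
      have h4 : (1 : ℝ) / 2 < Real.log 2 := by linarith [Real.log_two_gt_d9]
      refine h2.trans ?_
      rw [div_le_iff₀ (by linarith)]
      nlinarith
    rw [hK]
    push_cast
    have h5 : (0 : ℝ) ≤ (Nat.log 2 X : ℝ) + 1 := by positivity
    calc (hc : ℝ) * ((Nat.log 2 X : ℝ) + 1) ≤ (2 * V ^ (1 / 16 : ℝ)) * ((Nat.log 2 X : ℝ) + 1) := by
          gcongr
      _ ≤ (2 * V ^ (1 / 16 : ℝ)) * (1 + 2 * Real.log X) :=
          mul_le_mul_of_nonneg_left (by linarith) (by positivity)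
  -- condition V < m
  have hVm : ∀ m : ℕ, V < m ↔ a0 < m := fun m => (Nat.floor_lt (by linarith)).symm
  -- decomposition into pieces
  have hdec : (∑ S ∈ Sx ι X, ∑ T ∈ Sx ι X,
        if nm S * nm T ≤ X ∧ V < nm S ∧ V < nm T then A S * B T * JG ψ T (gS g S) else 0) =
      ∑ k ∈ range K, ∑ S ∈ Sx ι X with a k < nm S ∧ nm S ≤ a (k + 1), ∑ T ∈ Sx ι X,
        ((if a (k + 1) * nm T ≤ X ∧ V < nm T then A S * B T * JG ψ T (gS g S) else 0) +
        (if nm S * nm T ≤ X ∧ X < a (k + 1) * nm T ∧ V < nm T then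
          A S * B T * JG ψ T (gS g S) else 0)) := by
    have e1 : (∑ S ∈ Sx ι X, ∑ T ∈ Sx ι X,
        if nm S * nm T ≤ X ∧ V < nm S ∧ V < nm T then A S * B T * JG ψ T (gS g S) else 0) =
        ∑ S ∈ Sx ι X with a 0 < nm S ∧ nm S ≤ a K, ∑ T ∈ Sx ι X,
        if nm S * nm T ≤ X ∧ V < nm S ∧ V < nm T then A S * B T * JG ψ T (gS g S) else 0 := by
      rw [sum_filter]
      refine sum_congr rfl fun S hS => ?_
      split_ifs with hc1
      · rfl
      · refine sum_eq_zero fun T _ => if_neg ?_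
        rintro ⟨-, h2, -⟩
        rw [hVm] at h2
        exact hc1 ⟨h2, (mem_Sx.1 hS).trans haK⟩
    rw [e1, sum_pieces X _ a hamono K]
    refine sum_congr rfl fun k _ => sum_congr rfl fun S hS => sum_congr rfl fun T _ => ?_
    rw [mem_filter] at hS
    have h0 : V < nm S := by
      rw [hVm]
      exact lt_of_le_of_lt (hamono (Nat.zero_le k)) hS.2.1
    have hmn : nm S * nm T ≤ a (k + 1) * nm T := Nat.mul_le_mul_right _ hS.2.2
    by_cases h2 : V < nm T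
    · by_cases h3 : a (k + 1) * nm T ≤ X
      · rw [if_pos ⟨by omega, h0, h2⟩, if_pos ⟨h3, h2⟩, if_neg (by rintro ⟨-, h4, -⟩; omega),
          add_zero]
      · by_cases h5 : nm S * nm T ≤ X
        · rw [if_pos ⟨h5, h0, h2⟩, if_neg (fun h4 => h3 h4.1), if_pos ⟨h5, by omega, h2⟩, zero_add]
        · rw [if_neg (fun h4 => h5 h4.1), if_neg (fun h4 => h3 h4.1), if_neg (fun h4 => h5 h4.1),
            add_zero]
    · rw [if_neg (fun h4 => h2 h4.2.2), if_neg (fun h4 => h2 h4.2), if_neg (fun h4 => h2 h4.2.2),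
        add_zero]
  rw [hdec]
  simp only [sum_add_distrib]
  -- main part
  have hmain : ‖∑ k ∈ range K, ∑ S ∈ Sx ι X with a k < nm S ∧ nm S ≤ a (k + 1), ∑ T ∈ Sx ι X,
        (if a (k + 1) * nm T ≤ X ∧ V < nm T then A S * B T * JG ψ T (gS g S) else 0)‖ ≤
      K * (32 * X * V ^ (-(1 / 8) : ℝ) * (1 + 4 * Real.log X) ^ kbl) := by
    refine (norm_sum_le _ _).trans ?_
    rw [← nsmul_eq_mul]
    conv_rhs => rw [← card_range K]
    refine sum_le_card_nsmul _ _ _ fun k _ => ?_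
    have h1 : a k < a (k + 1) := qcut_strict hc a0 (Nat.lt_succ_self k)
    refine main_piece h A B X V hA hB hV hX (a k) (a (k + 1)) ?_ h1
    rw [hVm]
    exact lt_of_le_of_lt (hamono (Nat.zero_le k)) h1
  -- error part
  have herr : ‖∑ k ∈ range K, ∑ S ∈ Sx ι X with a k < nm S ∧ nm S ≤ a (k + 1), ∑ T ∈ Sx ι X,
        (if nm S * nm T ≤ X ∧ X < a (k + 1) * nm T ∧ V < nm T then
          A S * B T * JG ψ T (gS g S) else 0)‖ ≤
      X * Real.sqrt (1 / hc) * (1 + Real.log X) ^ 4 := by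
    calc ‖∑ k ∈ range K, ∑ S ∈ Sx ι X with a k < nm S ∧ nm S ≤ a (k + 1), ∑ T ∈ Sx ι X,
          (if nm S * nm T ≤ X ∧ X < a (k + 1) * nm T ∧ V < nm T then
            A S * B T * JG ψ T (gS g S) else 0)‖
        ≤ ∑ k ∈ range K, ∑ S ∈ Sx ι X with a k < nm S ∧ nm S ≤ a (k + 1), ∑ T ∈ Sx ι X,
          (if nm S * nm T ≤ X ∧ X < a (k + 1) * nm T then (1 : ℝ) else 0) := by
          refine (norm_sum_le _ _).trans (sum_le_sum fun k _ => ?_)
          refine (norm_sum_le _ _).trans (sum_le_sum fun S _ => ?_)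
          refine (norm_sum_le _ _).trans (sum_le_sum fun T _ => ?_)
          by_cases h1 : nm S * nm T ≤ X ∧ X < a (k + 1) * nm T ∧ V < nm T
          · rw [if_pos h1, if_pos ⟨h1.1, h1.2.1⟩]
            exact J_norm' h hA hB S T
          · rw [if_neg h1, norm_zero]
            split_ifs <;> norm_num
      _ = ∑ T ∈ Sx ι X, ∑ k ∈ range K, ∑ S ∈ Sx ι X with a k < nm S ∧ nm S ≤ a (k + 1),
          (if nm S * nm T ≤ X ∧ X < a (k + 1) * nm T then (1 : ℝ) else 0) := by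
          rw [sum_congr rfl fun k _ => sum_comm]
          exact sum_comm
      _ ≤ ∑ T ∈ Sx ι X, X * Real.sqrt (1 / hc) * (1 + Real.log X) ^ 2 * (1 / nm T) :=
          sum_le_sum fun T _ => err_count h.fib hc a0 X K hh1 (nm T) (one_le_nm T)
      _ = X * Real.sqrt (1 / hc) * (1 + Real.log X) ^ 2 * ∑ T ∈ Sx ι X, (1 / nm T : ℝ) := by
          rw [mul_sum]
      _ ≤ X * Real.sqrt (1 / hc) * (1 + Real.log X) ^ 2 * (1 + Real.log X) ^ 2 := by
          have h1 := sum_inv_nm_le h.fib X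
          gcongr
      _ = X * Real.sqrt (1 / hc) * (1 + Real.log X) ^ 4 := by ring
  -- assembly
  refine (norm_add_le _ _).trans ?_
  refine (add_le_add hmain herr).trans ?_
  set u : ℝ := V ^ (-(1 / 32) : ℝ) with hu
  set v : ℝ := V ^ (1 / 16 : ℝ) with hv
  have hu0 : 0 < u := by positivity
  have hu1 : u ≤ 1 := Real.rpow_le_one_of_one_le_of_nonpos hV (by norm_num)
  have hv0 : 0 < v := by linarith
  have huv : v * u ^ 2 = 1 := by
    rw [hv, hu, sq, ← Real.rpow_add hV0, ← Real.rpow_add hV0]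
    norm_num
  have hu2 : V ^ (-(1 / 8) : ℝ) = u ^ 4 := by
    rw [hu, ← Real.rpow_natCast, ← Real.rpow_mul hV0.le]
    norm_num
  have hsq : Real.sqrt (1 / hc) ≤ u := by
    have h1 : (1 : ℝ) / hc ≤ u ^ 2 := by
      rw [div_le_iff₀ hh0]
      calc (1 : ℝ) = u ^ 2 * v := by rw [mul_comm]; exact huv.symm
        _ ≤ u ^ 2 * hc := by gcongr
    calc Real.sqrt (1 / hc) ≤ Real.sqrt (u ^ 2) := Real.sqrt_le_sqrt h1
      _ = u := Real.sqrt_sq hu0.le
  set l : ℝ := Real.log X with hl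
  have hX0 : (0 : ℝ) < X := by linarith
  have t3 : 1 ≤ 1 + l := by linarith
  have g1 : (K : ℝ) * (32 * X * V ^ (-(1 / 8) : ℝ) * (1 + 4 * l) ^ kbl) ≤
      64 * 4 ^ (kbl + 1) * (X * u * (1 + l) ^ (kbl + 3)) := by
    rw [hu2]
    have t2 : (1 + 4 * l) ^ kbl ≤ (4 * (1 + l)) ^ kbl :=
      pow_le_pow_left₀ (by positivity) (by linarith) _
    have t0 : 0 ≤ (1 + 4 * l) ^ kbl := by positivity
    have t1 : 1 + 2 * l ≤ 4 * (1 + l) := by linarith
    have t4 : (1 + 2 * l) * (1 + 4 * l) ^ kbl ≤ (4 * (1 + l)) ^ (kbl + 1) := by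
      calc (1 + 2 * l) * (1 + 4 * l) ^ kbl
          ≤ (4 * (1 + l)) * (4 * (1 + l)) ^ kbl :=
            mul_le_mul t1 t2 t0 (by positivity)
        _ = (4 * (1 + l)) ^ (kbl + 1) := (pow_succ' _ _).symm
    have t5 : (1 + l) ^ (kbl + 1) ≤ (1 + l) ^ (kbl + 3) := pow_le_pow_right₀ t3 (by omega)
    have t6 : v * u ^ 4 ≤ u := by
      calc v * u ^ 4 = (v * u ^ 2) * (u * u) := by ring
        _ = u * u := by rw [huv, one_mul]
        _ ≤ 1 * u := by gcongr
        _ = u := one_mul u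
    calc (K : ℝ) * (32 * X * u ^ 4 * (1 + 4 * l) ^ kbl)
        ≤ (2 * v * (1 + 2 * l)) * (32 * X * u ^ 4 * (1 + 4 * l) ^ kbl) :=
          mul_le_mul_of_nonneg_right hKle (by positivity)
      _ = 64 * X * (v * u ^ 4) * ((1 + 2 * l) * (1 + 4 * l) ^ kbl) := by
          generalize (1 + 4 * l) ^ kbl = Y
          ring
      _ ≤ 64 * X * u * (4 * (1 + l)) ^ (kbl + 1) := by
          refine mul_le_mul (by gcongr) t4 (by positivity) (by positivity)
      _ = 64 * X * u * (4 ^ (kbl + 1) * (1 + l) ^ (kbl + 1)) := by rw [mul_pow]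
      _ ≤ 64 * X * u * (4 ^ (kbl + 1) * (1 + l) ^ (kbl + 3)) := by
          refine mul_le_mul_of_nonneg_left ?_ (by positivity)
          exact mul_le_mul_of_nonneg_left t5 (by positivity)
      _ = 64 * 4 ^ (kbl + 1) * (X * u * (1 + l) ^ (kbl + 3)) := by
          generalize (4 : ℝ) ^ (kbl + 1) = Y
          generalize (1 + l) ^ (kbl + 3) = Z
          ring
  have g2 : X * Real.sqrt (1 / hc) * (1 + l) ^ 4 ≤ X * u * (1 + l) ^ (kbl + 3) := by
    have t4 : (1 + l) ^ 4 ≤ (1 + l) ^ (kbl + 3) := pow_le_pow_right₀ t3 (by have := one_le_kbl; omega)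
    refine mul_le_mul (by gcongr) t4 (by positivity) (by positivity)
  refine (add_le_add g1 g2).trans (le_of_eq ?_)
  generalize (4 : ℝ) ^ (kbl + 1) = Y
  generalize (1 + l) ^ (kbl + 3) = Z
  ring

/-- The bilinear bound in the form used by the engine. -/
theorem bl_final (h : SyG e g ψ al) : ∃ C : ℝ, 0 < C ∧ ∀ (A B : Finset ι → ℂ) (X : ℕ) (V : ℝ),
    (∀ S, ‖A S‖ ≤ 1) → (∀ S, ‖B S‖ ≤ 1) → 1 ≤ V → 2 ≤ X →
    ‖∑ S ∈ Sx ι X, ∑ T ∈ Sx ι X, if nm S * nm T ≤ X ∧ V < nm S ∧ V < nm T ∧ Disjoint S T then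
        A S * B T * ∏ q ∈ S, ∏ p ∈ T, e q p else 0‖ ≤
      C * X * (1 + Real.log X) ^ (kbl + 3) * V ^ (-(1 / 32) : ℝ) := by
  obtain ⟨C, hC, hbl⟩ := bl_hyp h
  refine ⟨C, hC, fun A B X V hA hB hV hX => ?_⟩
  refine le_trans (le_of_eq ?_) (hbl A B X V hA hB hV hX)
  congr 1
  refine sum_congr rfl fun S _ => sum_congr rfl fun T _ => ?_
  rw [J_gS h]
  by_cases h1 : nm S * nm T ≤ X ∧ V < nm S ∧ V < nm T
  · by_cases h2 : Disjoint S T
    · rw [if_pos ⟨h1.1, h1.2.1, h1.2.2, h2⟩, if_pos h1, if_pos h2]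
    · rw [if_neg (fun h3 => h2 h3.2.2.2), if_pos h1, if_neg h2, mul_zero]
  · rw [if_neg (fun h3 => h1 ⟨h3.1, h3.2.1, h3.2.2.1⟩), if_neg h1]

end

end Pool.Agent.Lib.MP_1a91b9_ntR.B
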