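import Pool.Agent.Lib.MP_1a91b9_ntR.Pri

/-!
# MP_1a91b9_nt, generic part R: the fibres of the norm and the bilinear bound for the quadratic
symbols
-/

set_option autoImplicit false

namespace Pool.Agent.Lib.MP_1a91b9_ntR

open Finset
open Pool.Agent.Lib.MP_1a91b9_ntQ (Dat2)
open Pool.Agent.Lib.MP_1a91b9_ntH (PS nm pr Sx sg sgD_add sgD_sum sgD_abs)
open Pool.Agent.Lib.MP_1a91b9_ntH.B (Fib)

variable {R : Type} [CommRing R] [IsDomain R] [IsPrincipalIdealRing R] [Qi R] [Pri R]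

namespace B

omit [IsPrincipalIdealRing R] [Pri R] in
/-- A prime lies over a rational prime and its norm is that prime or its square. -/
theorem nG_cases {q : R} (hq : Prime q) :
    ∃ p : ℕ, p.Prime ∧ q ∣ (p : R) ∧ (nG q = p ∨ nG q = p ^ 2) := by
  have h2 := nG_two_le hq
  have h0 : nG q ≠ 0 := by omega
  have h1 : q ∣ (((nG q).primeFactorsList.map (Nat.cast : ℕ → R)).prod) := by
    rw [← Nat.cast_list_prod, Nat.prod_primeFactorsList h0]
    exact dvd_nG q
  rw [hq.dvd_prod_iff] at h1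
  obtain ⟨a, ha, hd⟩ := h1
  rw [List.mem_map] at ha
  obtain ⟨p, hp, rfl⟩ := ha
  have hpp := Nat.prime_of_mem_primeFactorsList hp
  refine ⟨p, hpp, hd, ?_⟩
  obtain ⟨t, ht⟩ := hd
  have h3 : nG q ∣ p ^ 2 := ⟨nG t, by rw [← nG_mul, ← ht, nG_nat]⟩
  rw [Nat.dvd_prime_pow hpp] at h3
  obtain ⟨k, hk, h4⟩ := h3
  have hk' : k = 0 ∨ k = 1 ∨ k = 2 := by omega
  rcases hk' with rfl | rfl | rfl
  · rw [pow_zero] at h4
    omega
  · rw [pow_one] at h4
    exact Or.inl h4
  · exact Or.inr h4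

theorem no_three {p : ℕ} (hp : p.Prime) {q1 q2 q3 : Pg R} (h12 : q1 ≠ q2) (h13 : q1 ≠ q3)
    (h23 : q2 ≠ q3) (d1 : q1.1 ∣ (p : R)) (d2 : q2.1 ∣ (p : R)) (d3 : q3.1 ∣ (p : R))
    (h1 : nG q1.1 = p ∨ nG q1.1 = p ^ 2) (h2 : nG q2.1 = p ∨ nG q2.1 = p ^ 2)
    (h3 : nG q3.1 = p ∨ nG q3.1 = p ^ 2) : False := by
  have hd : q1.1 * q2.1 * q3.1 ∣ (p : R) :=
    IsCoprime.mul_dvd (IsCoprime.mul_left (Pg.cop h13) (Pg.cop h23))
      (IsCoprime.mul_dvd (Pg.cop h12) d1 d2) d3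
  obtain ⟨t, ht⟩ := hd
  have h4 : p ^ 2 = nG q1.1 * nG q2.1 * nG q3.1 * nG t := by
    rw [← nG_nat (R := R), ht, nG_mul, nG_mul, nG_mul]
  have hp2 := hp.two_le
  have le : ∀ q : Pg R, (nG q.1 = p ∨ nG q.1 = p ^ 2) → p ≤ nG q.1 := by
    intro q hq
    rcases hq with h | h <;> rw [h]
    nlinarith
  have l1 := le q1 h1
  have l2 := le q2 h2
  have l3 := le q3 h3
  have ht0 : nG t ≠ 0 := by
    intro h0
    rw [h0, mul_zero] at h4
    have : p ^ 2 ≠ 0 := by positivity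
    exact this h4
  have h6 : p * p * p ≤ nG q1.1 * nG q2.1 * nG q3.1 :=
    Nat.mul_le_mul (Nat.mul_le_mul l1 l2) l3
  have h7 : nG q1.1 * nG q2.1 * nG q3.1 ≤ p ^ 2 := by
    rw [h4]
    exact Nat.le_mul_of_pos_right _ (Nat.pos_of_ne_zero ht0)
  have h8 : p * p * p ≤ p ^ 2 := h6.trans h7
  nlinarith

theorem fibPg : Fib (Pg R) := by
  classical
  choose π hπ using fun q : Pg R => nG_cases q.2.1
  let c : ℕ → Option (Pg R) := fun p => if h : ∃ q, π q = p then some h.choose else none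
  refine ⟨π, fun q => decide (c (π q) = some q), fun q => ⟨(hπ q).1, (hπ q).2.2⟩, ?_⟩
  intro q q' h
  simp only [Prod.mk.injEq] at h
  obtain ⟨h1, h2⟩ := h
  obtain ⟨q0, hq0, hc⟩ : ∃ q0, π q0 = π q ∧ c (π q) = some q0 := by
    have h3 : ∃ q', π q' = π q := ⟨q, rfl⟩
    exact ⟨h3.choose, h3.choose_spec, dif_pos h3⟩
  rw [← h1, hc] at h2
  simp only [Option.some.injEq] at h2
  by_cases e : q0 = q
  · rw [decide_eq_true e] at h2
    have := of_decide_eq_true h2.symm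
    exact e.symm.trans this
  · rw [decide_eq_false e] at h2
    have e' := of_decide_eq_false h2.symm
    by_contra hne
    have a0 := (hπ q0).2
    have a1 := (hπ q').2
    rw [hq0] at a0
    rw [← h1] at a1
    exact no_three (hπ q).1 e e' hne a0.1 (hπ q).2.1 a1.1 a0.2 (hπ q).2.2 a1.2

open Classical in
/-- the quadratic character modulo the prime `p` -/
noncomputable def psR (p : Pg R) (x : R) : ℂ := if p.1 ∣ x then 0 else ((sg (c2 p x) : ℝ) : ℂ)

/-- `e q p` is the symbol of `q` modulo `p`. -/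
theorem syR (al : Pg R → ZMod 2)
    (hs : ∀ p q : Pg R, p ≠ q → c2 p q.1 = c2 q p.1 + al p * al q) :
    SyG (fun q p : Pg R => ((sg (c2 p q.1) : ℝ) : ℂ)) (fun q : Pg R => q.1) psR al where
  comm q p h := by
    rw [hs p q (Ne.symm h), sgD_add, mul_comm (al p)]
    push_cast
    ring
  fib := fibPg
  nG_g _ := rfl
  mul q x y := by
    unfold psR
    by_cases hx : q.1 ∣ x
    · rw [if_pos hx, if_pos (hx.mul_right y), zero_mul]
    · by_cases hy : q.1 ∣ y
      · rw [if_pos hy, if_pos (hy.mul_left x), mul_zero]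
      · rw [if_neg hx, if_neg hy, if_neg, ← Complex.ofReal_mul, ← sgD_add]
        · congr 2
          exact c2_mul q hx hy
        · intro h
          rcases q.2.1.dvd_or_dvd h with h | h
          · exact hx h
          · exact hy h
  one q := by
    unfold psR
    rw [if_neg fun h => q.2.1.not_isUnit (isUnit_of_dvd_one h)]
    have : c2 q (1 : R) = 0 := (sys R).c_one q
    have h0 : sg 0 = 1 := by simp [sg]
    rw [this, h0, Complex.ofReal_one]
  le q x := by
    unfold psR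
    split_ifs
    · rw [norm_zero]
      exact zero_le_one
    · rw [Complex.norm_real, Real.norm_eq_abs, sgD_abs]
  per q x y := by
    unfold psR
    have h1 : q.1 ∣ x + q.1 * y ↔ q.1 ∣ x := by
      rw [dvd_add_left (dvd_mul_right _ _)]
    by_cases hx : q.1 ∣ x
    · rw [if_pos hx, if_pos (h1.2 hx)]
    · rw [if_neg hx, if_neg fun h => hx (h1.1 h)]
      have h2 : c2 q x = c2 q (x + q.1 * y) := c2_congr q ⟨-y, by ring⟩
      rw [h2]
  self q := by
    unfold psR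
    rw [if_pos dvd_rfl]
  sym q p h := by
    unfold psR
    rw [if_neg (Pg.not_dvd (Ne.symm h))]
  non q := by
    obtain ⟨u, h1, hc⟩ := exists_c2 q
    refine ⟨u, ?_, (q.2.1.irreducible.coprime_iff_not_dvd.2 h1).symm⟩
    unfold psR
    rw [if_neg h1]
    rw [hc]
    have h9 : sg 1 = -1 := by simp [sg]
    rw [h9]
    norm_num
  cop q p h := Pg.cop h

end B

/-- The bilinear bound for the quadratic symbols. -/
theorem dR_bl {κ : Type} (cl : κ → R → ZMod 2) (al : Pg R → ZMod 2)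
    (hs : ∀ p q : Pg R, p ≠ q → c2 p q.1 = c2 q p.1 + al p * al q) :
    ∃ C K c, 0 < c ∧ (dR cl).BL C K c := by
  obtain ⟨C, hC, h⟩ := B.bl_final (B.syR al hs)
  refine ⟨C, Pool.Agent.Lib.MP_1a91b9_ntH.B.kbl + 3, 1 / 32, by norm_num,
    fun A B X V hA hB hV hX => ?_⟩
  have h1 := h (fun T => ((B T : ℝ) : ℂ)) (fun S => ((A S : ℝ) : ℂ)) X V
    (fun S => by rw [Complex.norm_real, Real.norm_eq_abs]; exact hB S)
    (fun S => by rw [Complex.norm_real, Real.norm_eq_abs]; exact hA S) hV hX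
  refine le_trans (le_of_eq ?_) h1
  rw [← Real.norm_eq_abs, ← Complex.norm_real, sum_comm]
  congr 1
  push_cast
  refine sum_congr rfl fun T _ => sum_congr rfl fun S _ => ?_
  have e : ((sg ((dR cl).ss S T) : ℝ) : ℂ) = ∏ q ∈ T, ∏ p ∈ S, ((sg (c2 p q.1) : ℝ) : ℂ) := by
    unfold Dat2.ss
    rw [sgD_sum, prod_comm]
    push_cast
    refine prod_congr rfl fun q _ => ?_
    rw [sgD_sum]
    push_cast
    rfl
  by_cases hc : nm S * nm T ≤ X ∧ V < nm S ∧ V < nm T ∧ Disjoint S T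
  · rw [if_pos hc, if_pos ⟨by rw [mul_comm]; exact hc.1, hc.2.2.1, hc.2.1, hc.2.2.2.symm⟩, ← e]
    push_cast
    ring
  · rw [if_neg hc, if_neg fun h => hc ⟨by rw [mul_comm]; exact h.1, h.2.2.1, h.2.1, h.2.2.2.symm⟩]
    simp

end Pool.Agent.Lib.MP_1a91b9_ntR
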