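import Pool.Agent.Lib.MP_1a91b9_ntR.Lat
import Pool.Agent.Lib.MP_1a91b9_ntH.D.Exp

/-!
# MP_1a91b9_nt (quartic twists), part R: quadratic characters with a class weight

Abstract form, for any ring with the coordinates of `R`, any system of primes with quadratic symbols
and any completely multiplicative class weight `ψ` of modulus `1` on the primary elements.
-/

set_option autoImplicit false

namespace Pool.Agent.Lib.MP_1a91b9_ntR

open Finset
open Pool.Agent.Lib.MP_1a91b9_ntH (sg sgD_add sgD_sum sgD_abs)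

noncomputable section

/-- A system of primes with quadratic symbols; `In` the primary elements, a property modulo
`M`. -/
structure QSys (R : Type) [CommRing R] (ι : Type) where
  e : ι → R
  In : R → Prop
  M : R
  c : ι → R → ZMod 2
  prime : ∀ p, Prime (e p)
  prim : ∀ p, In (e p)
  in_one : In 1
  mul_in : ∀ x y, In x → (In (x * y) ↔ In y)
  con : ∀ x y, M ∣ x - y → In x → In y
  zero : ¬ In 0
  cop : ∀ p x, ¬ e p ∣ x → IsCoprime (e p) x
  ne : ∀ p q, p ≠ q → ¬ e p ∣ e q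
  mul : ∀ p x y, ¬ e p ∣ x → ¬ e p ∣ y → c p (x * y) = c p x + c p y
  congr : ∀ p x y, ¬ e p ∣ x → e p ∣ x - y → c p x = c p y
  surj : ∀ p, ∃ x, ¬ e p ∣ x ∧ c p x = 1

variable {R : Type} [CommRing R] {ι : Type} [DecidableEq ι]

namespace QSys

variable (D : QSys R ι)

/-- A class weight: multiplicative, of modulus `1`, periodic modulo `Q` on the primary elements. -/
structure Wt (Q : R) (ψ : R → ℂ) : Prop where
  one : ψ 1 = 1
  mul : ∀ x y, D.In x → D.In y → ψ (x * y) = ψ x * ψ y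
  norm : ∀ x, D.In x → ‖ψ x‖ = 1
  per : ∀ x y, D.In x → Q ∣ x - y → ψ x = ψ y

/-- `Q` is an admissible modulus. -/
structure Mod (Q : R) : Prop where
  dvd : D.M ∣ Q
  cop : ∀ x, D.In x → IsCoprime x Q

/-- The product of a set of primes. -/
def DD (B : Finset ι) : R := ∏ p ∈ B, D.e p

omit [DecidableEq ι] in
theorem c_one (p : ι) : D.c p 1 = 0 := by
  have h : ¬ D.e p ∣ 1 := fun h => (D.prime p).not_unit (isUnit_of_dvd_one h)
  have h1 := D.mul p 1 1 h h
  rw [mul_one] at h1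
  exact left_eq_add.1 h1

variable {D}

omit [DecidableEq ι] in
theorem In.mul {x y : R} (hx : D.In x) (hy : D.In y) : D.In (x * y) := (D.mul_in x y hx).2 hy

omit [DecidableEq ι] in
theorem In.of_mul {x y : R} (hx : D.In x) (h : D.In (x * y)) : D.In y := (D.mul_in x y hx).1 h

omit [DecidableEq ι] in
theorem In.congr {x y : R} (h : D.M ∣ x - y) : D.In x ↔ D.In y := by
  refine ⟨D.con x y h, D.con y x ?_⟩
  rw [← neg_sub]
  exact (dvd_neg).2 h

omit [DecidableEq ι] in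
theorem in_DD (B : Finset ι) : D.In (D.DD B) := by
  classical
  induction B using Finset.induction_on with
  | empty =>
    unfold DD
    rw [prod_empty]
    exact D.in_one
  | insert p B hp ih =>
    unfold DD at ih ⊢
    rw [prod_insert hp]
    exact In.mul (D.prim p) ih

omit [DecidableEq ι] in
theorem dvd_DD {B : Finset ι} {p : ι} (h : p ∈ B) : D.e p ∣ D.DD B := dvd_prod_of_mem D.e h

omit [DecidableEq ι] in
theorem dvd_DD_iff {B : Finset ι} {p : ι} : D.e p ∣ D.DD B ↔ p ∈ B := by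
  refine ⟨fun h => ?_, dvd_DD⟩
  unfold DD at h
  rw [Prime.dvd_finsetProd_iff (D.prime p)] at h
  obtain ⟨q, hq, h'⟩ := h
  by_contra hp
  exact D.ne p q (fun e => hp (e ▸ hq)) h'

variable (D)

/-- The exponent of the quadratic part. -/
def cx (B : Finset ι) (t : ι → ZMod 2) (x : R) : ZMod 2 := ∑ p ∈ B, t p * D.c p x

open Classical in
/-- The weighted quadratic character on the primary elements prime to `B`. -/
def chB (B : Finset ι) (t : ι → ZMod 2) (ψ : R → ℂ) (x : R) : ℂ :=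
  if D.In x ∧ ∀ p ∈ B, ¬ D.e p ∣ x then ψ x * (sg (D.cx B t x) : ℝ) else 0

variable {D}

omit [DecidableEq ι] in
theorem chB_of {B : Finset ι} {t : ι → ZMod 2} {ψ : R → ℂ} {x : R} (h : D.In x)
    (h' : ∀ p ∈ B, ¬ D.e p ∣ x) : D.chB B t ψ x = ψ x * (sg (D.cx B t x) : ℝ) := if_pos ⟨h, h'⟩

omit [DecidableEq ι] in
theorem chB_of_not {B : Finset ι} {t : ι → ZMod 2} {ψ : R → ℂ} {x : R}
    (h : ¬ (D.In x ∧ ∀ p ∈ B, ¬ D.e p ∣ x)) : D.chB B t ψ x = 0 := if_neg h

omit [DecidableEq ι] in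
theorem not_dvd_one (p : ι) : ¬ D.e p ∣ 1 := fun h => (D.prime p).not_unit (isUnit_of_dvd_one h)

theorem sg_zero' : sg 0 = 1 := by simp [sg]

omit [DecidableEq ι] in
theorem chB_one {Q : R} {ψ : R → ℂ} (hψ : D.Wt Q ψ) (B : Finset ι) (t : ι → ZMod 2) :
    D.chB B t ψ 1 = 1 := by
  rw [chB_of D.in_one fun p _ => not_dvd_one p, cx, sum_eq_zero fun p _ => by rw [D.c_one, mul_zero],
    hψ.one, sg_zero']
  simp

omit [DecidableEq ι] in
theorem cx_mul {B : Finset ι} (t : ι → ZMod 2) {x y : R} (hx' : ∀ p ∈ B, ¬ D.e p ∣ x)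
    (hy' : ∀ p ∈ B, ¬ D.e p ∣ y) : D.cx B t (x * y) = D.cx B t x + D.cx B t y := by
  unfold cx
  rw [← sum_add_distrib]
  exact sum_congr rfl fun p hp => by rw [D.mul p x y (hx' p hp) (hy' p hp), mul_add]

omit [DecidableEq ι] in
/-- Multiplicativity. -/
theorem chB_mul {Q : R} {ψ : R → ℂ} (hψ : D.Wt Q ψ) (B : Finset ι) (t : ι → ZMod 2) {x : R}
    (hx : D.In x) (y : R) : D.chB B t ψ (x * y) = D.chB B t ψ x * D.chB B t ψ y := by
  by_cases hy : D.In y
  · by_cases hx' : ∀ p ∈ B, ¬ D.e p ∣ x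
    · by_cases hy' : ∀ p ∈ B, ¬ D.e p ∣ y
      · have hxy : ∀ p ∈ B, ¬ D.e p ∣ x * y := fun p hp h =>
          ((D.prime p).dvd_or_dvd h).elim (hx' p hp) (hy' p hp)
        rw [chB_of hx hx', chB_of hy hy', chB_of (In.mul hx hy) hxy, cx_mul t hx' hy', sgD_add,
          hψ.mul x y hx hy]
        push_cast
        ring
      · rw [chB_of_not (x := y) fun h => hy' h.2, mul_zero, chB_of_not]
        rintro ⟨_, h2⟩
        exact hy' fun p hp h => h2 p hp (Dvd.dvd.mul_left h x)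
    · rw [chB_of_not (x := x) fun h => hx' h.2, zero_mul, chB_of_not]
      rintro ⟨_, h2⟩
      exact hx' fun p hp h => h2 p hp (Dvd.dvd.mul_right h y)
  · rw [chB_of_not (x := y) fun h => hy h.1, mul_zero,
      chB_of_not fun h => hy (In.of_mul hx h.1)]

omit [DecidableEq ι] in
theorem norm_chB_le {Q : R} {ψ : R → ℂ} (hψ : D.Wt Q ψ) (B : Finset ι) (t : ι → ZMod 2) (x : R) :
    ‖D.chB B t ψ x‖ ≤ 1 := by
  unfold chB
  split_ifs with h
  · rw [norm_mul, hψ.norm x h.1, one_mul, Complex.norm_real, Real.norm_eq_abs, sgD_abs]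
  · rw [norm_zero]
    exact zero_le_one

omit [DecidableEq ι] in
theorem chB_congr {Q : R} (hQ : D.Mod Q) {ψ : R → ℂ} (hψ : D.Wt Q ψ) {B : Finset ι}
    {t : ι → ZMod 2} {x y : R} (h : Q * D.DD B ∣ x - y) : D.chB B t ψ x = D.chB B t ψ y := by
  have h1 : Q ∣ x - y := (dvd_mul_right _ _).trans h
  have h2 : D.DD B ∣ x - y := (dvd_mul_left _ _).trans h
  have h3 : D.M ∣ x - y := hQ.dvd.trans h1
  have h4 : ∀ p ∈ B, (D.e p ∣ x ↔ D.e p ∣ y) := by
    intro p hp
    have h5 := (dvd_DD hp).trans h2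
    constructor
    · intro hx
      have := dvd_sub hx h5
      rwa [sub_sub_cancel] at this
    · intro hy
      have := dvd_add h5 hy
      rwa [sub_add_cancel] at this
  by_cases hx : D.In x ∧ ∀ p ∈ B, ¬ D.e p ∣ x
  · have hy : D.In y ∧ ∀ p ∈ B, ¬ D.e p ∣ y :=
      ⟨(In.congr h3).1 hx.1, fun p hp h' => hx.2 p hp ((h4 p hp).2 h')⟩
    rw [chB_of hx.1 hx.2, chB_of hy.1 hy.2, hψ.per x y hx.1 h1]
    congr 2
    unfold cx
    congr 1
    exact sum_congr rfl fun p hp => by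
      rw [D.congr p x y (hx.2 p hp) ((dvd_DD hp).trans h2)]
  · have hy : ¬ (D.In y ∧ ∀ p ∈ B, ¬ D.e p ∣ y) := fun hy =>
      hx ⟨(In.congr h3).2 hy.1, fun p hp h' => hy.2 p hp ((h4 p hp).1 h')⟩
    rw [chB_of_not hx, chB_of_not hy]

omit [DecidableEq ι] in
theorem chB_per {Q : R} (hQ : D.Mod Q) {ψ : R → ℂ} (hψ : D.Wt Q ψ) (B : Finset ι)
    (t : ι → ZMod 2) (x y : R) : D.chB B t ψ (x + Q * D.DD B * y) = D.chB B t ψ x :=
  chB_congr hQ hψ ⟨y, by ring⟩

/-! ### Existence of a class with a nontrivial value -/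

omit [DecidableEq ι] in
/-- The Chinese remainder theorem. -/
theorem crt (S : Finset ι) (g : ι → R) : ∃ r : R, ∀ p ∈ S, D.e p ∣ r - g p := by
  have h := Ideal.exists_forall_sub_mem_ideal (I := fun p : S => Ideal.span {D.e p.1})
    (fun p q hpq => (Ideal.isCoprime_span_singleton_iff _ _).2
      (D.cop _ _ (D.ne _ _ (fun e => hpq (Subtype.ext e))))) (fun p => g p.1)
  obtain ⟨r, hr⟩ := h
  exact ⟨r, fun p hp => Ideal.mem_span_singleton.1 (hr ⟨p, hp⟩)⟩

omit [DecidableEq ι] in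
/-- Existence of a unit modulo `Q * DD B` with given class and residues. -/
theorem exists_res {Q : R} (hQ : D.Mod Q) (B : Finset ι) (b : R) (hb : D.In b) (g : ι → R)
    (hg : ∀ p ∈ B, ¬ D.e p ∣ g p) :
    ∃ u : R, Q ∣ u - b ∧ (∀ p ∈ B, D.e p ∣ u - g p) ∧
      ∃ v w : R, u * v = 1 + Q * D.DD B * w := by
  obtain ⟨r, hr⟩ := crt (D := D) B g
  obtain ⟨α, β, hαβ⟩ := hQ.cop _ (in_DD (D := D) B)
  have hcls : Q ∣ (r * (β * Q) + b * (α * D.DD B)) - b := by
    refine ⟨r * β - b * β, ?_⟩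
    linear_combination b * hαβ
  have hres : ∀ p ∈ B, D.e p ∣ (r * (β * Q) + b * (α * D.DD B)) - g p := by
    intro p hp
    have h1 : D.e p ∣ D.DD B := dvd_DD hp
    have h3 := dvd_add (hr p hp) (Dvd.dvd.mul_left h1 (b * α - r * α))
    have e : r - g p + (b * α - r * α) * D.DD B = (r * (β * Q) + b * (α * D.DD B)) - g p := by
      linear_combination -r * hαβ
    rwa [e] at h3
  obtain ⟨u, hue⟩ : ∃ u : R, u = r * (β * Q) + b * (α * D.DD B) := ⟨_, rfl⟩
  rw [← hue] at hcls hres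
  have hu : D.In u := (In.congr (hQ.dvd.trans hcls)).2 hb
  refine ⟨u, hcls, hres, ?_⟩
  have hc2 : IsCoprime u (D.DD B) := by
    unfold DD
    apply IsCoprime.prod_right
    intro p hp
    rw [isCoprime_comm]
    refine D.cop _ _ fun h => hg p hp ?_
    have := dvd_sub h (hres p hp)
    rwa [sub_sub_cancel] at this
  obtain ⟨v, w, hvw⟩ := (hQ.cop u hu).mul_right hc2
  exact ⟨v, -w, by linear_combination hvw⟩

/-- A nontrivial character takes a value different from `1`. -/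
theorem chB_exists {Q : R} (hQ : D.Mod Q) {ψ : R → ℂ} (hψ : D.Wt Q ψ) (B : Finset ι)
    (t : ι → ZMod 2) (h : (∃ p ∈ B, t p ≠ 0) ∨ ∃ b, D.In b ∧ ψ b ≠ 1) :
    ∃ (u v w : R) (z : ℂ), u * v = 1 + Q * D.DD B * w ∧ z ≠ 1 ∧
      ∀ x, D.chB B t ψ (u * x) = z * D.chB B t ψ x := by
  obtain ⟨u, hu, hu', ⟨v, w, hvw⟩, hval⟩ : ∃ u : R, D.In u ∧ (∀ p ∈ B, ¬ D.e p ∣ u) ∧
      (∃ v w : R, u * v = 1 + Q * D.DD B * w) ∧ ψ u * (sg (D.cx B t u) : ℝ) ≠ 1 := by
    by_cases hc : ∃ b, D.In b ∧ ψ b ≠ 1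
    · obtain ⟨b, hb, hb1⟩ := hc
      have h0 : ∀ q ∈ B, ¬ D.e q ∣ (1 : R) := fun q _ => not_dvd_one q
      obtain ⟨u, h1, h3, h4⟩ := exists_res hQ B b hb (fun _ => 1) h0
      have hu : D.In u := (In.congr (hQ.dvd.trans h1)).2 hb
      have hn : ∀ q ∈ B, ¬ D.e q ∣ u := by
        intro q hq hd
        apply h0 q hq
        have := dvd_sub hd (h3 q hq)
        rwa [sub_sub_cancel] at this
      refine ⟨u, hu, hn, h4, ?_⟩
      have h7 : D.cx B t u = 0 := by
        unfold cx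
        apply sum_eq_zero
        intro q hq
        rw [D.congr q u 1 (hn q hq) (h3 q hq), D.c_one, mul_zero]
      rw [h7, hψ.per u b hu h1, sg_zero']
      simpa using hb1
    · obtain ⟨p, hp, htp⟩ := h.resolve_right hc
      push Not at hc
      obtain ⟨g, hg0, hg⟩ := D.surj p
      have h0 : ∀ q ∈ B, ¬ D.e q ∣ (if q = p then g else 1) := by
        intro q _
        by_cases hqp : q = p
        · rw [if_pos hqp, hqp]
          exact hg0
        · rw [if_neg hqp]
          exact not_dvd_one q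
      obtain ⟨u, h1, h3, h4⟩ := exists_res hQ B 1 D.in_one (fun q => if q = p then g else 1) h0
      have hu : D.In u := (In.congr (hQ.dvd.trans h1)).2 D.in_one
      have hn : ∀ q ∈ B, ¬ D.e q ∣ u := by
        intro q hq hd
        apply h0 q hq
        have := dvd_sub hd (h3 q hq)
        rwa [sub_sub_cancel] at this
      refine ⟨u, hu, hn, h4, ?_⟩
      have h6 : D.c p u = 1 := by
        rw [D.congr p u _ (hn p hp) (h3 p hp)]
        simp [hg]
      have h7 : ∑ q ∈ B.erase p, t q * D.c q u = 0 := by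
        apply sum_eq_zero
        intro q hq
        rw [mem_erase] at hq
        rw [D.congr q u _ (hn q hq.2) (h3 q hq.2)]
        simp [hq.1, D.c_one]
      have h8 : D.cx B t u = 1 := by
        unfold cx
        rw [← add_sum_erase _ _ hp, h6, h7, mul_one, add_zero]
        have : ∀ x : ZMod 2, x ≠ 0 → x = 1 := by decide
        exact this _ htp
      rw [h8, hc u hu]
      have h9 : sg 1 = -1 := by simp [sg]
      rw [h9]
      norm_num
  refine ⟨u, v, w, ψ u * (sg (D.cx B t u) : ℝ), hvw, hval, fun x => ?_⟩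
  rw [chB_mul hψ B t hu x, chB_of hu hu']

/-- **The mean value of a nontrivial weighted character over discs.** -/
theorem chB_sum [Qi R] {Q : R} (hQ : D.Mod Q) (hQ0 : ∀ B : Finset ι, Q * D.DD B ≠ 0) {ψ : R → ℂ}
    (hψ : D.Wt Q ψ) (B : Finset ι) (t : ι → ZMod 2)
    (h : (∃ p ∈ B, t p ≠ 0) ∨ ∃ b, D.In b ∧ ψ b ≠ 1) (X : ℕ) (hX : 1 ≤ X) :
    ‖∑ x ∈ discG R X, D.chB B t ψ x‖ ≤ 20 * Real.sqrt (nG (Q * D.DD B) * X) := by
  obtain ⟨u, v, w, z, h1, h2, h3⟩ := chB_exists hQ hψ B t h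
  exact sum_discGC' (Q * D.DD B) (hQ0 B) (D.chB B t ψ) (norm_chB_le hψ B t)
    (chB_per hQ hψ B t) u v w h1 z h2 h3 X hX

/-! ### Values at products of primes -/

theorem c_DD {p : ι} {S : Finset ι} (h : p ∉ S) : D.c p (D.DD S) = ∑ q ∈ S, D.c p (D.e q) := by
  induction S using Finset.induction_on with
  | empty =>
    unfold DD
    rw [prod_empty, D.c_one, sum_empty]
  | insert q S hq ih =>
    rw [mem_insert, not_or] at h
    have h1 : D.DD (insert q S) = D.e q * D.DD S := by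
      unfold DD
      rw [prod_insert hq]
    rw [h1, D.mul p _ _ (D.ne p q h.1) (fun h' => h.2 (dvd_DD_iff.1 h')), ih h.2, sum_insert hq]

omit [DecidableEq ι] in
theorem wt_DD {Q : R} {ψ : R → ℂ} (hψ : D.Wt Q ψ) (S : Finset ι) :
    ψ (D.DD S) = ∏ q ∈ S, ψ (D.e q) := by
  classical
  induction S using Finset.induction_on with
  | empty =>
    unfold DD
    rw [prod_empty, prod_empty, hψ.one]
  | insert q S hq ih =>
    have h1 : D.DD (insert q S) = D.e q * D.DD S := by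
      unfold DD
      rw [prod_insert hq]
    rw [h1, hψ.mul _ _ (D.prim q) (in_DD S), ih, prod_insert hq]

/-- The value at a prime outside of `B`. -/
theorem chB_q {B : Finset ι} {t : ι → ZMod 2} {ψ : R → ℂ} {q : ι} (h : q ∉ B) :
    D.chB B t ψ (D.e q) = ψ (D.e q) * (sg (∑ p ∈ B, t p * D.c p (D.e q)) : ℝ) := by
  rw [chB_of (D.prim q) fun p hp => D.ne p q fun e => h (e ▸ hp)]
  rfl

omit [DecidableEq ι] in
/-- The value at a prime of `B`. -/
theorem chB_mem {B : Finset ι} {t : ι → ZMod 2} {ψ : R → ℂ} {q : ι} (h : q ∈ B) :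
    D.chB B t ψ (D.e q) = 0 := chB_of_not fun h' => h'.2 q h (dvd_refl _)

/-- The value at a squarefree element. -/
theorem chB_DD {Q : R} {ψ : R → ℂ} (hψ : D.Wt Q ψ) (B : Finset ι) (t : ι → ZMod 2)
    (S : Finset ι) :
    D.chB B t ψ (D.DD S) = if Disjoint S B then
      ∏ q ∈ S, (ψ (D.e q) * (sg (∑ p ∈ B, t p * D.c p (D.e q)) : ℝ)) else 0 := by
  split_ifs with h
  · have h1 : ∀ p ∈ B, p ∉ S := fun p hp hpS => (Finset.disjoint_left.1 h) hpS hp
    rw [chB_of (in_DD S) fun p hp h' => h1 p hp (dvd_DD_iff.1 h'), prod_mul_distrib, wt_DD hψ]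
    congr 1
    unfold cx
    rw [← Complex.ofReal_prod, ← sgD_sum]
    congr 2
    rw [sum_comm]
    refine sum_congr rfl fun p hp => ?_
    rw [c_DD (h1 p hp), mul_sum]
  · apply chB_of_not
    rintro ⟨_, h'⟩
    apply h
    rw [Finset.disjoint_left]
    intro p hpS hpB
    exact h' p hpB (dvd_DD hpS)

end QSys

end

end Pool.Agent.Lib.MP_1a91b9_ntR
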