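import Pool.Agent.Lib.MP_1a91b9_ntR.Eul
import Pool.Agent.Lib.MP_1a91b9_ntH.R.Bij

/-!
# MP_1a91b9_nt generic part R: sums over squarefree elements

For a system `D : PrmG ι` of normalised primes of `R`: `D.dd S` is the product of the primes in `S`.
The sums of a multiplicative function over the squarefree elements (`sqf_diff`), mean values
(`mean_zero`) and the number of the squarefree elements (`card_ge`, `card_le`).
-/

set_option autoImplicit false

namespace Pool.Agent.Lib.MP_1a91b9_ntR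

open Finset
open Pool.Agent.Lib.MP_1a91b9_ntH (PS nm pr mem_pr Zt CharB one_le_nm Sx mem_Sx)

noncomputable section

variable {R : Type} [CommRing R] [IsDomain R] [IsPrincipalIdealRing R] [Qi R]

theorem nG_dvd {x y : R} (h : x ∣ y) : nG x ∣ nG y := by
  obtain ⟨z, rfl⟩ := h
  exact ⟨nG z, nG_mul x z⟩

theorem nG_pow (x : R) (n : ℕ) : nG (x ^ n) = nG x ^ n := by
  induction n with
  | zero => simp [nG_one]
  | succ n ih => rw [pow_succ, pow_succ, nG_mul, ih]

theorem nG_pos' {x : R} (h : x ≠ 0) : 0 < nG x :=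
  Nat.pos_of_ne_zero fun h1 => h (nG_eq_zero.1 h1)

/-- The number of the residue classes is the norm. -/
class GauQ (R : Type) [CommRing R] [Qi R] : Prop where
  card_quot : ∀ x : R, Nat.card (R ⧸ Ideal.span {x}) = nG x

namespace PrmG

variable {ι : Type} [DecidableEq ι] [PS ι] (D : PrmG R ι)

/-- The product of the primes in `S`. -/
def dd (S : Finset ι) : R := ∏ q ∈ S, D.e q

theorem dd_empty : D.dd ∅ = 1 := prod_empty

theorem dd_insert {q : ι} {S : Finset ι} (h : q ∉ S) : D.dd (insert q S) = D.e q * D.dd S :=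
  prod_insert h

theorem dd_P (S : Finset ι) : D.P (D.dd S) := by
  induction S using Finset.induction_on with
  | empty =>
    rw [dd_empty]
    exact D.one
  | insert q S hq ih =>
    rw [dd_insert _ hq]
    exact (D.mul_iff _ _).2 ih

theorem nG_dd (S : Finset ι) : nG (D.dd S) = nm S := by
  induction S using Finset.induction_on with
  | empty =>
    rw [dd_empty]
    exact nG_one
  | insert q S hq ih =>
    rw [dd_insert _ hq, nG_mul, ih, nm, nm, prod_insert hq, D.N_eq]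

theorem e_ne_zero (q : ι) : D.e q ≠ 0 := (D.prime q).ne_zero

theorem dd_ne_zero (S : Finset ι) : D.dd S ≠ 0 := prod_ne_zero_iff.2 fun q _ => D.e_ne_zero q

theorem dvd_dd {q : ι} {S : Finset ι} : D.e q ∣ D.dd S ↔ q ∈ S := by
  constructor
  · intro h
    obtain ⟨p, hp, hqp⟩ := ((D.prime q).dvd_finsetProd_iff _).1 h
    by_contra hq
    exact D.ndvd q p (fun e : q = p => hq (by rw [e]; exact hp)) hqp
  · intro h
    exact dvd_prod_of_mem (fun q : ι => D.e q) h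

theorem dd_inj : Function.Injective D.dd := by
  intro S T h
  ext q
  rw [← D.dvd_dd, ← D.dvd_dd, h]

theorem dd_squarefree (S : Finset ι) : Squarefree (D.dd S) := by
  rw [squarefree_iff_no_irreducibles (D.dd_ne_zero S)]
  intro p hp hpp
  have hp' : Prime p := hp.prime
  have h1 : p ∣ D.dd S := (dvd_mul_right _ _).trans hpp
  obtain ⟨q, hq, hpq⟩ := (hp'.dvd_finsetProd_iff _).1 h1
  have h2 : Associated p (D.e q) := hp'.associated_of_dvd (D.prime q) hpq
  have h3 : D.e q * D.e q ∣ D.dd S := (h2.symm.mul_mul h2.symm).dvd.trans hpp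
  rw [← insert_erase hq, dd_insert _ (notMem_erase q S)] at h3
  have h4 : D.e q ∣ D.dd (S.erase q) := (mul_dvd_mul_iff_left (D.e_ne_zero q)).1 h3
  exact notMem_erase q S (D.dvd_dd.1 h4)

/-- Unique factorisation. -/
theorem exists_dd' {x : R} (hx : D.P x) (h0 : x ≠ 0) (hs : ∀ q, ¬ D.e q ^ 2 ∣ x) :
    ∃ S : Finset ι, D.dd S = x := by
  obtain ⟨n, hn⟩ : ∃ n, nG x = n := ⟨_, rfl⟩
  induction n using Nat.strong_induction_on generalizing x with
  | _ n ih =>
    by_cases h1 : x = 1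
    · exact ⟨∅, by rw [dd_empty, h1]⟩
    · obtain ⟨q, y, hy⟩ := D.ex x hx h1
      have h2 : D.P y := (D.mul_iff q y).1 (hy ▸ hx)
      have hy0 : y ≠ 0 := fun h => h0 (by rw [hy, h, mul_zero])
      have h3 : ∀ q, ¬ D.e q ^ 2 ∣ y := fun q h => hs q (h.trans ⟨_, by rw [hy, mul_comm]⟩)
      have h4 : nG y < n := by
        rw [← hn, hy, nG_mul]
        have h5 := D.two_le q
        nlinarith [nG_pos' hy0]
      obtain ⟨S, hS⟩ := ih _ h4 h2 hy0 h3 rfl
      have h5 : q ∉ S := by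
        intro hq
        have h6 : D.e q ∣ y := hS ▸ D.dvd_dd.2 hq
        apply hs q
        rw [hy, pow_two]
        exact mul_dvd_mul_left _ h6
      exact ⟨insert q S, by rw [dd_insert _ h5, hS, hy]⟩

theorem exists_dd {x : R} (hx : D.P x) (hs : Squarefree x) : ∃ S : Finset ι, D.dd S = x := by
  refine D.exists_dd' hx hs.ne_zero fun q h => ?_
  rw [pow_two] at h
  exact (D.prime q).not_unit (hs _ h)

theorem exists_sq {x : R} (hx : D.P x) (h0 : x ≠ 0) (h : ¬ Squarefree x) :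
    ∃ q, D.e q ^ 2 ∣ x := by
  by_contra hc
  push Not at hc
  obtain ⟨S, rfl⟩ := D.exists_dd' hx h0 hc
  exact h (D.dd_squarefree S)

theorem coprime_e {p q : ι} (h : p ≠ q) : IsCoprime (D.e p) (D.e q) :=
  ((D.prime p).irreducible.coprime_iff_not_dvd).2 (D.ndvd p q h)

theorem dd_sq_dvd_iff (S : Finset ι) (x : R) :
    D.dd S ^ 2 ∣ x ↔ ∀ p ∈ S, D.e p ^ 2 ∣ x := by
  constructor
  · intro h p hp
    exact (pow_dvd_pow_of_dvd (dvd_prod_of_mem (fun q : ι => D.e q) hp) 2).trans h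
  · intro h
    have e : D.dd S ^ 2 = ∏ q ∈ S, D.e q ^ 2 := by
      unfold dd
      rw [prod_pow]
    rw [e]
    exact Finset.prod_dvd_of_coprime (fun p _ q _ hpq => (D.coprime_e hpq).pow) h

open Classical in
theorem sum_Sx (F : R → ℂ) (hF : ∀ x, ¬ D.P x → F x = 0) (X : ℕ) :
    ∑ S ∈ Sx ι X, F (D.dd S) = ∑ x ∈ (discG R X).filter (fun x => Squarefree x), F x := by
  refine Finset.sum_of_injOn D.dd D.dd_inj.injOn ?_ ?_ (fun S _ => rfl)
  · intro S hS
    have hS' : S ∈ Sx ι X := hS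
    rw [mem_coe, mem_filter, mem_discG, D.nG_dd]
    exact ⟨mem_Sx.1 hS', D.dd_squarefree S⟩
  · intro x hx hn
    rw [mem_filter, mem_discG] at hx
    by_cases h : D.P x
    · exfalso
      obtain ⟨S, rfl⟩ := D.exists_dd h hx.2
      apply hn
      refine ⟨S, ?_, rfl⟩
      rw [mem_coe, mem_Sx, ← D.nG_dd]
      exact hx.1
    · exact hF x h

variable {D}

/-- The products of normalised primes. -/
inductive Pr (D : PrmG R ι) : R → Prop
  | one : Pr D 1
  | mul (q : ι) (b : R) : Pr D b → Pr D (D.e q * b)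

theorem Pr.P {b : R} (h : Pr D b) : D.P b := by
  induction h with
  | one => exact D.one
  | mul q b _ ih => exact (D.mul_iff q b).2 ih

theorem Pr.ne {b : R} (h : Pr D b) : b ≠ 0 := by
  induction h with
  | one => exact one_ne_zero
  | mul q b _ ih => exact mul_ne_zero (D.e_ne_zero q) ih

theorem Pr.mul_iff {b : R} (h : Pr D b) (y : R) : D.P (b * y) ↔ D.P y := by
  induction h with
  | one => rw [one_mul]
  | mul q b _ ih => rw [mul_assoc, D.mul_iff, ih]

theorem Pr.map {F : R → ℂ} (hF : MulG D F) {b : R} (h : Pr D b) (y : R) :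
    F (b * y) = F b * F y := by
  induction h with
  | one => rw [one_mul, hF.one, one_mul]
  | mul q b hb ih =>
    by_cases hy : D.P y
    · rw [mul_assoc, hF.mul q _ ((hb.mul_iff y).2 hy), ih, hF.mul q _ hb.P, mul_assoc]
    · rw [hF.zero y hy, hF.zero _ (fun h => hy (((Pr.mul q b hb).mul_iff y).1 h)), mul_zero]

theorem pr_mul {b c : R} (hb : Pr D b) (hc : Pr D c) : Pr D (b * c) := by
  induction hb with
  | one => rwa [one_mul]
  | mul q b _ ih =>
    rw [mul_assoc]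
    exact Pr.mul q _ ih

theorem pr_dd (S : Finset ι) : Pr D (D.dd S) := by
  induction S using Finset.induction_on with
  | empty =>
    rw [dd_empty]
    exact Pr.one
  | insert q S hq ih =>
    rw [dd_insert _ hq]
    exact Pr.mul q _ ih

theorem pr_e_sq (q : ι) : Pr D (D.e q ^ 2) := by
  have h : D.e q ^ 2 = D.e q * (D.e q * 1) := by ring
  rw [h]
  exact Pr.mul q _ (Pr.mul q _ Pr.one)

theorem pr_dd_sq (S : Finset ι) : Pr D (D.dd S ^ 2) := by
  rw [pow_two]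
  exact pr_mul (pr_dd S) (pr_dd S)

open Classical in
theorem sum_dvd {F : R → ℂ} (hF : MulG D F) {b : R} (hb : Pr D b) (X : ℕ) :
    ∑ y ∈ (discG R X).filter (fun y => b ∣ y), F y =
      F b * ∑ x ∈ discG R (X / nG b), F x := by
  have hN : 0 < nG b := nG_pos' hb.ne
  rw [mul_sum]
  symm
  refine Finset.sum_of_injOn (fun x => b * x) (mul_right_injective₀ hb.ne).injOn ?_ ?_ ?_
  · intro x hx
    rw [mem_coe, mem_discG, Nat.le_div_iff_mul_le hN] at hx
    rw [mem_coe, mem_filter, mem_discG, nG_mul]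
    exact ⟨by rw [mul_comm]; exact hx, dvd_mul_right _ _⟩
  · intro y hy hn
    exfalso
    rw [mem_filter, mem_discG] at hy
    obtain ⟨x, rfl⟩ := hy.2
    apply hn
    refine ⟨x, ?_, rfl⟩
    rw [mem_coe, mem_discG, Nat.le_div_iff_mul_le hN, mul_comm, ← nG_mul]
    exact hy.1
  · intro x _
    change F b * F x = F (b * x)
    rw [hb.map hF x]

theorem nG_dd_sq (T : Finset ι) : nG (D.dd T ^ 2) = nm T ^ 2 := by
  rw [nG_pow, D.nG_dd]

open Classical in
/-- Inclusion and exclusion. -/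
theorem sieve_sq {F : R → ℂ} (hF : MulG D F) (s : Finset ι) (X : ℕ) :
    ∑ T ∈ s.powerset, (-1 : ℂ) ^ T.card * F (D.dd T ^ 2) *
      ∑ x ∈ discG R (X / nm T ^ 2), F x =
    ∑ y ∈ (discG R X).filter (fun y => ∀ q ∈ s, ¬ D.e q ^ 2 ∣ y), F y := by
  have h1 : ∀ T ∈ s.powerset, (-1 : ℂ) ^ T.card * F (D.dd T ^ 2) *
      ∑ x ∈ discG R (X / nm T ^ 2), F x =
      ∑ y ∈ discG R X, if D.dd T ^ 2 ∣ y then (-1 : ℂ) ^ T.card * F y else 0 := by
    intro T _
    rw [mul_assoc, ← nG_dd_sq (D := D), ← sum_dvd hF (pr_dd_sq T), mul_sum, sum_filter]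
  rw [sum_congr rfl h1, sum_comm, sum_filter]
  refine sum_congr rfl fun y _ => ?_
  rw [← sum_filter, ← sum_mul]
  have h2 : s.powerset.filter (fun T => D.dd T ^ 2 ∣ y) =
      (s.filter fun q => D.e q ^ 2 ∣ y).powerset := by
    ext T
    rw [mem_filter, mem_powerset, mem_powerset, D.dd_sq_dvd_iff, subset_iff, subset_iff]
    constructor
    · rintro ⟨h, h'⟩ q hq
      exact mem_filter.2 ⟨h hq, h' q hq⟩
    · intro h
      exact ⟨fun q hq => (mem_filter.1 (h hq)).1, fun q hq => (mem_filter.1 (h hq)).2⟩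
  have h3 : ∑ T ∈ (s.filter fun q => D.e q ^ 2 ∣ y).powerset, (-1 : ℂ) ^ T.card =
      if (s.filter fun q => D.e q ^ 2 ∣ y) = ∅ then 1 else 0 := by
    have h := Finset.sum_powerset_neg_one_pow_card (x := s.filter fun q => D.e q ^ 2 ∣ y)
    have h' := congrArg (fun z : ℤ => (z : ℂ)) h
    push_cast at h'
    exact h'
  rw [h2, h3]
  by_cases h : ∀ q ∈ s, ¬ D.e q ^ 2 ∣ y
  · rw [if_pos h, if_pos (filter_eq_empty_iff.2 h), one_mul]
  · rw [if_neg h, if_neg (fun h' => h (filter_eq_empty_iff.1 h')), zero_mul]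

theorem disc_zero {x : R} (h : x ∈ discG R 0) : x = 0 := by
  rw [mem_discG] at h
  exact nG_eq_zero.1 (by omega)

theorem sum_disc_zero (h0 : ¬ D.P 0) {F : R → ℂ} (hF : MulG D F) :
    ∑ x ∈ discG R 0, F x = 0 :=
  sum_eq_zero fun x hx => by rw [disc_zero hx]; exact hF.zero 0 h0

/-- The number of the elements divisible by a square. -/
theorem card_dvd_le (q : ι) (X : ℕ) (h0 : ¬ D.P 0)
    [DecidablePred fun y : R => D.P y ∧ D.e q ^ 2 ∣ y] :
    (((discG R X).filter (fun y => D.P y ∧ D.e q ^ 2 ∣ y)).card : ℝ) ≤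
      25 * (X * ((nG (D.e q) : ℝ) ^ (-(2 : ℝ)))) := by
  classical
  have hN : 0 < nG (D.e q ^ 2) := nG_pos' (pow_ne_zero 2 (D.e_ne_zero q))
  have h1 : ((discG R X).filter (fun y => D.P y ∧ D.e q ^ 2 ∣ y)).card ≤
      ((discG R (X / nG (D.e q ^ 2))).filter fun x => x ≠ 0).card := by
    refine card_le_card_of_surjOn (fun x => D.e q ^ 2 * x) ?_
    intro y hy
    rw [mem_coe, mem_filter, mem_discG] at hy
    obtain ⟨x, rfl⟩ := hy.2.2
    refine ⟨x, ?_, rfl⟩
    rw [mem_coe, mem_filter, mem_discG, Nat.le_div_iff_mul_le hN, mul_comm, ← nG_mul]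
    refine ⟨hy.1, ?_⟩
    rintro rfl
    rw [mul_zero] at hy
    exact h0 hy.2.1
  rcases Nat.eq_zero_or_pos (X / nG (D.e q ^ 2)) with h2 | h2
  · rw [h2] at h1
    have h3 : (discG R 0).filter (fun x => x ≠ 0) = ∅ := by
      rw [filter_eq_empty_iff]
      intro x hx h
      exact h (disc_zero hx)
    rw [h3, card_empty] at h1
    have h4 : (((discG R X).filter (fun y => D.P y ∧ D.e q ^ 2 ∣ y)).card : ℝ) = 0 := by
      exact_mod_cast Nat.le_zero.1 h1
    rw [h4]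
    positivity
  · have h3 := h1.trans ((card_filter_le _ _).trans (card_discG_le' (R := R) _ h2))
    have h4 : (((discG R X).filter (fun y => D.P y ∧ D.e q ^ 2 ∣ y)).card : ℝ) ≤
        25 * ((X / nG (D.e q ^ 2) : ℕ) : ℝ) := by exact_mod_cast h3
    refine h4.trans ?_
    have h5 : ((X / nG (D.e q ^ 2) : ℕ) : ℝ) ≤ X / (nG (D.e q) : ℝ) ^ 2 := by
      have := @Nat.cast_div_le ℝ _ _ _ X (nG (D.e q ^ 2))
      rw [nG_pow] at this ⊢
      push_cast at this
      exact this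
    have h6 : (nG (D.e q) : ℝ) ^ (-(2 : ℝ)) = 1 / (nG (D.e q) : ℝ) ^ 2 := by
      rw [Real.rpow_neg (Nat.cast_nonneg _), one_div]
      norm_cast
    rw [h6]
    calc (25 : ℝ) * ((X / nG (D.e q ^ 2) : ℕ) : ℝ) ≤ 25 * (X / (nG (D.e q) : ℝ) ^ 2) := by gcongr
      _ = 25 * (X * (1 / (nG (D.e q) : ℝ) ^ 2)) := by ring

theorem tail (D : PrmG R ι) (ε : ℝ) (hε : 0 < ε) : ∃ Y : ℕ, ∀ s : Finset ι,
    (∀ q ∈ s, Y < nG (D.e q)) → ∑ q ∈ s, (nG (D.e q) : ℝ) ^ (-(2 : ℝ)) ≤ ε := by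
  classical
  have hs := summable_nG R 2 (by norm_num)
  obtain ⟨A, hA⟩ := summable_iff_vanishing_norm.1 hs ε hε
  refine ⟨∑ x ∈ A, nG x, fun s hs => ?_⟩
  have h2 := hA (s.image D.e) (by
    rw [disjoint_left]
    intro x hx hxA
    obtain ⟨q, hq, rfl⟩ := mem_image.1 hx
    have h3 := hs q hq
    have h4 : nG (D.e q) ≤ ∑ x ∈ A, nG x := single_le_sum (fun _ _ => Nat.zero_le _) hxA
    omega)
  rw [sum_image D.e_inj.injOn] at h2
  exact ((le_abs_self _).trans h2.le)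

/-- The squarefree sums and the sums over the elements not divisible by the square of a prime in a
finite set. -/
theorem sqf_diff (h0 : ¬ D.P 0) (F : R → ℂ) (hF : MulG D F) (ε : ℝ) (hε : 0 < ε) :
    ∃ s : Finset ι, ∀ X : ℕ,
    ‖∑ S ∈ Sx ι X, F (D.dd S) - ∑ T ∈ s.powerset, (-1 : ℂ) ^ T.card * F (D.dd T ^ 2) *
      ∑ x ∈ discG R (X / nm T ^ 2), F x‖ ≤ ε * X := by
  classical
  obtain ⟨Y, hY⟩ := tail D (ε / 25) (by positivity)
  refine ⟨pr ι Y, fun X => ?_⟩
  rw [sieve_sq hF, D.sum_Sx F hF.zero, sum_filter, sum_filter, ← sum_sub_distrib]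
  have hpt : ∀ x ∈ discG R X,
      ‖(if Squarefree x then F x else 0) - (if ∀ q ∈ pr ι Y, ¬ D.e q ^ 2 ∣ x then F x else 0)‖ ≤
      ∑ q ∈ pr ι X \ pr ι Y, if D.P x ∧ D.e q ^ 2 ∣ x then (1 : ℝ) else 0 := by
    intro x hx
    rw [mem_discG] at hx
    have hnn : ∀ q ∈ pr ι X \ pr ι Y, (0 : ℝ) ≤ if D.P x ∧ D.e q ^ 2 ∣ x then (1 : ℝ) else 0 := by
      intro q _
      split_ifs
      · exact zero_le_one
      · exact le_rfl
    by_cases hP : D.P x
    · have hx0 : x ≠ 0 := fun h => h0 (h ▸ hP)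
      by_cases hs : Squarefree x
      · have h2 : ∀ q ∈ pr ι Y, ¬ D.e q ^ 2 ∣ x := by
          intro q _ h
          rw [pow_two] at h
          exact (D.prime q).not_unit (hs (D.e q) h)
        rw [if_pos hs, if_pos h2, sub_self, norm_zero]
        exact sum_nonneg hnn
      · rw [if_neg hs]
        by_cases h2 : ∀ q ∈ pr ι Y, ¬ D.e q ^ 2 ∣ x
        · rw [if_pos h2, zero_sub, norm_neg]
          obtain ⟨q, hq⟩ := D.exists_sq hP hx0 hs
          have hq1 : q ∉ pr ι Y := fun h => h2 q h hq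
          have hq2 : q ∈ pr ι X := by
            rw [mem_pr, D.N_eq]
            have h3 := Nat.le_of_dvd (nG_pos' hx0) (nG_dvd hq)
            rw [nG_pow] at h3
            have h4 := D.two_le q
            nlinarith
          refine le_trans ?_ (single_le_sum hnn (mem_sdiff.2 ⟨hq2, hq1⟩))
          rw [if_pos ⟨hP, hq⟩]
          exact hF.le x
        · rw [if_neg h2, sub_self, norm_zero]
          exact sum_nonneg hnn
    · rw [hF.zero x hP]
      simp only [ite_self, sub_self, norm_zero]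
      exact sum_nonneg hnn
  refine (norm_sum_le _ _).trans ((sum_le_sum hpt).trans ?_)
  rw [sum_comm]
  have h5 : ∀ q ∈ pr ι X \ pr ι Y,
      (∑ x ∈ discG R X, if D.P x ∧ D.e q ^ 2 ∣ x then (1 : ℝ) else 0) ≤
        25 * (X * ((nG (D.e q) : ℝ) ^ (-(2 : ℝ)))) := by
    intro q _
    rw [← sum_filter, sum_const, nsmul_eq_mul, mul_one]
    exact card_dvd_le q X h0
  refine (sum_le_sum h5).trans ?_
  rw [← mul_sum, ← mul_sum]
  have h6 := hY (pr ι X \ pr ι Y) (fun q hq => by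
    rw [mem_sdiff, mem_pr, mem_pr, D.N_eq] at hq
    exact not_le.1 hq.2)
  have hX : (0 : ℝ) ≤ X := Nat.cast_nonneg X
  calc (25 : ℝ) * (X * ∑ q ∈ pr ι X \ pr ι Y, (nG (D.e q) : ℝ) ^ (-(2 : ℝ))) ≤
        25 * (X * (ε / 25)) := by
        gcongr
    _ = ε * X := by ring

/-- A multiplicative function with small sums over the discs has mean value zero on the squarefree
elements. -/
theorem mean_zero (h0 : ¬ D.P 0) (F : R → ℂ) (hF : MulG D F) {B : ℝ} (hB : 0 ≤ B)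
    (hsum : ∀ X : ℕ, 1 ≤ X → ‖∑ x ∈ discG R X, F x‖ ≤ B * Real.sqrt X) (ε : ℝ) (hε : 0 < ε) :
    ∃ X₀ : ℕ, ∀ X : ℕ, X₀ ≤ X → ‖∑ S ∈ Sx ι X, F (D.dd S)‖ ≤ ε * X := by
  obtain ⟨s, hs⟩ := sqf_diff h0 F hF (ε / 2) (by positivity)
  obtain ⟨M, hM⟩ := exists_nat_gt ((2 * (2 ^ s.card * B) / ε) ^ 2)
  refine ⟨M, fun X hX => ?_⟩
  have h1 := hs X
  have hnn : (0 : ℝ) ≤ 2 * (2 ^ s.card * B) / ε := by positivity
  have h2 : ‖∑ T ∈ s.powerset, (-1 : ℂ) ^ T.card * F (D.dd T ^ 2) *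
      ∑ x ∈ discG R (X / nm T ^ 2), F x‖ ≤ 2 ^ s.card * B * Real.sqrt X := by
    refine (norm_sum_le _ _).trans ?_
    have h3 : ∀ T ∈ s.powerset, ‖(-1 : ℂ) ^ T.card * F (D.dd T ^ 2) *
        ∑ x ∈ discG R (X / nm T ^ 2), F x‖ ≤ B * Real.sqrt X := by
      intro T _
      rw [norm_mul, norm_mul, norm_pow, norm_neg, norm_one, one_pow, one_mul]
      have h4 : ‖F (D.dd T ^ 2)‖ ≤ 1 := hF.le _
      have h5 : ‖∑ x ∈ discG R (X / nm T ^ 2), F x‖ ≤ B * Real.sqrt X := by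
        rcases Nat.eq_zero_or_pos (X / nm T ^ 2) with h0' | h0'
        · rw [h0', sum_disc_zero h0 hF, norm_zero]
          positivity
        · refine (hsum _ h0').trans ?_
          gcongr
          exact Nat.div_le_self X _
      calc ‖F (D.dd T ^ 2)‖ * ‖∑ x ∈ discG R (X / nm T ^ 2), F x‖
          ≤ 1 * (B * Real.sqrt X) := mul_le_mul h4 h5 (norm_nonneg _) zero_le_one
        _ = _ := one_mul _
    refine (sum_le_sum h3).trans ?_
    rw [sum_const, card_powerset, nsmul_eq_mul]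
    push_cast
    rw [mul_assoc]
  have h6 : 2 * (2 ^ s.card * B) / ε ≤ Real.sqrt X := by
    apply Real.le_sqrt_of_sq_le
    have : (M : ℝ) ≤ X := by exact_mod_cast hX
    linarith
  have h7 : 2 ^ s.card * B * Real.sqrt X ≤ ε / 2 * X := by
    rw [div_le_iff₀ hε] at h6
    have h8 : Real.sqrt X * Real.sqrt X = X := Real.mul_self_sqrt (Nat.cast_nonneg X)
    nlinarith [Real.sqrt_nonneg (X : ℝ)]
  have h9 : ∑ S ∈ Sx ι X, F (D.dd S) = (∑ S ∈ Sx ι X, F (D.dd S) -
      ∑ T ∈ s.powerset, (-1 : ℂ) ^ T.card * F (D.dd T ^ 2) *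
      ∑ x ∈ discG R (X / nm T ^ 2), F x) + ∑ T ∈ s.powerset, (-1 : ℂ) ^ T.card *
      F (D.dd T ^ 2) * ∑ x ∈ discG R (X / nm T ^ 2), F x := by ring
  rw [h9]
  refine (norm_add_le _ _).trans ?_
  linarith

/-- There are at most `25 X` squarefree elements of norm at most `X`. -/
theorem card_le (D : PrmG R ι) (X : ℕ) : ((Sx ι X).card : ℝ) ≤ 25 * X := by
  classical
  rcases Nat.eq_zero_or_pos X with rfl | hX
  · have h : Sx ι 0 = ∅ := by
      rw [eq_empty_iff_forall_notMem]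
      intro S hS
      rw [mem_Sx] at hS
      have := one_le_nm S
      omega
    rw [h]
    simp
  · have h1 : (Sx ι X).card ≤ (discG R X).card := by
      refine card_le_card_of_injOn D.dd ?_ D.dd_inj.injOn
      intro S hS
      have hS' : S ∈ Sx ι X := hS
      rw [mem_coe, mem_discG, D.nG_dd]
      exact mem_Sx.1 hS'
    exact_mod_cast h1.trans (card_discG_le' (R := R) X hX)

/-- The normalised elements are given by a condition modulo `m`, and prime to `m`. -/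
structure Md (D : PrmG R ι) (m : R) : Prop where
  ne : m ≠ 0
  h0 : ¬ D.P 0
  cop : ∀ x, D.P x → IsCoprime m x
  con : ∀ x y, m ∣ x - y → D.P x → D.P y

theorem Md.iff {m : R} (h : Md D m) {x y : R} (hxy : m ∣ x - y) : D.P x ↔ D.P y := by
  refine ⟨h.con x y hxy, h.con y x ?_⟩
  rw [← neg_sub]
  exact (dvd_neg).2 hxy

open Classical in
/-- The number of the normalised elements of norm at most `X`. -/
def PX (D : PrmG R ι) (X : ℕ) : ℕ := ((discG R X).filter fun x => D.P x).card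

theorem sum_ind (X : ℕ) : ∑ x ∈ discG R X, D.ind x = (PX D X : ℂ) := by
  classical
  unfold PX PrmG.ind
  rw [← sum_filter, sum_const, nsmul_eq_mul, mul_one]

/-- The error term. -/
def Er (m X : ℕ) : ℕ := 2 * Nat.sqrt m * (4 * Nat.sqrt X + 1)

theorem coprime_b {m : R} (h : Md D m) {b : R} (hb : D.P b) : IsCoprime m b := h.cop b hb

/-- The Chinese remainder theorem. -/
theorem dvd_iff {m : R} (h : Md D m) {b : R} (hb : D.P b) (t r : R) :
    ∃ z : R, ∀ y, m * b ∣ y - z ↔ m ∣ y - t ∧ b ∣ y - r := by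
  obtain ⟨u, v, huv⟩ := coprime_b h hb
  refine ⟨r * (u * m) + t * (v * b), fun y => ?_⟩
  have e1 : y - (r * (u * m) + t * (v * b)) = (y - t) - m * (u * (r - t)) := by
    linear_combination -t * huv
  have e2 : y - (r * (u * m) + t * (v * b)) = (y - r) - b * (v * (t - r)) := by
    linear_combination -r * huv
  have h1 : (m ∣ y - (r * (u * m) + t * (v * b))) ↔ m ∣ y - t := by
    rw [e1]
    exact dvd_sub_left (dvd_mul_right _ _)
  have h2 : (b ∣ y - (r * (u * m) + t * (v * b))) ↔ b ∣ y - r := by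
    rw [e2]
    exact dvd_sub_left (dvd_mul_right _ _)
  constructor
  · intro h3
    exact ⟨h1.1 ((dvd_mul_right _ _).trans h3), h2.1 ((dvd_mul_left _ _).trans h3)⟩
  · rintro ⟨h3, h4⟩
    exact (coprime_b h hb).mul_dvd (h1.2 h3) (h2.2 h4)

open Classical in
/-- The number of the normalised elements of norm at most `X` in a residue class. -/
def cnt (D : PrmG R ι) (b : R) (X : ℕ) (r : R) : ℕ :=
  ((discG R X).filter fun y => D.P y ∧ b ∣ y - r).card

theorem cnt_zero {b : R} (hb : Pr D b) (X : ℕ) : cnt D b X 0 = PX D (X / nG b) := by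
  classical
  have h := sum_dvd D.ind_mulC hb X
  have hb1 : D.ind b = 1 := if_pos hb.P
  rw [hb1, one_mul, sum_ind] at h
  have h1 : ∑ y ∈ (discG R X).filter (fun y => b ∣ y), D.ind y = (cnt D b X 0 : ℂ) := by
    unfold PrmG.ind cnt
    rw [← sum_filter, sum_const, nsmul_eq_mul, mul_one, filter_filter]
    congr 2
    apply filter_congr
    intro y _
    rw [sub_zero, and_comm]
  rw [h1] at h
  exact_mod_cast h

variable [GauQ R]

instance finite_quot (b : R) [NeZero b] : Finite (R ⧸ Ideal.span {b}) := by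
  apply Nat.finite_of_card_ne_zero
  rw [GauQ.card_quot]
  exact fun h => NeZero.ne b (nG_eq_zero.1 h)

theorem cnt_le {m : R} (hm : Md D m) {b : R} (hb : D.P b) (hb0 : b ≠ 0) (X : ℕ) (r s : R) :
    cnt D b X r ≤ cnt D b X s + nG m * Er (nG m * nG b) X := by
  classical
  have : NeZero m := ⟨hm.ne⟩
  let _ : Fintype (R ⧸ Ideal.span {m}) := Fintype.ofFinite _
  have hcard : Fintype.card (R ⧸ Ideal.span {m}) = nG m := by
    rw [← Nat.card_eq_fintype_card, GauQ.card_quot]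
  have hmk : ∀ x y : R, Ideal.Quotient.mk (Ideal.span {m}) x = Ideal.Quotient.mk (Ideal.span {m}) y ↔
      m ∣ x - y := by
    intro x y
    rw [Ideal.Quotient.eq, Ideal.mem_span_singleton]
  have hdec : ∀ r : R, cnt D b X r = ∑ z : R ⧸ Ideal.span {m},
      ((discG R X).filter fun y => (D.P y ∧ b ∣ y - r) ∧
        Ideal.Quotient.mk (Ideal.span {m}) y = z).card := by
    intro r
    unfold cnt
    rw [card_eq_sum_card_fiberwise (f := fun y => Ideal.Quotient.mk (Ideal.span {m}) y)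
      (t := univ) (fun _ _ => mem_coe.2 (mem_univ _))]
    refine sum_congr rfl fun z _ => ?_
    rw [filter_filter]
  rw [hdec r, hdec s]
  have hsum : ∑ _z : R ⧸ Ideal.span {m}, Er (nG m * nG b) X = nG m * Er (nG m * nG b) X := by
    rw [sum_const, smul_eq_mul, card_univ, hcard]
  rw [← hsum, ← sum_add_distrib]
  refine sum_le_sum fun z _ => ?_
  obtain ⟨t, rfl⟩ := Ideal.Quotient.mk_surjective z
  by_cases ht : D.P t
  · obtain ⟨z1, hz1⟩ := dvd_iff hm hb t r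
    obtain ⟨z2, hz2⟩ := dvd_iff hm hb t s
    have h := class_discG (m * b) (mul_ne_zero hm.ne hb0) z1 z2 X
    simp only [hz1, hz2] at h
    rw [nG_mul] at h
    have e : ∀ w : R, ((discG R X).filter fun y => (D.P y ∧ b ∣ y - w) ∧
        Ideal.Quotient.mk (Ideal.span {m}) y = Ideal.Quotient.mk (Ideal.span {m}) t) =
        (discG R X).filter fun y => m ∣ y - t ∧ b ∣ y - w := by
      intro w
      apply filter_congr
      intro y _
      rw [hmk]
      constructor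
      · rintro ⟨⟨_, h2⟩, h3⟩
        exact ⟨h3, h2⟩
      · rintro ⟨h3, h2⟩
        exact ⟨⟨(hm.iff h3).2 ht, h2⟩, h3⟩
    rw [e r, e s]
    exact h
  · have e : ((discG R X).filter fun y => (D.P y ∧ b ∣ y - r) ∧
        Ideal.Quotient.mk (Ideal.span {m}) y = Ideal.Quotient.mk (Ideal.span {m}) t) = ∅ := by
      rw [filter_eq_empty_iff]
      rintro y _ ⟨⟨h1, _⟩, h3⟩
      rw [hmk] at h3
      exact ht ((hm.iff h3).1 h1)
    rw [e, card_empty]
    exact Nat.zero_le _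

theorem PX_eq {b : R} (hb0 : b ≠ 0) (X : ℕ) : ∃ (κ : Type) (_ : Fintype κ) (r : κ → R),
    Fintype.card κ = nG b ∧ PX D X = ∑ i, cnt D b X (r i) := by
  classical
  have : NeZero b := ⟨hb0⟩
  let _ : Fintype (R ⧸ Ideal.span {b}) := Fintype.ofFinite _
  have hs : ∀ z : R ⧸ Ideal.span {b}, ∃ r : R, Ideal.Quotient.mk (Ideal.span {b}) r = z :=
    Ideal.Quotient.mk_surjective
  choose r hr using hs
  refine ⟨R ⧸ Ideal.span {b}, inferInstance, r, ?_, ?_⟩
  · rw [← Nat.card_eq_fintype_card, GauQ.card_quot]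
  · unfold PX
    rw [card_eq_sum_card_fiberwise (f := fun y => Ideal.Quotient.mk (Ideal.span {b}) y)
      (t := univ) (fun _ _ => mem_coe.2 (mem_univ _))]
    refine sum_congr rfl fun z _ => ?_
    unfold cnt
    rw [filter_filter]
    congr 1
    apply filter_congr
    intro y _
    have : (Ideal.Quotient.mk (Ideal.span {b}) y = z) ↔ b ∣ y - r z := by
      conv_lhs => rw [← hr z]
      rw [Ideal.Quotient.eq, Ideal.mem_span_singleton]
    rw [this]

theorem PX_le {m : R} (hm : Md D m) {b : R} (hb : Pr D b) (X : ℕ) :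
    PX D X ≤ nG b * (PX D (X / nG b) + nG m * Er (nG m * nG b) X) := by
  obtain ⟨κ, _, r, h1, h2⟩ := PX_eq (D := D) hb.ne X
  have h3 : ∑ i, cnt D b X (r i) ≤ ∑ _i : κ, (cnt D b X 0 + nG m * Er (nG m * nG b) X) :=
    sum_le_sum fun i _ => cnt_le hm hb.P hb.ne X _ _
  rw [sum_const, smul_eq_mul, card_univ, h1, cnt_zero hb, ← h2] at h3
  exact h3

theorem le_PX {m : R} (hm : Md D m) {b : R} (hb : Pr D b) (X : ℕ) :
    nG b * PX D (X / nG b) ≤ PX D X + nG b * (nG m * Er (nG m * nG b) X) := by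
  obtain ⟨κ, _, r, h1, h2⟩ := PX_eq (D := D) hb.ne X
  rw [h2, ← cnt_zero hb]
  have h3 : ∑ i : κ, cnt D b X 0 ≤ ∑ i, (cnt D b X (r i) + nG m * Er (nG m * nG b) X) :=
    sum_le_sum fun i _ => cnt_le hm hb.P hb.ne X _ _
  rw [sum_add_distrib, sum_const, sum_const, smul_eq_mul, smul_eq_mul, card_univ, h1] at h3
  exact h3

theorem Er_le (m X : ℕ) (hX : 1 ≤ X) : (Er m X : ℝ) ≤ 10 * Real.sqrt m * Real.sqrt X := by
  unfold Er
  have h1 : ((Nat.sqrt m : ℕ) : ℝ) ≤ Real.sqrt m := Real.nat_sqrt_le_real_sqrt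
  have h2 : ((Nat.sqrt X : ℕ) : ℝ) ≤ Real.sqrt X := Real.nat_sqrt_le_real_sqrt
  have h3 : (1 : ℝ) ≤ Real.sqrt X := by
    rw [Real.one_le_sqrt]
    exact_mod_cast hX
  have h4 : 0 ≤ Real.sqrt m := Real.sqrt_nonneg _
  push_cast
  calc (2 : ℝ) * Nat.sqrt m * (4 * Nat.sqrt X + 1)
      ≤ 2 * Real.sqrt m * (4 * Real.sqrt X + Real.sqrt X) := by gcongr
    _ = 10 * Real.sqrt m * Real.sqrt X := by ring

/-- The numbers of normalised elements scale. -/
theorem PX_scale {m : R} (hm : Md D m) {b : R} (hb : Pr D b) (X : ℕ) (hX : 1 ≤ X) :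
    |(PX D (X / nG b) : ℝ) - PX D X / nG b| ≤
      nG m * (10 * Real.sqrt (nG m * nG b : ℕ) * Real.sqrt X) := by
  have h1 : (PX D X : ℝ) ≤ nG b * (PX D (X / nG b) + nG m * Er (nG m * nG b) X) := by
    exact_mod_cast PX_le hm hb X
  have h2 : (nG b : ℝ) * PX D (X / nG b) ≤ PX D X + nG b * (nG m * Er (nG m * nG b) X) := by
    exact_mod_cast le_PX hm hb X
  have h3 : (0 : ℝ) < nG b := by exact_mod_cast nG_pos' hb.ne
  have h4 := mul_le_mul_of_nonneg_left (Er_le (nG m * nG b) X hX)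
    (Nat.cast_nonneg (α := ℝ) (nG m))
  refine le_trans ?_ h4
  rw [abs_le]
  have e : (PX D X : ℝ) / nG b * nG b = PX D X := div_mul_cancel₀ _ h3.ne'
  constructor
  · nlinarith
  · nlinarith

omit [IsDomain R] [IsPrincipalIdealRing R] [GauQ R] in
theorem card_disc_ge (X : ℕ) : X ≤ 4 * (discG R X).card := by
  classical
  obtain ⟨s, hs⟩ : ∃ s : ℕ, s = Nat.sqrt (X / 4) := ⟨_, rfl⟩
  have h1 : (Icc (-(s : ℤ)) s ×ˢ Icc (-(s : ℤ)) s).card ≤ (discG R X).card := by
    refine card_le_card_of_injOn (fun p : ℤ × ℤ => (Qi.co (R := R)).symm p) ?_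
      (Qi.co (R := R)).symm.injective.injOn
    rintro ⟨a, b⟩ hab
    rw [mem_coe, mem_product, mem_Icc, mem_Icc] at hab
    rw [mem_coe, mem_discG]
    have h2 : (nG ((Qi.co (R := R)).symm (a, b)) : ℤ) =
        a ^ 2 + (Qi.F R).t * a * b + (Qi.F R).n * b ^ 2 := by
      rw [nG_cast, AddEquiv.apply_symm_apply]
      rfl
    have h3 : s ^ 2 ≤ X / 4 := by
      rw [hs]
      exact Nat.sqrt_le' _
    have h4 : 4 * (s : ℤ) ^ 2 ≤ X := by
      have h5 : 4 * s ^ 2 ≤ X := by omega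
      exact_mod_cast h5
    have ha : a ^ 2 ≤ (s : ℤ) ^ 2 := sq_le_sq' hab.1.1 hab.1.2
    have hb : b ^ 2 ≤ (s : ℤ) ^ 2 := sq_le_sq' hab.2.1 hab.2.2
    have hab2 : a * b ≤ (s : ℤ) ^ 2 := by nlinarith [sq_nonneg (a - b)]
    have hn : (Qi.F R).n ≤ 2 := by
      have h8 := (Qi.F R).h8
      rcases (Qi.F R).ht with h | h <;> rw [h] at h8 <;> omega
    have hn0 := (Qi.F R).npos
    have h7 : (Qi.F R).n * b ^ 2 ≤ 2 * (s : ℤ) ^ 2 := by
      nlinarith [sq_nonneg b]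
    have h6 : (nG ((Qi.co (R := R)).symm (a, b)) : ℤ) ≤ X := by
      rw [h2]
      rcases (Qi.F R).ht with h | h <;> rw [h]
      · nlinarith [sq_nonneg (s : ℤ)]
      · nlinarith [sq_nonneg (s : ℤ)]
    exact_mod_cast h6
  have hc : (Icc (-(s : ℤ)) s ×ˢ Icc (-(s : ℤ)) s).card = (2 * s + 1) * (2 * s + 1) := by
    rw [card_product, Int.card_Icc]
    have : ((s : ℤ) + 1 - -(s : ℤ)).toNat = 2 * s + 1 := by omega
    rw [this]
  rw [hc] at h1
  have h5 := Nat.lt_succ_sqrt (X / 4)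
  rw [Nat.succ_eq_add_one, ← hs] at h5
  have h6 : X < 4 * ((s + 1) * (s + 1)) := by omega
  nlinarith

/-- A positive proportion of the elements is normalised. -/
theorem PX_ge {m : R} (hm : Md D m) (X : ℕ) : X ≤ 4 * (nG m * (PX D X + Er (nG m) X)) := by
  classical
  have : NeZero m := ⟨hm.ne⟩
  let _ : Fintype (R ⧸ Ideal.span {m}) := Fintype.ofFinite _
  have hcard : Fintype.card (R ⧸ Ideal.span {m}) = nG m := by
    rw [← Nat.card_eq_fintype_card, GauQ.card_quot]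
  refine (card_disc_ge (R := R) X).trans (Nat.mul_le_mul_left 4 ?_)
  rw [card_eq_sum_card_fiberwise (f := fun y => Ideal.Quotient.mk (Ideal.span {m}) y)
      (t := univ) (fun _ _ => mem_coe.2 (mem_univ _))]
  have hsum : ∑ _z : R ⧸ Ideal.span {m}, (PX D X + Er (nG m) X) =
      nG m * (PX D X + Er (nG m) X) := by
    rw [sum_const, smul_eq_mul, card_univ, hcard]
  rw [← hsum]
  refine sum_le_sum fun z _ => ?_
  obtain ⟨r, rfl⟩ := Ideal.Quotient.mk_surjective z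
  have h := class_discG m hm.ne r 1 X
  have h2 : ((discG R X).filter fun y => Ideal.Quotient.mk (Ideal.span {m}) y =
      Ideal.Quotient.mk (Ideal.span {m}) r) =
      (discG R X).filter fun y => m ∣ y - r := by
    apply filter_congr
    intro y _
    rw [Ideal.Quotient.eq, Ideal.mem_span_singleton]
  have h3 : ((discG R X).filter fun y => m ∣ y - 1).card ≤ PX D X := by
    refine card_le_card fun y hy => ?_
    rw [mem_filter] at hy ⊢
    exact ⟨hy.1, (hm.iff hy.2).2 D.one⟩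
  rw [h2]
  exact h.trans (Nat.add_le_add_right h3 _)

/-- The finite sieve. -/
theorem sieve_main {m : R} (hm : Md D m) (s : Finset ι) : ∃ C : ℝ, 0 ≤ C ∧ ∀ X : ℕ, 1 ≤ X →
    ‖∑ T ∈ s.powerset, (-1 : ℂ) ^ T.card * D.ind (D.dd T ^ 2) *
      ∑ x ∈ discG R (X / nm T ^ 2), D.ind x -
      ((PX D X * ∏ q ∈ s, (1 - 1 / (nG (D.e q) : ℝ) ^ 2) : ℝ) : ℂ)‖ ≤ C * Real.sqrt X := by
  classical
  refine ⟨∑ T ∈ s.powerset, nG m * (10 * Real.sqrt (nG m * nm T ^ 2 : ℕ)), by positivity,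
    fun X hX => ?_⟩
  have e1 : ∏ q ∈ s, (1 - 1 / (nG (D.e q) : ℝ) ^ 2) =
      ∑ T ∈ s.powerset, (-1 : ℝ) ^ T.card / (nm T : ℝ) ^ 2 := by
    have h := Finset.prod_one_add (s := s) (f := fun q : ι => - (1 / (nG (D.e q) : ℝ) ^ 2))
    simp only [← sub_eq_add_neg] at h
    rw [h]
    refine sum_congr rfl fun T _ => ?_
    rw [prod_neg, prod_div_distrib, prod_const_one, prod_pow]
    have : ((nm T : ℕ) : ℝ) = ∏ q ∈ T, (nG (D.e q) : ℝ) := by
      unfold nm
      push_cast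
      exact prod_congr rfl fun q _ => by rw [D.N_eq]
    rw [this]
    ring
  rw [e1, mul_sum, Complex.ofReal_sum, ← sum_sub_distrib, sum_mul]
  refine (norm_sum_le _ _).trans (sum_le_sum fun T _ => ?_)
  have h1 : D.ind (D.dd T ^ 2) = 1 := if_pos (pr_dd_sq T).P
  rw [h1, mul_one, sum_ind]
  have h2 := PX_scale hm (pr_dd_sq (D := D) T) X hX
  rw [nG_dd_sq] at h2
  have e2 : (-1 : ℂ) ^ T.card * (PX D (X / nm T ^ 2) : ℂ) -
      ((PX D X * ((-1 : ℝ) ^ T.card / (nm T : ℝ) ^ 2) : ℝ) : ℂ) =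
      (((-1 : ℝ) ^ T.card * ((PX D (X / nm T ^ 2) : ℝ) - PX D X / ((nm T ^ 2 : ℕ) : ℝ)) : ℝ) : ℂ) := by
    push_cast
    ring
  rw [e2, Complex.norm_real, Real.norm_eq_abs, abs_mul, abs_pow, abs_neg, abs_one, one_pow, one_mul]
  rw [mul_assoc]
  exact h2

theorem inv_sq_eq (q : ι) : (nG (D.e q) : ℝ) ^ (-(2 : ℝ)) = 1 / (nG (D.e q) : ℝ) ^ 2 := by
  rw [Real.rpow_neg (Nat.cast_nonneg _), one_div]
  norm_cast

theorem prod_ge (D : PrmG R ι) : ∃ c : ℝ, 0 < c ∧ ∀ s : Finset ι,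
    c ≤ ∏ q ∈ s, (1 - 1 / (nG (D.e q) : ℝ) ^ 2) := by
  classical
  obtain ⟨Y, hY⟩ := tail D (1 / 2) (by norm_num)
  have hq : ∀ q : ι, 0 < 1 - 1 / (nG (D.e q) : ℝ) ^ 2 ∧ 1 - 1 / (nG (D.e q) : ℝ) ^ 2 ≤ 1 := by
    intro q
    have h2 : (2 : ℝ) ≤ nG (D.e q) := by exact_mod_cast D.two_le q
    have h3 : (0 : ℝ) < 1 / (nG (D.e q) : ℝ) ^ 2 := by positivity
    have h4 : 1 / (nG (D.e q) : ℝ) ^ 2 < 1 := by
      rw [div_lt_one (by positivity)]
      nlinarith
    constructor <;> linarith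
  have h : ∀ s : Finset ι, 1 - ∑ q ∈ s, 1 / (nG (D.e q) : ℝ) ^ 2 ≤
      ∏ q ∈ s, (1 - 1 / (nG (D.e q) : ℝ) ^ 2) ∧ ∏ q ∈ s, (1 - 1 / (nG (D.e q) : ℝ) ^ 2) ≤ 1 ∧
      0 < ∏ q ∈ s, (1 - 1 / (nG (D.e q) : ℝ) ^ 2) := by
    intro s
    induction s using Finset.induction_on with
    | empty => simp
    | insert q s hqs ih =>
      rw [sum_insert hqs, prod_insert hqs]
      have h3 : (0 : ℝ) ≤ 1 / (nG (D.e q) : ℝ) ^ 2 := by positivity
      obtain ⟨h4, h5⟩ := hq q
      refine ⟨?_, ?_, mul_pos h4 ih.2.2⟩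
      · nlinarith [ih.1, ih.2.1]
      · nlinarith [ih.2.1, ih.2.2]
  refine ⟨(∏ q ∈ pr ι Y, (1 - 1 / (nG (D.e q) : ℝ) ^ 2)) * (1 / 2),
    mul_pos (h _).2.2 (by norm_num), fun s => ?_⟩
  have e : ∏ q ∈ s, (1 - 1 / (nG (D.e q) : ℝ) ^ 2) =
      (∏ q ∈ s.filter (fun q => q ∈ pr ι Y), (1 - 1 / (nG (D.e q) : ℝ) ^ 2)) *
      ∏ q ∈ s.filter (fun q => q ∉ pr ι Y), (1 - 1 / (nG (D.e q) : ℝ) ^ 2) :=
    (prod_filter_mul_prod_filter_not s _ _).symm
  rw [e]
  have h1 : ∏ q ∈ pr ι Y, (1 - 1 / (nG (D.e q) : ℝ) ^ 2) ≤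
      ∏ q ∈ s.filter (fun q => q ∈ pr ι Y), (1 - 1 / (nG (D.e q) : ℝ) ^ 2) := by
    have hsub : s.filter (fun q => q ∈ pr ι Y) ⊆ pr ι Y := fun q hq => (mem_filter.1 hq).2
    rw [← prod_sdiff hsub]
    exact mul_le_of_le_one_left (h _).2.2.le (h _).2.1
  have h2 : (1 : ℝ) / 2 ≤ ∏ q ∈ s.filter (fun q => q ∉ pr ι Y), (1 - 1 / (nG (D.e q) : ℝ) ^ 2) := by
    have h3 := (h (s.filter (fun q => q ∉ pr ι Y))).1
    have h4 := hY (s.filter (fun q => q ∉ pr ι Y)) (fun q hq => by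
      have := (mem_filter.1 hq).2
      rw [mem_pr, D.N_eq] at this
      exact not_le.1 this)
    simp only [inv_sq_eq] at h4
    linarith
  exact mul_le_mul h1 h2 (by norm_num) (h _).2.2.le

/-- There is a positive proportion of squarefree elements. -/
theorem card_ge {m : R} (hm : Md D m) : ∃ c : ℝ, 0 < c ∧ ∃ X₀ : ℕ, ∀ X : ℕ, X₀ ≤ X →
    c * X ≤ ((Sx ι X).card : ℝ) := by
  obtain ⟨c1, hc1, hprod⟩ := prod_ge D
  have hM : (0 : ℝ) < nG m := by exact_mod_cast nG_pos' hm.ne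
  obtain ⟨δ, hδ⟩ : ∃ δ, δ = c1 / (16 * nG m) := ⟨_, rfl⟩
  have hδ0 : 0 < δ := by rw [hδ]; positivity
  obtain ⟨s, hs⟩ := sqf_diff hm.h0 D.ind D.ind_mulC δ hδ0
  obtain ⟨C, hC, hms⟩ := sieve_main hm s
  obtain ⟨A, hA⟩ : ∃ A, A = C + c1 * (10 * Real.sqrt (nG m)) := ⟨_, rfl⟩
  have hA0 : 0 ≤ A := by rw [hA]; positivity
  obtain ⟨M, hMM⟩ := exists_nat_gt ((A / δ) ^ 2)
  refine ⟨δ, hδ0, M + 1, fun X hX => ?_⟩
  have hX1 : 1 ≤ X := by omega
  have h1 := hs X
  have h2 := hms X hX1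
  have h3 : (X : ℝ) ≤ 4 * (nG m * (PX D X + Er (nG m) X)) := by exact_mod_cast PX_ge hm X
  have h4 := Er_le (nG m) X hX1
  have h5 := hprod s
  have h6 : ∑ S ∈ Sx ι X, D.ind (D.dd S) = (((Sx ι X).card : ℝ) : ℂ) := by
    have h : ∀ S ∈ Sx ι X, D.ind (D.dd S) = 1 := fun S _ => if_pos (D.dd_P S)
    rw [sum_congr rfl h, sum_const, nsmul_eq_mul, mul_one]
    norm_cast
  rw [h6] at h1
  have h7 : ‖(((Sx ι X).card : ℝ) : ℂ) -
      ((PX D X * ∏ q ∈ s, (1 - 1 / (nG (D.e q) : ℝ) ^ 2) : ℝ) : ℂ)‖ ≤ δ * X + C * Real.sqrt X := by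
    refine le_trans ?_ (add_le_add h1 h2)
    refine le_trans (le_of_eq ?_) (norm_add_le _ _)
    congr 1
    ring
  rw [← Complex.ofReal_sub, Complex.norm_real, Real.norm_eq_abs] at h7
  have h8 := (abs_le.1 h7).1
  have h9 : A / δ ≤ Real.sqrt X := by
    apply Real.le_sqrt_of_sq_le
    have : (M : ℝ) ≤ X := by exact_mod_cast (by omega : M ≤ X)
    linarith
  have h10 : Real.sqrt X * Real.sqrt X = X := Real.mul_self_sqrt (Nat.cast_nonneg X)
  have h11 : A * Real.sqrt X ≤ δ * X := by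
    rw [div_le_iff₀ hδ0] at h9
    nlinarith [Real.sqrt_nonneg (X : ℝ)]
  have h12 : (0 : ℝ) ≤ PX D X := Nat.cast_nonneg _
  have h13 : (PX D X : ℝ) * c1 ≤ PX D X * ∏ q ∈ s, (1 - 1 / (nG (D.e q) : ℝ) ^ 2) := by
    gcongr
  have h14 : (X : ℝ) / (4 * nG m) ≤ PX D X + 10 * Real.sqrt (nG m) * Real.sqrt X := by
    rw [div_le_iff₀ (by positivity)]
    nlinarith
  have h15 : 4 * (δ * X) ≤ c1 * PX D X + c1 * (10 * Real.sqrt (nG m)) * Real.sqrt X := by
    have e : 4 * (δ * X) = c1 * (X / (4 * nG m)) := by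
      rw [hδ]
      field_simp
      ring
    rw [e]
    nlinarith
  have h16 : C * Real.sqrt X + c1 * (10 * Real.sqrt (nG m)) * Real.sqrt X ≤ δ * X := by
    rw [← add_mul, ← hA]
    exact h11
  linarith

end PrmG

end

end Pool.Agent.Lib.MP_1a91b9_ntR
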