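import Pool.Agent.Lib.MP_1a91b9_ntR.ChiW
import Pool.Agent.Lib.MP_1a91b9_ntR.SqF

/-!
# MP_1a91b9_nt (quartic twists), part R: the mean values of the weighted quadratic characters on the
squarefree elements

The properties `Mz` and `Wt` of the abstract engine for the system of the symbols and class
characters.
-/

set_option autoImplicit false

namespace Pool.Agent.Lib.MP_1a91b9_ntR

open Finset
open Pool.Agent.Lib.MP_1a91b9_ntQ (Dat2 Mz e2)
open Pool.Agent.Lib.MP_1a91b9_ntH (sg sgD_add sgD_sum sgD_abs PS nm one_le_nm pr Sx CharB)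

noncomputable section

variable {R : Type} [CommRing R] [IsDomain R] [IsPrincipalIdealRing R] [Qi R] {ι : Type}
  [DecidableEq ι] [PS ι] {κ : Type} [Fintype κ]

namespace QSys

variable {D : QSys R ι} {P : PrmG R ι} {Q : R} {cl : κ → R → ZMod 2}

omit [IsPrincipalIdealRing R] in
theorem Com.dd_eq (hP : D.Com P) (S : Finset ι) : P.dd S = D.DD S := by
  unfold PrmG.dd DD
  exact prod_congr rfl fun q _ => hP.e q

omit [IsPrincipalIdealRing R] in
theorem Com.not_zero (hP : D.Com P) : ¬ P.P 0 := fun h => D.zero ((hP.P 0).1 h)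

/-- **The nontrivial weighted quadratic characters have mean value zero on the squarefree elements**
(complex form). -/
theorem h3W (hP : D.Com P) (hQ : D.Mod Q) (hQ0 : Q ≠ 0) {ψ : R → ℂ}
    (hψ : D.Wt Q ψ) (B : Finset ι) (t : ι → ZMod 2)
    (h : (∃ p ∈ B, t p ≠ 0) ∨ ∃ b, D.In b ∧ ψ b ≠ 1) (ε : ℝ) (hε : 0 < ε) :
    ∃ X₀ : ℕ, ∀ X : ℕ, X₀ ≤ X →
    ‖∑ S ∈ Sx ι X, if Disjoint S B then
      ∏ q ∈ S, (ψ (D.e q) * (sg (∑ p ∈ B, t p * D.c p (D.e q)) : ℝ)) else 0‖ ≤ ε * X := by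
  obtain ⟨X₀, hX₀⟩ := P.mean_zero hP.not_zero (D.chB B t ψ) (hP.mulG hψ B t)
    (B := 20 * Real.sqrt (nG (Q * D.DD B))) (by positivity) (fun X hX => by
      have h1 := chB_sum hQ (hP.ne_zero hQ0) hψ B t h X hX
      rw [Real.sqrt_mul (Nat.cast_nonneg _)] at h1
      rw [mul_assoc]
      exact h1) ε hε
  refine ⟨X₀, fun X hX => ?_⟩
  have h1 := hX₀ X hX
  have h2 : ∑ S ∈ Sx ι X, D.chB B t ψ (P.dd S) = ∑ S ∈ Sx ι X, if Disjoint S B then
      ∏ q ∈ S, (ψ (D.e q) * (sg (∑ p ∈ B, t p * D.c p (D.e q)) : ℝ)) else 0 :=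
    sum_congr rfl fun S _ => by rw [hP.dd_eq, chB_DD hψ]
  rw [h2] at h1
  exact h1

omit [IsDomain R] [Qi R] [IsPrincipalIdealRing R] [DecidableEq ι] [PS ι] in
/-- The product of two weights. -/
theorem Wt.mul' {ψ φ : R → ℂ} (hψ : D.Wt Q ψ) (hφ : D.Wt Q φ) : D.Wt Q (fun x => ψ x * φ x) where
  one := by rw [hψ.one, hφ.one, mul_one]
  mul x y hx hy := by
    rw [hψ.mul x y hx hy, hφ.mul x y hx hy]
    ring
  norm x hx := by rw [norm_mul, hψ.norm x hx, hφ.norm x hx, mul_one]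
  per x y hx hxy := by rw [hψ.per x y hx hxy, hφ.per x y hx hxy]

/-- **The nontrivial weighted quadratic characters have mean value zero** (the form of the
engine). -/
theorem mz (hP : D.Com P) (hQ : D.Mod Q) (hQ0 : Q ≠ 0) (hcl : D.Cls Q cl)
    {ψ : R → ℂ} (hψ : D.Wt Q ψ) {B T : Finset ι} (c : κ → ZMod 2) (hTB : T ⊆ B)
    (h : T ≠ ∅ ∨ ∃ b, D.In b ∧ ψ b * QSys.wt cl c b ≠ 1) :
    Mz B (fun q => ψ (D.e q) * e2 ((D.dat cl).ex1 T c q)) := by
  classical
  intro ε hε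
  obtain ⟨t', ht'⟩ : ∃ t' : ι → ZMod 2, t' = fun p => if p ∈ T then 1 else 0 := ⟨_, rfl⟩
  have h' : (∃ p ∈ B, t' p ≠ 0) ∨ ∃ b, D.In b ∧ (fun x => ψ x * QSys.wt cl c x) b ≠ 1 := by
    rcases h with h | h
    · obtain ⟨p, hp⟩ := Finset.nonempty_iff_ne_empty.2 h
      refine Or.inl ⟨p, hTB hp, ?_⟩
      rw [ht']
      simp only [hp, if_true]
      exact one_ne_zero
    · exact Or.inr h
  obtain ⟨X₀, hX₀⟩ := h3W hP hQ hQ0 (hψ.mul' (hcl.wt c)) B t' h' ε hε
  refine ⟨X₀, fun X hX => ?_⟩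
  have h1 := hX₀ X hX
  have h4 : ∀ q, QSys.wt cl c (D.e q) * ((sg (∑ p ∈ B, t' p * D.c p (D.e q)) : ℝ) : ℂ) =
      e2 ((D.dat cl).ex1 T c q) := by
    intro q
    unfold QSys.wt Dat2.ex1 e2
    rw [← Complex.ofReal_mul, ← sgD_add]
    congr 3
    rw [ht', ← sum_subset hTB (fun p _ hp => by simp only [hp, if_false, zero_mul])]
    exact sum_congr rfl fun p hp => by
      simp only [hp, if_true, one_mul]
      rfl
  have h2 : (∑ S ∈ Sx ι X, if Disjoint S B then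
      ∏ q ∈ S, ((fun x => ψ x * QSys.wt cl c x) (D.e q) *
        ((sg (∑ p ∈ B, t' p * D.c p (D.e q)) : ℝ) : ℂ)) else 0) =
      ∑ S ∈ (Sx ι X).filter (fun S => Disjoint S B),
        ∏ q ∈ S, (ψ (D.e q) * e2 ((D.dat cl).ex1 T c q)) := by
    rw [sum_filter]
    refine sum_congr rfl fun S _ => ?_
    split_ifs
    · exact prod_congr rfl fun q _ => by
        change ψ (D.e q) * QSys.wt cl c (D.e q) * _ = _
        rw [mul_assoc, h4 q]
    · rfl
  rw [h2] at h1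
  exact h1

/-- The combinations of class characters whose product with the weight is trivial. -/
def trW (D : QSys R ι) (cl : κ → R → ZMod 2) (ψ : R → ℂ) (c : κ → ZMod 2) : Prop :=
  ∀ b, D.In b → ψ b * QSys.wt cl c b = 1

/-- **The hypotheses of the engine on the weight.** -/
theorem wt_engine (hP : D.Com P) (hQ : D.Mod Q) (hQ0 : Q ≠ 0)
    (hcl : D.Cls Q cl) {ψ : R → ℂ} (hψ : D.Wt Q ψ) (B : Finset ι) :
    (D.dat cl).Wt B (fun q => ψ (D.e q)) (D.trW cl ψ) where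
  nrm q := hψ.norm _ (D.prim q)
  one c hc q := by
    have h1 := hc _ (D.prim q)
    have h2 : e2 ((D.dat cl).ex1 ∅ c q) = QSys.wt cl c (D.e q) := by
      unfold QSys.wt Dat2.ex1 e2
      rw [sum_empty, add_zero]
      rfl
    rw [h2]
    exact h1
  mz T c hTB h := mz hP hQ hQ0 hcl hψ c hTB (by
    rcases h with h | h
    · exact Or.inl h
    · refine Or.inr ?_
      by_contra h1
      push Not at h1
      exact h h1)

end QSys

end

end Pool.Agent.Lib.MP_1a91b9_ntR
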