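import Pool.Agent.Lib.MP_1a91b9_ntR.ChiG
import Pool.Agent.Lib.MP_1a91b9_ntR.Eul
import Pool.Agent.Lib.MP_1a91b9_ntQ.D.Defs

/-!
# MP_1a91b9_nt (quartic twists), part R: the Euler products of the weighted quadratic characters

The property `CB` of the abstract engine for the system of the symbols and class characters.
-/

set_option autoImplicit false

namespace Pool.Agent.Lib.MP_1a91b9_ntR

open Finset
open Pool.Agent.Lib.MP_1a91b9_ntQ (Dat2 Mz e2)
open Pool.Agent.Lib.MP_1a91b9_ntH (sg sgD_add sgD_sum sgD_abs PS nm one_le_nm pr Sx CharB)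

noncomputable section

variable {R : Type} [CommRing R] [IsDomain R] [Qi R] {ι : Type} [DecidableEq ι] [PS ι]
  {κ : Type} [Fintype κ]

namespace QSys

/-- The class characters `cl j` of order `2` on the primary elements, periodic modulo `Q`. -/
structure Cls (D : QSys R ι) (Q : R) (cl : κ → R → ZMod 2) : Prop where
  mul : ∀ j x y, D.In x → D.In y → cl j (x * y) = cl j x + cl j y
  per : ∀ j x y, D.In x → Q ∣ x - y → cl j x = cl j y
  indep : ∀ c : κ → ZMod 2, c ≠ 0 → ∃ b, D.In b ∧ ∑ j, c j * cl j b ≠ 0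

/-- The data of the abstract engine. -/
def dat (D : QSys R ι) (cl : κ → R → ZMod 2) : Dat2 ι κ where
  s q p := D.c p (D.e q)
  a q j := cl j (D.e q)

/-- The primes of the system are those of the Euler products. -/
structure Com (D : QSys R ι) (P : PrmG R ι) : Prop where
  e : ∀ q, P.e q = D.e q
  P : ∀ x, P.P x ↔ D.In x

/-- The weight of a combination of class characters. -/
def wt (cl : κ → R → ZMod 2) (c : κ → ZMod 2) (x : R) : ℂ := ((sg (∑ j, c j * cl j x) : ℝ) : ℂ)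

variable {D : QSys R ι} {P : PrmG R ι} {Q : R} {cl : κ → R → ZMod 2}

omit [IsDomain R] [Qi R] [DecidableEq ι] [PS ι] in
theorem Cls.cl_one (h : D.Cls Q cl) (j : κ) : cl j 1 = 0 := by
  have h1 := h.mul j 1 1 D.in_one D.in_one
  rw [mul_one] at h1
  exact left_eq_add.1 h1

omit [IsDomain R] [Qi R] [DecidableEq ι] [PS ι] in
theorem Cls.wt (h : D.Cls Q cl) (c : κ → ZMod 2) : D.Wt Q (wt cl c) where
  one := by
    unfold QSys.wt
    rw [sum_eq_zero fun j _ => by rw [h.cl_one j, mul_zero], sg_zero']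
    simp
  mul x y hx hy := by
    unfold QSys.wt
    rw [← Complex.ofReal_mul, ← sgD_add, ← sum_add_distrib]
    congr 2
    exact sum_congr rfl fun j _ => by rw [h.mul j x y hx hy, mul_add]
  norm x _ := by
    unfold QSys.wt
    rw [Complex.norm_real, Real.norm_eq_abs, sgD_abs]
  per x y hx hxy := by
    unfold QSys.wt
    congr 2
    exact sum_congr rfl fun j _ => by rw [h.per j x y hx hxy]

theorem sg_ne_one {x : ZMod 2} (h : x ≠ 0) : sg x = -1 := by
  have : ∀ x : ZMod 2, x ≠ 0 → x = 1 := by decide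
  rw [this x h]
  simp [sg]

omit [IsDomain R] [Qi R] [DecidableEq ι] [PS ι] in
theorem Cls.wt_ne (h : D.Cls Q cl) {c : κ → ZMod 2} (hc : c ≠ 0) :
    ∃ b, D.In b ∧ QSys.wt cl c b ≠ 1 := by
  obtain ⟨b, hb, hb1⟩ := h.indep c hc
  refine ⟨b, hb, ?_⟩
  unfold QSys.wt
  rw [sg_ne_one hb1]
  norm_num

theorem Com.nG_DD (hP : D.Com P) (B : Finset ι) : nG (D.DD B) = nm B := by
  induction B using Finset.induction_on with
  | empty =>
    unfold DD nm
    rw [prod_empty, prod_empty, nG_one]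
  | insert q S hq ih =>
    unfold DD nm at ih ⊢
    rw [prod_insert hq, prod_insert hq, nG_mul, ih, P.N_eq q, hP.e q]

theorem Com.ne_zero (hP : D.Com P) (hQ0 : Q ≠ 0) (B : Finset ι) : Q * D.DD B ≠ 0 := by
  refine mul_ne_zero hQ0 fun h => ?_
  have h1 := hP.nG_DD B
  rw [h, nG_eq_zero.2 rfl] at h1
  have h2 := one_le_nm B
  omega

theorem Com.mulG (hP : D.Com P) {ψ : R → ℂ} (hψ : D.Wt Q ψ) (B : Finset ι) (t : ι → ZMod 2) :
    MulG P (D.chB B t ψ) where
  one := chB_one hψ B t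
  mul q y _ := by
    rw [hP.e]
    exact chB_mul hψ B t (D.prim q) y
  zero x hx := chB_of_not fun h => hx ((hP.P x).2 h.1)
  le := norm_chB_le hψ B t

/-- **The nontrivial weighted quadratic characters have bounded Euler products** (complex form). -/
theorem cbW (hP : D.Com P) (hQ : D.Mod Q) (hQ0 : Q ≠ 0) : ∃ C : ℝ, 1 ≤ C ∧ ∀ (ψ : R → ℂ),
    D.Wt Q ψ → ∀ (T : Finset ι) (t : ι → ZMod 2),
    ((∃ p ∈ T, t p ≠ 0) ∨ ∃ b, D.In b ∧ ψ b ≠ 1) →
    CharB (fun q => (D.chB T t ψ (D.e q)).re) (C * (1 + Real.log (nm T))) := by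
  obtain ⟨C, hC, hmain⟩ := P.charB_of 20 (by norm_num)
  obtain ⟨N, hN⟩ : ∃ N, N = nG Q := ⟨_, rfl⟩
  have hN1 : 1 ≤ N := by
    rw [hN, Nat.one_le_iff_ne_zero]
    exact fun h => hQ0 (nG_eq_zero.1 h)
  have h6 : 0 ≤ Real.log N := Real.log_nonneg (by exact_mod_cast hN1)
  refine ⟨C * (1 + Real.log N), by nlinarith, fun ψ hψ T t h => ?_⟩
  have h0 : nG (Q * D.DD T) = N * nm T := by rw [nG_mul, hP.nG_DD, hN]
  have h1 := hmain (D.chB T t ψ) (N * nm T) (hP.mulG hψ T t)
    (Nat.mul_pos hN1 (one_le_nm T)) (fun X hX => by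
      have h2 := chB_sum hQ (hP.ne_zero hQ0) hψ T t h X hX
      rw [h0] at h2
      exact h2)
  have h2 : (fun q : ι => (D.chB T t ψ (P.e q)).re) = fun q => (D.chB T t ψ (D.e q)).re := by
    funext q
    rw [hP.e]
  rw [h2] at h1
  have h3 : (1 : ℝ) ≤ nm T := by exact_mod_cast one_le_nm T
  have h31 : (1 : ℝ) ≤ N := by exact_mod_cast hN1
  have h4 : Real.log ((N * nm T : ℕ) : ℝ) = Real.log N + Real.log (nm T) := by
    push_cast
    rw [Real.log_mul (by positivity) (by positivity)]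
  rw [h4] at h1
  have h5 : 0 ≤ Real.log (nm T) := Real.log_nonneg h3
  have h7 : 0 ≤ C * (Real.log N * Real.log (nm T)) := by positivity
  have hle : C * (1 + (Real.log N + Real.log (nm T))) ≤
      C * (1 + Real.log N) * (1 + Real.log (nm T)) := by nlinarith
  exact ⟨h1.le, h1.hB.trans hle, fun σ g1 g2 => (h1.bound σ g1 g2).mono fun x hx => hx.trans hle⟩

/-- The value at a prime in terms of the data of the engine. -/
theorem chB_dat {T : Finset ι} (t : ι → ZMod 2) (c : κ → ZMod 2) (q : ι) :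
    D.chB T t (QSys.wt cl c) (D.e q) = (((D.dat cl).cht T t c q : ℝ) : ℂ) := by
  unfold Dat2.cht
  split_ifs with h
  · rw [chB_mem h, Complex.ofReal_zero]
  · rw [chB_q h]
    unfold QSys.wt Dat2.ex
    rw [← Complex.ofReal_mul, ← sgD_add]
    rfl

/-- **The property `CB` of the engine.** -/
theorem cb (hP : D.Com P) (hQ : D.Mod Q) (hQ0 : Q ≠ 0) (hcl : D.Cls Q cl) :
    ∃ C, (D.dat cl).CB C := by
  obtain ⟨C, _, h⟩ := cbW hP hQ hQ0
  refine ⟨C, fun T c hT => ?_⟩
  have h1 := h (QSys.wt cl c) (hcl.wt c) T (fun _ => 1) (by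
    rcases hT with hT | hc
    · obtain ⟨p, hp⟩ := Finset.nonempty_iff_ne_empty.2 hT
      exact Or.inl ⟨p, hp, one_ne_zero⟩
    · exact Or.inr (hcl.wt_ne hc))
  have h2 : (fun q => (D.chB T (fun _ => 1) (QSys.wt cl c) (D.e q)).re) = (D.dat cl).ch T c := by
    funext q
    rw [chB_dat, Complex.ofReal_re, (D.dat cl).cht_eq T _ c fun _ _ => one_ne_zero]
  rw [h2] at h1
  exact h1

end QSys

end

end Pool.Agent.Lib.MP_1a91b9_ntR
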