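import Pool.Agent.Lib.MP_1a91b9_ntR.Den
import Pool.Agent.Lib.MP_1a91b9_ntR.OKt
import Pool.Agent.Lib.MP_1a91b9_ntQ.D.ExtB
import Pool.Agent.Lib.MP_1a91b9_ntQ.D.ClsQ

/-!
# MP_1a91b9_nt, generic part R: the classes of the primes outside a finite set `B`

`GRB hQ B`: the classes modulo `Q` and the symbols modulo the primes of `B`. `h3B`: the nontrivial
characters have mean value zero on the squarefree elements prime to `B`. `datB`, `dRB`: the class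
systems of the data `((sys R).dat cl).off B` and `(dR cl).off B`, with the property `H3`.
-/

set_option autoImplicit false

namespace Pool.Agent.Lib.MP_1a91b9_ntR

open Finset
open Pool.Agent.Lib.MP_1a91b9_ntQ (Dat2 Cl2 Off up sum_Sx_off prod_up sum_up disj_up)
open Pool.Agent.Lib.MP_1a91b9_ntH (PS nm pr mem_pr Sx mem_Sx sg sgD_add sgD_sum)

noncomputable section

/-- The characters of `B → ℤ/2`. -/
theorem ch_pi {β : Type} [Fintype β] [DecidableEq β] (φ : AddChar (β → ZMod 2) ℂ) :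
    ∃ t : β → ZMod 2, ∀ v, φ v = ((sg (∑ b, t b * v b) : ℝ) : ℂ) := by
  have h2 : ∀ b : β, φ (Pi.single b 1) = 1 ∨ φ (Pi.single b 1) = -1 := by
    intro b
    have h : φ (Pi.single b 1) * φ (Pi.single b 1) = 1 := by
      rw [← AddChar.map_add_eq_mul, ← Pi.single_add]
      have e : (1 : ZMod 2) + 1 = 0 := by decide
      rw [e, Pi.single_zero, AddChar.map_zero_eq_one]
    exact mul_self_eq_one_iff.1 h
  have h3 : ∀ b : β, ∃ t : ZMod 2, φ (Pi.single b 1) = ((sg t : ℝ) : ℂ) := by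
    intro b
    rcases h2 b with h | h
    · exact ⟨0, by rw [h]; simp [sg]⟩
    · exact ⟨1, by rw [h]; simp [sg]⟩
  choose t ht using h3
  refine ⟨t, fun v => ?_⟩
  have e1 : φ v = ∏ b, φ (Pi.single b (v b)) := by
    conv_lhs => rw [← Finset.univ_sum_single v]
    exact psi_sum φ univ fun b => Pi.single b (v b)
  rw [e1, sgD_sum, Complex.ofReal_prod]
  refine prod_congr rfl fun b _ => ?_
  have h4 : ∀ x : ZMod 2, x = 0 ∨ x = 1 := by decide
  rcases h4 (v b) with h | h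
  · rw [h, Pi.single_zero, AddChar.map_zero_eq_one, mul_zero]
    simp [sg]
  · rw [h, ht b, mul_one]

variable {R : Type} [CommRing R] [IsDomain R] [IsPrincipalIdealRing R] [Qi R] [Pri R] {Q : R}
  {κ : Type} {cl : κ → R → ZMod 2} {w : κ → ZMod 2}

/-- The classes: modulo `Q`, and the symbols modulo the primes of `B`. -/
abbrev GRB (hQ : (sys R).Mod Q) (B : Finset (Pg R)) : Type := GR hQ × (B → ZMod 2)

/-- The class of a prime. -/
def cqB (hQ : (sys R).Mod Q) (B : Finset (Pg R)) (q : Pg R) : GRB hQ B :=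
  (cq hQ q, fun b => c2 b.1 q.1)

/-- The class of a primary element. -/
def gcB (hQ : (sys R).Mod Q) (B : Finset (Pg R)) (x : R) (hx : Pri.In x) : GRB hQ B :=
  (gc hQ x hx, fun b => c2 b.1 x)

theorem fst_cqB (hQ : (sys R).Mod Q) (B S : Finset (Pg R)) :
    (∑ q ∈ S, cqB hQ B q).1 = ∑ q ∈ S, cq hQ q := by
  rw [Prod.fst_sum]
  rfl

theorem snd_cqB (hQ : (sys R).Mod Q) (B S : Finset (Pg R)) (b : B) :
    (∑ q ∈ S, cqB hQ B q).2 b = ∑ q ∈ S, c2 b.1 q.1 := by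
  rw [Prod.snd_sum, Finset.sum_apply]
  rfl

/-- A character of the classes. -/
theorem psi_cqB (hQ : (sys R).Mod Q) (B : Finset (Pg R)) (ψ : AddChar (GRB hQ B) ℂ) :
    ∃ (ψ1 : AddChar (GR hQ) ℂ) (t : Pg R → ZMod 2), ∀ q : Pg R,
      ψ (cqB hQ B q) = QSys.wG (D := sys R) hQ ψ1 q.1 * ((sg (∑ p ∈ B, t p * c2 p q.1) : ℝ) : ℂ) := by
  classical
  obtain ⟨t, ht⟩ := ch_pi ((ψ.compAddMonoidHom (AddMonoidHom.inr (GR hQ) (B → ZMod 2))))
  refine ⟨ψ.compAddMonoidHom (AddMonoidHom.inl (GR hQ) (B → ZMod 2)),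
    fun p => if h : p ∈ B then t ⟨p, h⟩ else 0, fun q => ?_⟩
  have e0 : cqB hQ B q = (AddMonoidHom.inl (GR hQ) (B → ZMod 2)) (cq hQ q) +
      (AddMonoidHom.inr (GR hQ) (B → ZMod 2)) (fun b => c2 b.1 q.1) := by
    unfold cqB
    rw [AddMonoidHom.inl_apply, AddMonoidHom.inr_apply, Prod.mk_add_mk, add_zero, zero_add]
  rw [e0, AddChar.map_add_eq_mul]
  have h1 := ht fun b => c2 b.1 q.1
  rw [AddChar.compAddMonoidHom_apply] at h1
  rw [h1, QSys.wG_of (D := sys R) (hQ := hQ) (x := q.1) q.inP]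
  congr 2
  congr 1
  rw [← sum_coe_sort B]
  refine sum_congr rfl fun b _ => ?_
  have e : (if h : b.1 ∈ B then t ⟨b.1, h⟩ else 0) = t b := dif_pos b.2
  exact congrArg (fun x => x * c2 b.1 q.1) e.symm

/-- **The nontrivial characters of the classes have mean value zero on the squarefree elements prime
to `B`.** -/
theorem h3B (hQ : (sys R).Mod Q) (hQ0 : Q ≠ 0) (B : Finset (Pg R)) (ψ : AddChar (GRB hQ B) ℂ)
    (hψ : ∃ q : Pg R, ψ (cqB hQ B q) ≠ 1) (ε : ℝ) (hε : 0 < ε) :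
    ∃ X₀ : ℕ, ∀ X : ℕ, X₀ ≤ X →
      ‖∑ S ∈ (Sx (Pg R) X).filter (fun S => Disjoint S B), ∏ q ∈ S, ψ (cqB hQ B q)‖ ≤ ε * X := by
  have := finite_quot hQ0
  obtain ⟨ψ1, t, h⟩ := psi_cqB hQ B ψ
  obtain ⟨q, hq⟩ := hψ
  have hcase : (∃ p ∈ B, t p ≠ 0) ∨ ∃ b, (sys R).In b ∧ QSys.wG (D := sys R) hQ ψ1 b ≠ 1 := by
    by_contra hcon
    push Not at hcon
    obtain ⟨h1, h2⟩ := hcon
    apply hq
    rw [h q, h2 q.1 q.inP, one_mul, sum_eq_zero fun p hp => by rw [h1 p hp, zero_mul], QSys.sg_zero',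
      Complex.ofReal_one]
  obtain ⟨X₀, hX₀⟩ := QSys.h3W (D := sys R) sys_com hQ hQ0 (QSys.wG_wt (D := sys R) hQ ψ1) B t
    hcase ε hε
  refine ⟨X₀, fun X hX => ?_⟩
  have h1 := hX₀ X hX
  rw [sum_filter]
  refine le_trans (le_of_eq ?_) h1
  congr 1
  refine sum_congr rfl fun S _ => ?_
  split_ifs
  · exact prod_congr rfl fun q _ => h q
  · rfl

/-- The same over the primes outside `B`. -/
theorem h3B' (hQ : (sys R).Mod Q) (hQ0 : Q ≠ 0) (B : Finset (Pg R)) (ψ : AddChar (GRB hQ B) ℂ)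
    (hψ : ∃ q : Pg R, ψ (cqB hQ B q) ≠ 1) (ε : ℝ) (hε : 0 < ε) :
    ∃ X₀ : ℕ, ∀ X : ℕ, X₀ ≤ X →
      ‖∑ S ∈ Sx (Off B) X, ∏ q ∈ S, ψ (cqB hQ B q.1)‖ ≤ ε * X := by
  obtain ⟨X₀, hX₀⟩ := h3B hQ hQ0 B ψ hψ ε hε
  refine ⟨X₀, fun X hX => ?_⟩
  have h3 := sum_Sx_off (ι := Pg R) B X fun S => ∏ q ∈ S, ψ (cqB hQ B q)
  have h4 : ∑ S ∈ Sx (Off B) X, ∏ q ∈ S, ψ (cqB hQ B q.1) =
      ∑ S ∈ Sx (Off B) X, ∏ q ∈ up S, ψ (cqB hQ B q) :=
    sum_congr rfl fun S _ => (prod_up S fun q => ψ (cqB hQ B q)).symm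
  rw [h4, h3]
  exact hX₀ X hX

/-- The class system of the data `((sys R).dat cl).off B`. -/
def datB (hQ : (sys R).Mod Q) [Fintype κ] (hcl : (sys R).Cls Q cl) (B : Finset (Pg R)) :
    Cl2 (((sys R).dat cl).off B) (GRB hQ B) where
  cl q := cqB hQ B q.1
  A := Sum.elim (fun j => (QSys.AQ (D := sys R) hQ hcl.mul hcl.per j).comp (AddMonoidHom.fst _ _))
    fun b => (Pi.evalAddMonoidHom (fun _ : B => ZMod 2) b).comp (AddMonoidHom.snd _ _)
  ha := by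
    rintro ⟨q, hq⟩ (j | b)
    · exact (QSys.AQ_clp (D := sys R) hQ hcl.mul hcl.per j q).symm
    · rfl

theorem datB_H3 (hQ : (sys R).Mod Q) (hQ0 : Q ≠ 0) [Fintype κ] (hcl : (sys R).Cls Q cl)
    (B : Finset (Pg R)) : (datB hQ hcl B).H3 := by
  intro ψ hψ ε hε
  obtain ⟨q, hq⟩ := hψ
  exact h3B' hQ hQ0 B ψ ⟨q.1, hq⟩ ε hε

/-- The class system of the data `(dR cl).off B`. -/
def dRB (hQ : (sys R).Mod Q) [Fintype κ] (hcl : (sys R).Cls Q cl) (hr : Rcp cl w)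
    (B : Finset (Pg R)) : Cl2 ((dR cl).off B) (GRB hQ B) where
  cl q := cqB hQ B q.1
  A := Sum.elim (fun j => (QSys.AQ (D := sys R) hQ hcl.mul hcl.per j).comp (AddMonoidHom.fst _ _))
    fun b => (Pi.evalAddMonoidHom (fun _ : B => ZMod 2) b).comp (AddMonoidHom.snd _ _) +
      ∑ j, (AddMonoidHom.mulLeft ((∑ i, w i * cl i b.1.1) * w j)).comp
        ((QSys.AQ (D := sys R) hQ hcl.mul hcl.per j).comp (AddMonoidHom.fst _ _))
  ha := by
    rintro ⟨q, hq⟩ (j | b)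
    · exact (QSys.AQ_clp (D := sys R) hQ hcl.mul hcl.per j q).symm
    · have hqb : b.1 ≠ q := fun e => hq (e ▸ b.2)
      have h1 : (((dR cl).off B).a ⟨q, hq⟩ (Sum.inr b)) = c2 q b.1.1 := rfl
      rw [h1, hr.symm' b.1 q hqb]
      simp only [Sum.elim_inr]
      rw [AddMonoidHom.add_apply, AddMonoidHom.finsetSum_apply]
      congr 1
      rw [mul_sum]
      refine sum_congr rfl fun j _ => ?_
      have h2 : (QSys.AQ (D := sys R) hQ hcl.mul hcl.per j) (cq hQ q) = cl j q.1 :=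
        QSys.AQ_clp (D := sys R) hQ hcl.mul hcl.per j q
      change _ = (∑ i, w i * cl i b.1.1) * w j *
        (QSys.AQ (D := sys R) hQ hcl.mul hcl.per j) (cq hQ q)
      rw [h2, mul_assoc]

theorem dRB_H3 (hQ : (sys R).Mod Q) (hQ0 : Q ≠ 0) [Fintype κ] (hcl : (sys R).Cls Q cl)
    (hr : Rcp cl w) (B : Finset (Pg R)) : (dRB hQ hcl hr B).H3 := by
  intro ψ hψ ε hε
  obtain ⟨q, hq⟩ := hψ
  exact h3B' hQ hQ0 B ψ ⟨q.1, hq⟩ ε hε

end

end Pool.Agent.Lib.MP_1a91b9_ntR
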