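import Mathlib

/-!
# MP_1a91b9_nt, generic part R: Jacobi symbols as exponents

`js a N` is the exponent of the Jacobi symbol `(a / N)`. If `E` divides `N - M²` then `js E N` is
given by residues modulo `8` (`js_odd`, `js_even`, `js_two_mod`).
-/

set_option autoImplicit false

namespace Pool.Agent.Lib.MP_1a91b9_ntR

open ZMod NumberTheorySymbols

/-- The exponent of the Jacobi symbol. -/
def js (a : ℤ) (N : ℕ) : ZMod 2 := if jacobiSym a N = 1 then 0 else 1

theorem js_eq_zero {a : ℤ} {N : ℕ} (h : jacobiSym a N = 1) : js a N = 0 := if_pos h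

theorem js_eq_one {a : ℤ} {N : ℕ} (h : jacobiSym a N = -1) : js a N = 1 := by
  unfold js
  rw [if_neg]
  rw [h]
  norm_num

theorem jac_or {a : ℤ} {N : ℕ} (h : IsCoprime a (N : ℤ)) :
    jacobiSym a N = 1 ∨ jacobiSym a N = -1 :=
  jacobiSym.eq_one_or_neg_one (Int.isCoprime_iff_gcd_eq_one.1 h)

theorem js_mul {a b : ℤ} {N : ℕ} (ha : IsCoprime a (N : ℤ)) (hb : IsCoprime b (N : ℤ)) :
    js (a * b) N = js a N + js b N := by
  have h11 : (1 : ZMod 2) + 1 = 0 := by decide
  rcases jac_or ha with h1 | h1 <;> rcases jac_or hb with h2 | h2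
  · rw [js_eq_zero h1, js_eq_zero h2, js_eq_zero, add_zero]
    rw [jacobiSym.mul_left, h1, h2, mul_one]
  · rw [js_eq_zero h1, js_eq_one h2, js_eq_one, zero_add]
    rw [jacobiSym.mul_left, h1, h2, one_mul]
  · rw [js_eq_one h1, js_eq_zero h2, js_eq_one, add_zero]
    rw [jacobiSym.mul_left, h1, h2, mul_one]
  · rw [js_eq_one h1, js_eq_one h2, js_eq_zero, h11]
    rw [jacobiSym.mul_left, h1, h2]
    norm_num

theorem js_mul_right (a : ℤ) {p q : ℕ} (hp : p ≠ 0) (hq : q ≠ 0) (ha : IsCoprime a (p : ℤ))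
    (hb : IsCoprime a (q : ℤ)) : js a (p * q) = js a p + js a q := by
  have h11 : (1 : ZMod 2) + 1 = 0 := by decide
  have h := jacobiSym.mul_right' a hp hq
  rcases jac_or ha with h1 | h1 <;> rcases jac_or hb with h2 | h2
  · rw [js_eq_zero h1, js_eq_zero h2, js_eq_zero, add_zero]
    rw [h, h1, h2, mul_one]
  · rw [js_eq_zero h1, js_eq_one h2, js_eq_one, zero_add]
    rw [h, h1, h2, one_mul]
  · rw [js_eq_one h1, js_eq_zero h2, js_eq_one, add_zero]
    rw [h, h1, h2, mul_one]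
  · rw [js_eq_one h1, js_eq_one h2, js_eq_zero, h11]
    rw [h, h1, h2]
    norm_num

theorem js_sq {a : ℤ} {N : ℕ} (ha : IsCoprime a (N : ℤ)) : js (a ^ 2) N = 0 :=
  js_eq_zero (jacobiSym.sq_one' (Int.isCoprime_iff_gcd_eq_one.1 ha))

theorem js_neg_one {N : ℕ} (hN : N % 2 = 1) : js (-1) N = if N % 4 = 3 then 1 else 0 := by
  have ho : Odd N := Nat.odd_iff.2 hN
  split_ifs with h
  · exact js_eq_one (by rw [jacobiSym.at_neg_one ho, ZMod.χ₄_nat_three_mod_four h])
  · exact js_eq_zero (by rw [jacobiSym.at_neg_one ho, ZMod.χ₄_nat_one_mod_four (by omega)])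

theorem js_two {N : ℕ} (hN : N % 2 = 1) :
    js 2 N = if N % 8 = 1 ∨ N % 8 = 7 then 0 else 1 := by
  have ho : Odd N := Nat.odd_iff.2 hN
  have h2 : jacobiSym 2 N = if N % 8 = 1 ∨ N % 8 = 7 then 1 else -1 := by
    rw [jacobiSym.at_two ho, ZMod.χ₈_nat_eq_if_mod_eight, if_neg (by omega)]
  split_ifs with h
  · exact js_eq_zero (by rw [h2, if_pos h])
  · exact js_eq_one (by rw [h2, if_neg h])

theorem coprime_neg_one (N : ℕ) : IsCoprime (-1 : ℤ) (N : ℤ) := ⟨-1, 0, by ring⟩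

theorem coprime_two {N : ℕ} (hN : N % 2 = 1) : IsCoprime (2 : ℤ) (N : ℤ) := by
  refine ⟨-((N : ℤ) / 2), 1, ?_⟩
  have : (N : ℤ) = 2 * ((N : ℤ) / 2) + 1 := by omega
  linarith

theorem js_neg {a : ℤ} {N : ℕ} (hN : N % 2 = 1) (ha : IsCoprime a (N : ℤ)) :
    js (-a) N = js a N + if N % 4 = 3 then 1 else 0 := by
  rw [← neg_one_mul, js_mul (coprime_neg_one N) ha, js_neg_one hN, add_comm]

/-- The case of an odd `E`. -/
theorem js_odd {E M : ℤ} {N : ℕ} (hN : N % 2 = 1) (hc : IsCoprime E (N : ℤ))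
    (h : E ∣ (N : ℤ) - M ^ 2) (hE : E % 2 = 1) :
    js E N = if N % 4 = 3 ∧ E % 4 = 3 then 1 else 0 := by
  have hNo : Odd N := Nat.odd_iff.2 hN
  have hd : Odd E.natAbs := Nat.odd_iff.2 (by omega)
  have hcM : IsCoprime M (E.natAbs : ℤ) := by
    have h1 : IsCoprime (M ^ 2) E := by
      obtain ⟨u, v, huv⟩ := hc
      obtain ⟨k, hk⟩ := h
      exact ⟨v, u + v * k, by linear_combination huv - v * hk⟩
    have h2 : IsCoprime M E := (IsCoprime.pow_left_iff (by norm_num)).1 h1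
    rcases Int.natAbs_eq E with h3 | h3
    · rw [← h3]
      exact h2
    · have h4 : (E.natAbs : ℤ) = -E := by omega
      rw [h4]
      exact h2.neg_right
  have hJN : jacobiSym (N : ℤ) E.natAbs = 1 := by
    have h1 : (N : ℤ) % (E.natAbs : ℤ) = M ^ 2 % (E.natAbs : ℤ) := by
      apply Int.ModEq.eq
      apply Int.ModEq.symm
      rw [Int.modEq_iff_dvd]
      exact Int.natAbs_dvd.2 h
    rw [jacobiSym.mod_left' h1]
    exact jacobiSym.sq_one' (Int.isCoprime_iff_gcd_eq_one.1 hcM)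
  have hq := jacobiSym.quadratic_reciprocity_if (a := E.natAbs) (b := N) (by omega) hN
  rw [hJN] at hq
  have hcn : IsCoprime (E.natAbs : ℤ) (N : ℤ) := by
    rcases Int.natAbs_eq E with h3 | h3
    · rw [← h3]
      exact hc
    · have h4 : (E.natAbs : ℤ) = -E := by omega
      rw [h4]
      exact hc.neg_left
  have hjs : js (E.natAbs : ℤ) N = if E.natAbs % 4 = 3 ∧ N % 4 = 3 then 1 else 0 := by
    by_cases h5 : E.natAbs % 4 = 3 ∧ N % 4 = 3
    · rw [if_pos h5] at hq ⊢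
      exact js_eq_one hq.symm
    · rw [if_neg h5] at hq ⊢
      exact js_eq_zero hq.symm
  have h11 : (1 : ZMod 2) + 1 = 0 := by decide
  rcases Int.natAbs_eq E with h3 | h3
  · have e : js E N = js (E.natAbs : ℤ) N := by rw [← h3]
    rw [e, hjs]
    have h6 : (E.natAbs % 4 = 3 ∧ N % 4 = 3) ↔ (N % 4 = 3 ∧ E % 4 = 3) := by omega
    simp only [h6]
  · have e : js E N = js (-(E.natAbs : ℤ)) N := by rw [← h3]
    rw [e, js_neg hN hcn, hjs]
    by_cases h7 : N % 4 = 3
    · by_cases h8 : E % 4 = 3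
      · have h9 : ¬ (E.natAbs % 4 = 3 ∧ N % 4 = 3) := by omega
        rw [if_neg h9, if_pos h7, if_pos ⟨h7, h8⟩, zero_add]
      · have h9 : E.natAbs % 4 = 3 ∧ N % 4 = 3 := by omega
        rw [if_pos h9, if_pos h7, if_neg (fun h => h8 h.2), h11]
    · rw [if_neg (fun h => h7 h.2), if_neg h7, if_neg (fun h => h7 h.1), add_zero]

/-- The case of an `E ≡ 2` modulo `4`. -/
theorem js_two_mod {E M : ℤ} {N : ℕ} (hN : N % 4 = 1) (hc : IsCoprime E (N : ℤ))
    (h : E ∣ (N : ℤ) - M ^ 2) (hE : E % 4 = 2) :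
    js E N = if N % 8 = 1 then 0 else 1 := by
  obtain ⟨F, rfl⟩ : ∃ F, E = 2 * F := ⟨E / 2, by omega⟩
  have h2 : js F N = 0 := by
    rw [js_odd (M := M) (by omega) hc.of_mul_left_right ((dvd_mul_left _ _).trans h) (by omega),
      if_neg (by omega)]
  rw [js_mul (coprime_two (by omega)) hc.of_mul_left_right, js_two (by omega), h2, add_zero]
  by_cases h8 : N % 8 = 1
  · rw [if_pos (Or.inl h8), if_pos h8]
  · rw [if_neg (by omega), if_neg h8]

/-- The case `N ≡ 1` modulo `8`. -/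
theorem js_eight {M : ℤ} {N : ℕ} (hN : N % 8 = 1) : ∀ E : ℤ, E ≠ 0 → IsCoprime E (N : ℤ) →
    E ∣ (N : ℤ) - M ^ 2 → js E N = 0 := by
  intro E
  obtain ⟨k, hk⟩ : ∃ k, E.natAbs = k := ⟨_, rfl⟩
  induction k using Nat.strong_induction_on generalizing E with
  | _ k ih =>
    intro h0 hc hd
    by_cases h2 : E % 2 = 1
    · rw [js_odd (M := M) (by omega) hc hd h2, if_neg (by omega)]
    · obtain ⟨F, rfl⟩ : ∃ F, E = 2 * F := ⟨E / 2, by omega⟩
      have hF := ih F.natAbs (by omega) F rfl (by omega) hc.of_mul_left_right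
        ((dvd_mul_left _ _).trans hd)
      rw [js_mul (coprime_two (by omega)) hc.of_mul_left_right, js_two (by omega), hF,
        if_pos (Or.inl hN), add_zero]

/-- Quadratic reciprocity for a rational prime `r ≡ ± 1` normalised to be `1` modulo `4`. -/
theorem js_recip {r : ℤ} {p N : ℕ} (hr : r = p ∨ r = -p) (h4 : r % 4 = 1) (hN : N % 2 = 1)
    (hc : IsCoprime (p : ℤ) (N : ℤ)) : js r N = js N p := by
  have hp : p % 2 = 1 := by omega
  have hq := jacobiSym.quadratic_reciprocity_if (a := p) (b := N) hp hN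
  have h11 : (1 : ZMod 2) + 1 = 0 := by decide
  rcases hr with rfl | rfl
  · rw [if_neg (by omega)] at hq
    unfold js
    rw [hq]
  · rw [js_neg hN hc]
    by_cases h3 : N % 4 = 3
    · rw [if_pos ⟨by omega, h3⟩] at hq
      rw [if_pos h3]
      rcases jac_or hc with h1 | h1
      · rw [js_eq_zero h1, js_eq_one (by omega), zero_add]
      · rw [js_eq_one h1, js_eq_zero (by omega), h11]
    · rw [if_neg fun h => h3 h.2] at hq
      rw [if_neg h3, add_zero]
      unfold js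
      rw [hq]

end Pool.Agent.Lib.MP_1a91b9_ntR
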