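import Pool.Agent.Lib.MP_1a91b9_ntR.Pri

/-!
# MP_1a91b9_nt, generic part R: the squarefree elements

`Bad π`: the primes `π a` are the primes which do not divide a primary element; the units are `1`
and `-1`. The squarefree elements are the `mu (u, e) * DD S`, `mu (u, e) = (-1)^u ∏ π a ^ e a`.
-/

set_option autoImplicit false

namespace Pool.Agent.Lib.MP_1a91b9_ntR

open Finset
open Pool.Agent.Lib.MP_1a91b9_ntH (PS nm pr mem_pr Sx)

noncomputable section

variable {R : Type} [CommRing R] [IsDomain R] [IsPrincipalIdealRing R] [Qi R] [Pri R]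
  {A : Type} [Fintype A] [DecidableEq A]

/-- The bad primes. -/
structure Bad (π : A → R) : Prop where
  prime : ∀ a, Prime (π a)
  ne : ∀ a b, a ≠ b → ¬ π a ∣ π b
  odd : ∀ a x, Pri.In x → ¬ π a ∣ x
  cop : ∀ x, (∀ a, ¬ π a ∣ x) → IsCoprime x (Pri.M : R)
  unit : ∀ u : R, IsUnit u → u = 1 ∨ u = -1

variable {π : A → R}

omit [IsDomain R] [IsPrincipalIdealRing R] [Pri R] in
theorem neg_one_ne : (-1 : R) ≠ 1 := by
  intro h
  have h1 := congrArg (Qi.co (R := R)) h
  rw [map_neg, co_one] at h1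
  have h2 := congrArg Prod.fst h1
  simp only [Prod.fst_neg] at h2
  omega

omit [IsDomain R] [IsPrincipalIdealRing R] in
theorem not_in_neg_one : ¬ Pri.In (-1 : R) := fun h =>
  neg_one_ne (Pri.unit (-1 : R) isUnit_one.neg h)

/-- The product of the bad primes. -/
def pb (π : A → R) (e : A → ZMod 2) : R := ∏ a, π a ^ (e a).val

/-- The multipliers. -/
def mu (π : A → R) (i : ZMod 2 × (A → ZMod 2)) : R := (-1) ^ i.1.val * pb π i.2

omit [IsDomain R] [IsPrincipalIdealRing R] [Qi R] [Pri R] [Fintype A] [DecidableEq A] in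
theorem z2v (x : ZMod 2) : (x = 0 ∧ x.val = 0) ∨ (x = 1 ∧ x.val = 1) := by
  revert x
  decide

omit [IsPrincipalIdealRing R] in
theorem Bad.dvd_pb (h : Bad π) (a : A) (e : A → ZMod 2) : π a ∣ pb π e ↔ e a = 1 := by
  constructor
  · intro h1
    obtain ⟨b, -, hb⟩ := ((h.prime a).dvd_finsetProd_iff _).1 h1
    by_cases hab : a = b
    · subst hab
      rcases z2v (e a) with ⟨h2, h3⟩ | ⟨h2, h3⟩
      · rw [h3, pow_zero] at hb
        exact absurd (isUnit_of_dvd_one hb) (h.prime a).not_isUnit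
      · exact h2
    · exact absurd ((h.prime a).dvd_of_dvd_pow hb) (h.ne a b hab)
  · intro h1
    have h2 : π a ^ (e a).val ∣ pb π e := dvd_prod_of_mem (fun b => π b ^ (e b).val) (mem_univ a)
    rw [h1] at h2
    have h3 : (1 : ZMod 2).val = 1 := rfl
    rwa [h3, pow_one] at h2

omit [IsPrincipalIdealRing R] in
theorem Bad.dvd_mu (h : Bad π) (a : A) (i : ZMod 2 × (A → ZMod 2)) {x : R} (hx : Pri.In x) :
    π a ∣ mu π i * x ↔ i.2 a = 1 := by
  have hu : IsUnit ((-1 : R) ^ i.1.val) := (isUnit_one.neg).pow _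
  unfold mu
  rw [mul_assoc, hu.dvd_mul_left]
  constructor
  · intro h1
    rcases (h.prime a).dvd_or_dvd h1 with h2 | h2
    · exact (h.dvd_pb a i.2).1 h2
    · exact absurd h2 (h.odd a x hx)
  · intro h1
    exact ((h.dvd_pb a i.2).2 h1).mul_right x

omit [IsPrincipalIdealRing R] in
theorem Bad.pb_ne (h : Bad π) (e : A → ZMod 2) : pb π e ≠ 0 :=
  prod_ne_zero_iff.2 fun a _ => pow_ne_zero _ (h.prime a).ne_zero

omit [IsPrincipalIdealRing R] in
theorem Bad.mu_ne (h : Bad π) (i : ZMod 2 × (A → ZMod 2)) : mu π i ≠ 0 :=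
  mul_ne_zero (pow_ne_zero _ (neg_ne_zero.2 one_ne_zero)) (h.pb_ne i.2)

omit [IsPrincipalIdealRing R] in
theorem Bad.mu_inj (h : Bad π) {i j : ZMod 2 × (A → ZMod 2)} {x y : R} (hx : Pri.In x)
    (hy : Pri.In y) (hxy : mu π i * x = mu π j * y) : i = j ∧ x = y := by
  have e2 : i.2 = j.2 := by
    funext a
    have h1 : (i.2 a = 1 ↔ j.2 a = 1) := by
      rw [← h.dvd_mu a i hx, ← h.dvd_mu a j hy, hxy]
    rcases z2v (i.2 a) with ⟨h2, -⟩ | ⟨h2, -⟩ <;> rcases z2v (j.2 a) with ⟨h3, -⟩ | ⟨h3, -⟩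
    · rw [h2, h3]
    · rw [h2, h3] at h1
      exact absurd (h1.2 rfl) zero_ne_one
    · rw [h2, h3] at h1
      exact absurd (h1.1 rfl) zero_ne_one
    · rw [h2, h3]
  have h3 : (-1 : R) ^ i.1.val * x = (-1) ^ j.1.val * y := by
    apply mul_left_cancel₀ (h.pb_ne i.2)
    unfold mu at hxy
    rw [← e2] at hxy
    linear_combination hxy
  have key : ∀ x y : R, Pri.In x → Pri.In y → x ≠ -y := by
    intro x y hx hy hxy
    have h4 : Pri.In (y * -1) := by
      rw [mul_neg_one, ← hxy]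
      exact hx
    exact not_in_neg_one ((Pri.mul_in y (-1) hy).1 h4)
  rcases z2v i.1 with ⟨a1, a2⟩ | ⟨a1, a2⟩ <;> rcases z2v j.1 with ⟨b1, b2⟩ | ⟨b1, b2⟩ <;>
    rw [a2, b2] at h3
  · rw [pow_zero, one_mul, one_mul] at h3
    exact ⟨Prod.ext (a1.trans b1.symm) e2, h3⟩
  · rw [pow_zero, one_mul, pow_one, neg_one_mul] at h3
    exact absurd h3 (key x y hx hy)
  · rw [pow_zero, one_mul, pow_one, neg_one_mul] at h3
    exact absurd h3.symm (key y x hy hx)
  · rw [pow_one, neg_one_mul, neg_one_mul, neg_inj] at h3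
    exact ⟨Prod.ext (a1.trans b1.symm) e2, h3⟩

theorem in_DD (S : Finset (Pg R)) : Pri.In (DD S) := QSys.in_DD (D := sys R) S

theorem DD_inj : Function.Injective (DD (R := R)) := (prm R).dd_inj

theorem Bad.mul_inj (h : Bad π) {i j : ZMod 2 × (A → ZMod 2)} {S T : Finset (Pg R)}
    (hST : mu π i * DD S = mu π j * DD T) : i = j ∧ S = T := by
  obtain ⟨h1, h2⟩ := h.mu_inj (in_DD S) (in_DD T) hST
  exact ⟨h1, DD_inj h2⟩

theorem Bad.cop_pi (h : Bad π) {a : A} {x : R} (hx : ¬ π a ∣ x) : IsCoprime (π a) x :=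
  (h.prime a).irreducible.coprime_iff_not_dvd.2 hx

theorem Bad.pb_sqf (h : Bad π) (e : A → ZMod 2) : Squarefree (pb π e) := by
  unfold pb
  apply Finset.squarefree_prod_of_pairwise_isCoprime
  · intro a _ b _ hab
    exact ((h.cop_pi (h.ne a b hab)).pow (m := (e a).val) (n := (e b).val)).isRelPrime
  · intro a _
    rcases z2v (e a) with ⟨-, h2⟩ | ⟨-, h2⟩
    · rw [h2, pow_zero]
      exact squarefree_one
    · rw [h2, pow_one]
      exact (h.prime a).squarefree

theorem Bad.cop_pb (h : Bad π) (e : A → ZMod 2) {x : R} (hx : Pri.In x) :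
    IsCoprime (pb π e) x := by
  unfold pb
  exact IsCoprime.prod_left fun a _ => (h.cop_pi (h.odd a x hx)).pow_left

theorem Bad.sqf (h : Bad π) (i : ZMod 2 × (A → ZMod 2)) (S : Finset (Pg R)) :
    Squarefree (mu π i * DD S) := by
  have hu : IsUnit ((-1 : R) ^ i.1.val) := (isUnit_one.neg).pow _
  have h1 : Squarefree (pb π i.2 * DD S) := by
    rw [squarefree_mul_iff]
    exact ⟨(h.cop_pb i.2 (in_DD S)).isRelPrime, h.pb_sqf i.2, (prm R).dd_squarefree S⟩
  unfold mu
  rw [mul_assoc]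
  refine h1.squarefree_of_dvd ?_
  rw [hu.mul_left_dvd]

/-- Every squarefree element has this form. -/
theorem Bad.surj (h : Bad π) {x : R} (hx : Squarefree x) :
    ∃ (i : ZMod 2 × (A → ZMod 2)) (S : Finset (Pg R)), x = mu π i * DD S := by
  classical
  obtain ⟨e, he⟩ : ∃ e : A → ZMod 2, e = fun a => if π a ∣ x then 1 else 0 := ⟨_, rfl⟩
  have hdvd : pb π e ∣ x := by
    unfold pb
    apply Finset.prod_dvd_of_coprime
    · intro a _ b _ hab
      exact (h.cop_pi (h.ne a b hab)).pow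
    · intro a _
      rw [he]
      by_cases h1 : π a ∣ x
      · simp only [h1, if_true]
        have h3 : (1 : ZMod 2).val = 1 := rfl
        rwa [h3, pow_one]
      · simp only [h1, if_false]
        rw [ZMod.val_zero, pow_zero]
        exact one_dvd _
  obtain ⟨y, hy⟩ := hdvd
  have hy1 : ∀ a, ¬ π a ∣ y := by
    rintro a ⟨z, hz⟩
    have h1 : π a ∣ x := by rw [hy, hz]; exact ⟨pb π e * z, by ring⟩
    have h2 : π a ∣ pb π e := by
      rw [h.dvd_pb, he]
      simp only [h1, if_true]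
    obtain ⟨t, ht⟩ := h2
    have h3 : π a * π a ∣ x := by
      rw [hy, hz, ht]
      exact ⟨t * z, by ring⟩
    exact (h.prime a).not_isUnit (hx _ h3)
  obtain ⟨u, hu, hin⟩ := Pri.ex y (h.cop y hy1)
  have hsq : Squarefree (u * y) := by
    have h1 : Squarefree y := hx.squarefree_of_dvd ⟨pb π e, by rw [hy, mul_comm]⟩
    refine h1.squarefree_of_dvd ?_
    rw [hu.mul_left_dvd]
  obtain ⟨S, hS⟩ := (prm R).exists_dd hin hsq
  have hS' : DD S = u * y := hS
  rcases h.unit u hu with h1 | h1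
  · refine ⟨(0, e), S, ?_⟩
    rw [hS', h1, hy, mu, ZMod.val_zero]
    ring
  · refine ⟨(1, e), S, ?_⟩
    have h3 : (1 : ZMod 2).val = 1 := rfl
    rw [hS', h1, hy, mu, h3]
    ring

/-- The elements which are not divisible by the square of a bad prime are multiples of primary
elements. -/
theorem Bad.exists_mu (h : Bad π) {x : R} (hx : ∀ a, ¬ π a ^ 2 ∣ x) :
    ∃ (i : ZMod 2 × (A → ZMod 2)) (y : R), Pri.In y ∧ x = mu π i * y := by
  classical
  obtain ⟨e, he⟩ : ∃ e : A → ZMod 2, e = fun a => if π a ∣ x then 1 else 0 := ⟨_, rfl⟩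
  have hdvd : pb π e ∣ x := by
    unfold pb
    apply Finset.prod_dvd_of_coprime
    · intro a _ b _ hab
      exact (h.cop_pi (h.ne a b hab)).pow
    · intro a _
      rw [he]
      by_cases h1 : π a ∣ x
      · simp only [h1, if_true]
        have h3 : (1 : ZMod 2).val = 1 := rfl
        rwa [h3, pow_one]
      · simp only [h1, if_false]
        rw [ZMod.val_zero, pow_zero]
        exact one_dvd _
  obtain ⟨y, hy⟩ := hdvd
  have hy1 : ∀ a, ¬ π a ∣ y := by
    rintro a ⟨z, hz⟩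
    have h1 : π a ∣ x := by rw [hy, hz]; exact ⟨pb π e * z, by ring⟩
    have h2 : π a ∣ pb π e := by
      rw [h.dvd_pb, he]
      simp only [h1, if_true]
    obtain ⟨t, ht⟩ := h2
    apply hx a
    rw [hy, hz, ht]
    exact ⟨t * z, by ring⟩
  obtain ⟨u, hu, hin⟩ := Pri.ex y (h.cop y hy1)
  rcases h.unit u hu with h1 | h1
  · refine ⟨(0, e), u * y, hin, ?_⟩
    rw [h1, hy, mu, ZMod.val_zero]
    ring
  · refine ⟨(1, e), u * y, hin, ?_⟩
    have h3 : (1 : ZMod 2).val = 1 := rfl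
    rw [h1, hy, mu, h3]
    ring

/-- A class modulo `m` which is not divisible by the square of a bad prime contains a multiple of a
primary element. -/
theorem Bad.exists_cls (h : Bad π) {m u : R} (hu : ∀ a, ¬ (π a ^ 2 ∣ m ∧ π a ^ 2 ∣ u)) :
    ∃ (i : ZMod 2 × (A → ZMod 2)) (y : R), Pri.In y ∧ m ∣ mu π i * y - u := by
  have h1 : ∀ a, ∃ z : R, ¬ π a ^ 2 ∣ u + m * z := by
    intro a
    by_cases h2 : π a ^ 2 ∣ u
    · refine ⟨1, fun h3 => hu a ⟨?_, h2⟩⟩
      have h4 := dvd_sub h3 h2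
      have e : u + m * 1 - u = m := by ring
      rwa [e] at h4
    · refine ⟨0, ?_⟩
      rw [mul_zero, add_zero]
      exact h2
  choose z hz using h1
  have hcop : ∀ a b : A, a ≠ b →
      IsCoprime (Ideal.span {π a ^ 2}) (Ideal.span {π b ^ 2}) := by
    intro a b hab
    rw [Ideal.isCoprime_span_singleton_iff]
    exact (h.cop_pi (h.ne a b hab)).pow
  obtain ⟨r, hr⟩ := Ideal.exists_forall_sub_mem_ideal (I := fun a : A => Ideal.span {π a ^ 2})
    (fun a b hab => hcop a b hab) z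
  have h2 : ∀ a, ¬ π a ^ 2 ∣ u + m * r := by
    intro a h3
    have h4 := hr a
    rw [Ideal.mem_span_singleton] at h4
    apply hz a
    have h5 := dvd_sub h3 (h4.mul_left m)
    have e : u + m * r - m * (r - z a) = u + m * z a := by ring
    rwa [e] at h5
  obtain ⟨i, y, hy, e⟩ := h.exists_mu h2
  refine ⟨i, y, hy, ?_⟩
  rw [← e]
  exact ⟨r, by ring⟩

end

end Pool.Agent.Lib.MP_1a91b9_ntR
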