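import Pool.Agent.Lib.MP_1a91b9_ntR.Rg
import Pool.Agent.Lib.MP_1a91b9_ntR.ChiC
import Pool.Agent.Lib.MP_1a91b9_ntR.BHyp

/-!
# MP_1a91b9_nt, generic part R: primary elements, normalised primes, quadratic symbols

`Pri R`: a system of primary elements of a ring with coordinates. `Pg R` the primary primes,
`c2 q x` the exponent of the quadratic symbol of `x` modulo `q`.
-/

set_option autoImplicit false

namespace Pool.Agent.Lib.MP_1a91b9_ntR

open Finset
open Pool.Agent.Lib.MP_1a91b9_ntH (PS nm pr mem_pr Sx Cheb Zt)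
open Pool.Agent.Lib.MP_1a91b9_ntH.B (Fib)

noncomputable section

/-- Primary elements: a condition modulo `M`, exactly one element in each class of associated
elements prime to `M`; they have odd norm. -/
class Pri (R : Type) [CommRing R] [Qi R] where
  In : R → Prop
  M : R
  ne : M ≠ 0
  in_one : In 1
  mul_in : ∀ x y, In x → (In (x * y) ↔ In y)
  con : ∀ x y, M ∣ x - y → In x → In y
  zero : ¬ In 0
  cop : ∀ x, In x → IsCoprime x M
  odd : ∀ x, In x → nG x % 2 = 1
  unit : ∀ u, IsUnit u → In u → u = 1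
  ex : ∀ x, IsCoprime x M → ∃ u, IsUnit u ∧ In (u * x)

/-- The primary primes. -/
def Pg (R : Type) [CommRing R] [Qi R] [Pri R] : Type := {x : R // Prime x ∧ Pri.In x}

variable {R : Type} [CommRing R] [IsDomain R] [IsPrincipalIdealRing R] [Qi R] [Pri R]

instance : DecidableEq (Pg R) := Classical.decEq _

omit [IsDomain R] [IsPrincipalIdealRing R] [Pri R] in
theorem nG_fin (n : ℕ) : {x : R | nG x ≤ n}.Finite := by
  have h : {x : R | nG x ≤ n} = ↑(discG R n) := by
    ext x
    exact mem_discG.symm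
  rw [h]
  exact Finset.finite_toSet _

instance psPg : PS (Pg R) where
  N q := nG q.1
  two_le q := nG_two_le q.2.1
  fin n := (nG_fin n).preimage (f := (Subtype.val : Pg R → R)) Subtype.val_injective.injOn

theorem PN_eq (q : Pg R) : PS.N q = nG q.1 := rfl

namespace Pg

omit [IsDomain R] [IsPrincipalIdealRing R] in
theorem prime (q : Pg R) : Prime q.1 := q.2.1

omit [IsDomain R] [IsPrincipalIdealRing R] in
theorem inP (q : Pg R) : Pri.In q.1 := q.2.2

omit [IsDomain R] [IsPrincipalIdealRing R] in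
theorem ne_zero (q : Pg R) : q.1 ≠ 0 := q.2.1.ne_zero

end Pg

omit [IsPrincipalIdealRing R] in
theorem eq_of_assoc {x y : R} (hx : Pri.In x) (hy : Pri.In y) (h : Associated x y) : x = y := by
  obtain ⟨u, hu⟩ := h
  have h1 : Pri.In (u : R) := by
    rw [← Pri.mul_in x (u : R) hx, hu]
    exact hy
  rw [← hu, Pri.unit _ u.isUnit h1, mul_one]

omit [IsPrincipalIdealRing R] in
theorem Pg.not_dvd {p q : Pg R} (h : p ≠ q) : ¬ p.1 ∣ q.1 := fun hd =>
  h (Subtype.ext (eq_of_assoc p.inP q.inP (p.prime.associated_of_dvd q.prime hd)))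

theorem Pg.cop {p q : Pg R} (h : p ≠ q) : IsCoprime p.1 q.1 :=
  p.prime.irreducible.coprime_iff_not_dvd.2 (Pg.not_dvd h)

/-- A prime which is prime to `M` is a unit times a primary prime. -/
theorem exists_Pg {p : R} (hp : Prime p) (h : IsCoprime p (Pri.M : R)) :
    ∃ (u : R) (q : Pg R), IsUnit u ∧ q.1 = u * p := by
  obtain ⟨u, hu, hin⟩ := Pri.ex p h
  refine ⟨u, ⟨u * p, ?_, hin⟩, hu, rfl⟩
  have h1 : Associated p (u * p) := by
    rw [mul_comm]
    exact associated_mul_unit_right p u hu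
  exact h1.prime hp

theorem exists_prime_dvd {x : R} (hx : Pri.In x) (h1 : x ≠ 1) : ∃ q : Pg R, q.1 ∣ x := by
  have hu : ¬ IsUnit x := fun h => h1 (Pri.unit x h hx)
  have h0 : x ≠ 0 := fun h => Pri.zero (h ▸ hx)
  obtain ⟨p, hp, hd⟩ := WfDvdMonoid.exists_irreducible_factor hu h0
  have hpc : IsCoprime p (Pri.M : R) := (Pri.cop x hx).of_isCoprime_of_dvd_left hd
  obtain ⟨u, q, hu, hq⟩ := exists_Pg hp.prime hpc
  refine ⟨q, ?_⟩
  rw [hq]
  exact (associated_mul_unit_right p u hu).dvd_iff_dvd_left.1 hd |> fun h => by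
    rw [mul_comm]
    exact h

/-- The system of the primary primes, for the Euler products. -/
def prm (R : Type) [CommRing R] [IsDomain R] [IsPrincipalIdealRing R] [Qi R] [Pri R] :
    PrmG R (Pg R) where
  e q := q.1
  P := Pri.In
  prime := Pg.prime
  N_eq _ := rfl
  ndvd _ _ h := Pg.not_dvd h
  memP := Pg.inP
  one := Pri.in_one
  mul_iff q y := Pri.mul_in q.1 y q.inP
  ex _ hx h1 := exists_prime_dvd hx h1

theorem zt : ∃ C, Zt (Pg R) C := (prm R).zt

theorem md : PrmG.Md (prm R) (Pri.M : R) where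
  ne := Pri.ne
  h0 := Pri.zero
  cop x hx := (Pri.cop x hx).symm
  con := Pri.con

/-! ### Quadratic symbols -/

open Classical in
/-- The exponent of the quadratic symbol of `x` modulo the prime `q`. -/
def c2 (q : Pg R) (x : R) : ZMod 2 := if ∃ y, q.1 ∣ y ^ 2 - x then 0 else 1

theorem Pg.maximal (q : Pg R) : (Ideal.span {q.1}).IsMaximal :=
  Ideal.IsPrime.isMaximal ((Ideal.span_singleton_prime q.ne_zero).2 q.prime)
    (fun h => q.ne_zero (Ideal.span_singleton_eq_bot.1 h))

/-- The residue field: the facts used below. -/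
theorem residue (q : Pg R) : ∃ (F : Type) (_ : Field F) (_ : Fintype F) (f : R →+* F),
    Function.Surjective f ∧ (∀ x, f x = 0 ↔ q.1 ∣ x) ∧ ringChar F ≠ 2 ∧
      Fintype.card F = nG q.1 := by
  classical
  have i1 := q.maximal
  let _ : Field (R ⧸ Ideal.span {q.1}) := Ideal.Quotient.field _
  have : NeZero q.1 := ⟨q.ne_zero⟩
  let _ : Fintype (R ⧸ Ideal.span {q.1}) := Fintype.ofFinite _
  have hcard : Fintype.card (R ⧸ Ideal.span {q.1}) = nG q.1 := by
    rw [← Nat.card_eq_fintype_card, GauQ.card_quot]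
  refine ⟨R ⧸ Ideal.span {q.1}, inferInstance, inferInstance, Ideal.Quotient.mk _,
    Ideal.Quotient.mk_surjective, fun x => ?_, fun h => ?_, hcard⟩
  · rw [Ideal.Quotient.eq_zero_iff_mem, Ideal.mem_span_singleton]
  · have h1 := FiniteField.even_card_of_char_two h
    rw [hcard, Pri.odd q.1 q.inP] at h1
    exact one_ne_zero h1

theorem c2_eq_zero_iff {q : Pg R} {F : Type} [Field F] {f : R →+* F}
    (hs : Function.Surjective f) (hk : ∀ x, f x = 0 ↔ q.1 ∣ x) (x : R) :
    c2 q x = 0 ↔ IsSquare (f x) := by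
  classical
  unfold c2
  constructor
  · intro h
    split_ifs at h with h1
    · obtain ⟨y, hy⟩ := h1
      refine ⟨f y, ?_⟩
      rw [← hk, map_sub, map_pow, sub_eq_zero] at hy
      rw [← hy, sq]
    · exact absurd h one_ne_zero
  · rintro ⟨z, hz⟩
    obtain ⟨y, rfl⟩ := hs z
    rw [if_pos]
    refine ⟨y, ?_⟩
    rw [← hk, map_sub, map_pow, hz, sq, sub_self]

theorem c2_mul (q : Pg R) {x y : R} (hx : ¬ q.1 ∣ x) (hy : ¬ q.1 ∣ y) :
    c2 q (x * y) = c2 q x + c2 q y := by
  classical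
  obtain ⟨F, _, _, f, hs, hk, h2, -⟩ := residue q
  have hx0 : f x ≠ 0 := fun h => hx ((hk x).1 h)
  have hy0 : f y ≠ 0 := fun h => hy ((hk y).1 h)
  have key : ∀ z : R, f z ≠ 0 → (if c2 q z = 0 then (1 : ℤ) else -1) = quadraticChar F (f z) := by
    intro z hz
    have h3 := c2_eq_zero_iff (q := q) hs hk z
    rcases (quadraticChar_dichotomy hz) with h | h
    · rw [if_pos (h3.2 ((quadraticChar_one_iff_isSquare hz).1 h)), h]
    · rw [if_neg fun h5 => (quadraticChar_neg_one_iff_not_isSquare.1 h) (h3.1 h5), h]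
  have hxy0 : f (x * y) ≠ 0 := by
    rw [map_mul]
    exact mul_ne_zero hx0 hy0
  have hm : quadraticChar F (f (x * y)) = quadraticChar F (f x) * quadraticChar F (f y) := by
    rw [map_mul, map_mul]
  rw [← key _ hx0, ← key _ hy0, ← key _ hxy0] at hm
  have hv : ∀ a b c : ZMod 2, (if c = 0 then (1 : ℤ) else -1) =
      (if a = 0 then 1 else -1) * (if b = 0 then 1 else -1) → c = a + b := by decide
  exact hv _ _ _ hm

theorem c2_congr (q : Pg R) {x y : R} (h : q.1 ∣ x - y) : c2 q x = c2 q y := by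
  classical
  unfold c2
  congr 1
  apply propext
  have h' : q.1 ∣ y - x := by
    rw [← neg_sub]
    exact dvd_neg.2 h
  constructor
  · rintro ⟨z, hz⟩
    refine ⟨z, ?_⟩
    have := dvd_add hz h
    have e : z ^ 2 - x + (x - y) = z ^ 2 - y := by ring
    rwa [e] at this
  · rintro ⟨z, hz⟩
    refine ⟨z, ?_⟩
    have := dvd_add hz h'
    have e : z ^ 2 - y + (y - x) = z ^ 2 - x := by ring
    rwa [e] at this

/-- There is a quadratic nonresidue. -/
theorem exists_c2 (q : Pg R) : ∃ x : R, ¬ q.1 ∣ x ∧ c2 q x = 1 := by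
  obtain ⟨F, _, _, f, hs, hk, h2, -⟩ := residue q
  obtain ⟨a, ha⟩ := FiniteField.exists_nonsquare (F := F) h2
  obtain ⟨x, rfl⟩ := hs a
  refine ⟨x, fun h => ha ?_, ?_⟩
  · rw [(hk x).2 h]
    exact ⟨0, by simp⟩
  · have h4 : ∀ t : ZMod 2, t ≠ 0 → t = 1 := by decide
    exact h4 _ fun h5 => ha ((c2_eq_zero_iff hs hk x).1 h5)

/-- The system of the primes and the quadratic symbols. -/
def sys (R : Type) [CommRing R] [IsDomain R] [IsPrincipalIdealRing R] [Qi R] [Pri R] :
    QSys R (Pg R) where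
  e q := q.1
  In := Pri.In
  M := Pri.M
  c := c2
  prime := Pg.prime
  prim := Pg.inP
  in_one := Pri.in_one
  mul_in := Pri.mul_in
  con := Pri.con
  zero := Pri.zero
  cop p _ h := (p.prime.irreducible.coprime_iff_not_dvd).2 h
  ne _ _ h := Pg.not_dvd h
  mul p _ _ hx hy := c2_mul p hx hy
  congr p _ _ _ h := c2_congr p h
  surj := exists_c2

theorem sys_com : (sys R).Com (prm R) where
  e _ := rfl
  P _ := Iff.rfl

/-- The element of a squarefree integer. -/
def DD (S : Finset (Pg R)) : R := ∏ q ∈ S, q.1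

theorem sys_DD (S : Finset (Pg R)) : (sys R).DD S = DD S := rfl

theorem prm_dd (S : Finset (Pg R)) : (prm R).dd S = DD S := rfl

/-- The quadratic symbols and the class characters `cl`. -/
def dR {κ : Type} (cl : κ → R → ZMod 2) : Pool.Agent.Lib.MP_1a91b9_ntQ.Dat2 (Pg R) κ where
  s q p := c2 q p.1
  a q j := cl j q.1

end

end Pool.Agent.Lib.MP_1a91b9_ntR
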