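import Mathlib

/-!
# MP_1a91b9_nt, generic part R: real Dirichlet characters of `ℚ`, the sums over the primes

`negsum`: for a nontrivial character `f` with values in `ℤ` the sums
`- ∑ f(p) p ^ (-σ)` over the primes `p < x` are bounded above, uniformly in `1 < σ ≤ 3`
(because `L(1, f) ≠ 0`).
-/

set_option autoImplicit false

namespace Pool.Agent.Lib.MP_1a91b9_ntR

open Finset

noncomputable section

variable {n : ℕ} [NeZero n]

/-- The complex character. -/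
def cch (f : MulChar (ZMod n) ℤ) : DirichletCharacter ℂ n := f.ringHomComp (Int.castRingHom ℂ)

omit [NeZero n] in
theorem cch_apply (f : MulChar (ZMod n) ℤ) (a : ZMod n) : cch f a = ((f a : ℤ) : ℂ) := rfl

theorem exists_low (χ : DirichletCharacter ℂ n) (h1 : χ ≠ 1) : ∃ m : ℝ, 0 < m ∧ ∀ σ : ℝ, 1 ≤ σ →
    σ ≤ 3 → m ≤ ‖DirichletCharacter.LFunction χ σ‖ := by
  have hc : ContinuousOn (fun σ : ℝ => ‖DirichletCharacter.LFunction χ σ‖) (Set.Icc 1 3) := by
    apply Continuous.continuousOn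
    exact ((DirichletCharacter.differentiable_LFunction h1).continuous.comp
      Complex.continuous_ofReal).norm
  obtain ⟨s, hs, hm⟩ := isCompact_Icc.exists_isMinOn ⟨1, by constructor <;> norm_num⟩ hc
  refine ⟨‖DirichletCharacter.LFunction χ s‖, ?_, fun σ h2 h3 => hm ⟨h2, h3⟩⟩
  rw [norm_pos_iff]
  apply DirichletCharacter.LFunction_ne_zero_of_one_le_re
  · exact Or.inl h1
  · rw [Complex.ofReal_re]
    exact hs.1

theorem sum_sq_le (σ : ℝ) (hσ : 1 < σ) (x : ℕ) :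
    ∑ p ∈ Nat.primesBelow x, ((p : ℝ) ^ (-σ)) ^ 2 ≤ 1 := by
  have h1 : ∀ p ∈ Nat.primesBelow x, ((p : ℝ) ^ (-σ)) ^ 2 ≤ ((p : ℝ) ^ 2)⁻¹ := by
    intro p hp
    have hp2 : (1 : ℝ) ≤ p := by
      exact_mod_cast (Nat.prime_of_mem_primesBelow hp).one_lt.le
    have h2 : (p : ℝ) ^ (-σ) ≤ (p : ℝ) ^ (-1 : ℝ) :=
      Real.rpow_le_rpow_of_exponent_le hp2 (by linarith)
    rw [Real.rpow_neg_one] at h2
    have h3 : (0 : ℝ) ≤ (p : ℝ) ^ (-σ) := Real.rpow_nonneg (by linarith) _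
    calc ((p : ℝ) ^ (-σ)) ^ 2 ≤ ((p : ℝ)⁻¹) ^ 2 := pow_le_pow_left₀ h3 h2 2
      _ = ((p : ℝ) ^ 2)⁻¹ := by rw [inv_pow]
  refine (sum_le_sum h1).trans ?_
  have hsub : Nat.primesBelow x ⊆ Ioc 1 (x + 1) := by
    intro p hp
    rw [Nat.mem_primesBelow] at hp
    rw [mem_Ioc]
    exact ⟨hp.2.one_lt, by omega⟩
  refine (sum_le_sum_of_subset_of_nonneg hsub fun i _ _ => by positivity).trans ?_
  refine (sum_Ioc_inv_sq_le_sub one_ne_zero (by omega)).trans ?_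
  have : (0 : ℝ) ≤ (((x + 1 : ℕ) : ℝ))⁻¹ := by positivity
  push_cast at this ⊢
  linarith

theorem neg_le_log {t : ℝ} (ht : |t| ≤ 1 / 2) : -t ≤ Real.log (1 - t) + 2 * t ^ 2 := by
  have h := Real.abs_log_sub_add_sum_range_le (x := t) (by linarith) 1
  rw [sum_range_one] at h
  simp only [zero_add, pow_one, Nat.cast_zero, div_one] at h
  have h2 : |t| ^ (1 + 1) / (1 - |t|) ≤ 2 * t ^ 2 := by
    rw [div_le_iff₀ (by linarith)]
    norm_num
    have := sq_nonneg t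
    nlinarith
  have h3 := (abs_le.1 h).1
  linarith

/-- **The sums of a real character over the primes are bounded below.** -/
theorem negsum (f : MulChar (ZMod n) ℤ) (hf : f ≠ 1) (hb : ∀ a, |f a| ≤ 1) : ∃ C : ℝ,
    ∀ σ : ℝ, 1 < σ → σ ≤ 3 → ∀ᶠ x : ℕ in Filter.atTop,
      ∑ p ∈ Nat.primesBelow x, -((f (p : ZMod n) : ℤ) : ℝ) * (p : ℝ) ^ (-σ) ≤ C := by
  have hne : cch f ≠ 1 := by
    intro h
    apply hf
    ext u
    have h1 := congrArg (fun g : DirichletCharacter ℂ n => g (u : ZMod n)) h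
    simp only [cch_apply, MulChar.one_apply_coe] at h1
    rw [MulChar.one_apply_coe]
    exact_mod_cast h1
  obtain ⟨m, hm, hlow⟩ := exists_low (cch f) hne
  refine ⟨Real.log (2 / m) + 2, fun σ h1 h3 => ?_⟩
  have hL := DirichletCharacter.LSeries_eulerProduct (cch f) (s := (σ : ℂ))
    (by rw [Complex.ofReal_re]; exact h1)
  rw [← DirichletCharacter.LFunction_eq_LSeries (cch f) (by rw [Complex.ofReal_re]; exact h1)] at hL
  have hev := (hL.norm).eventually (lt_mem_nhds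
    (show m / 2 < ‖DirichletCharacter.LFunction (cch f) σ‖ from
      lt_of_lt_of_le (by linarith) (hlow σ h1.le h3)))
  filter_upwards [hev] with x hx
  have ht : ∀ p ∈ Nat.primesBelow x, |((f (p : ZMod n) : ℤ) : ℝ) * (p : ℝ) ^ (-σ)| ≤ 1 / 2 := by
    intro p hp
    have hp2 : (2 : ℝ) ≤ p := by exact_mod_cast (Nat.prime_of_mem_primesBelow hp).two_le
    have h5 : (0 : ℝ) ≤ (p : ℝ) ^ (-σ) := Real.rpow_nonneg (by linarith) _
    have h6 : (p : ℝ) ^ (-σ) ≤ 1 / 2 := by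
      calc (p : ℝ) ^ (-σ) ≤ (p : ℝ) ^ (-1 : ℝ) :=
            Real.rpow_le_rpow_of_exponent_le (by linarith) (by linarith)
        _ = (p : ℝ)⁻¹ := Real.rpow_neg_one _
        _ ≤ 1 / 2 := by
            rw [← one_div]
            exact one_div_le_one_div_of_le (by norm_num) hp2
    have h7 : |((f (p : ZMod n) : ℤ) : ℝ)| ≤ 1 := by
      have := hb (p : ZMod n)
      exact_mod_cast this
    rw [abs_mul, abs_of_nonneg h5]
    calc |((f (p : ZMod n) : ℤ) : ℝ)| * (p : ℝ) ^ (-σ) ≤ 1 * (1 / 2) :=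
          mul_le_mul h7 h6 h5 (by norm_num)
      _ = 1 / 2 := by norm_num
  have hpos : ∀ p ∈ Nat.primesBelow x, 0 < 1 - ((f (p : ZMod n) : ℤ) : ℝ) * (p : ℝ) ^ (-σ) := by
    intro p hp
    have := (abs_le.1 (ht p hp)).2
    linarith
  have hprod : ‖∏ p ∈ Nat.primesBelow x, (1 - (cch f) (p : ZMod n) * (p : ℂ) ^ (-(σ : ℂ)))⁻¹‖ =
      (∏ p ∈ Nat.primesBelow x, (1 - ((f (p : ZMod n) : ℤ) : ℝ) * (p : ℝ) ^ (-σ)))⁻¹ := by
    rw [norm_prod, ← prod_inv_distrib]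
    refine prod_congr rfl fun p hp => ?_
    rw [cch_apply, norm_inv]
    congr 1
    have e : (1 : ℂ) - ((f (p : ZMod n) : ℤ) : ℂ) * (p : ℂ) ^ (-(σ : ℂ)) =
        (((1 - ((f (p : ZMod n) : ℤ) : ℝ) * (p : ℝ) ^ (-σ) : ℝ)) : ℂ) := by
      push_cast
      rw [Complex.ofReal_cpow (Nat.cast_nonneg p)]
      push_cast
      rfl
    rw [e, Complex.norm_real, Real.norm_of_nonneg (hpos p hp).le]
  rw [hprod] at hx
  have hP : 0 < ∏ p ∈ Nat.primesBelow x, (1 - ((f (p : ZMod n) : ℤ) : ℝ) * (p : ℝ) ^ (-σ)) :=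
    prod_pos hpos
  have hlog : Real.log (∏ p ∈ Nat.primesBelow x, (1 - ((f (p : ZMod n) : ℤ) : ℝ) * (p : ℝ) ^ (-σ)))
      ≤ Real.log (2 / m) := by
    apply Real.log_le_log hP
    rw [lt_inv_comm₀ (by linarith) hP] at hx
    rw [inv_div] at hx
    exact hx.le
  rw [Real.log_prod fun p hp => (hpos p hp).ne'] at hlog
  calc ∑ p ∈ Nat.primesBelow x, -((f (p : ZMod n) : ℤ) : ℝ) * (p : ℝ) ^ (-σ)
      ≤ ∑ p ∈ Nat.primesBelow x, (Real.log (1 - ((f (p : ZMod n) : ℤ) : ℝ) * (p : ℝ) ^ (-σ)) +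
          2 * ((p : ℝ) ^ (-σ)) ^ 2) := by
        refine sum_le_sum fun p hp => ?_
        have h8 := neg_le_log (ht p hp)
        have h9 : (((f (p : ZMod n) : ℤ) : ℝ) * (p : ℝ) ^ (-σ)) ^ 2 ≤ ((p : ℝ) ^ (-σ)) ^ 2 := by
          rw [mul_pow]
          have h10 : (((f (p : ZMod n) : ℤ) : ℝ)) ^ 2 ≤ 1 := by
            rw [← sq_abs]
            have h7 : |((f (p : ZMod n) : ℤ) : ℝ)| ≤ 1 := by
              have := hb (p : ZMod n)
              exact_mod_cast this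
            exact pow_le_one₀ (abs_nonneg _) h7
          have h11 := sq_nonneg ((p : ℝ) ^ (-σ))
          nlinarith
        rw [neg_mul]
        linarith
    _ = ∑ p ∈ Nat.primesBelow x, Real.log (1 - ((f (p : ZMod n) : ℤ) : ℝ) * (p : ℝ) ^ (-σ)) +
          2 * ∑ p ∈ Nat.primesBelow x, ((p : ℝ) ^ (-σ)) ^ 2 := by
        rw [sum_add_distrib, mul_sum]
    _ ≤ Real.log (2 / m) + 2 := by
        have := sum_sq_le σ h1 x
        linarith

end

end Pool.Agent.Lib.MP_1a91b9_ntR
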