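import Pool.Agent.Lib.MP_1a91b9_ntR.SqF

/-!
# MP_1a91b9_nt, generic part R: a ring with coordinates (`Qi R`) is a principal ideal domain

Units, norms of rational integers, the number of the residue classes.
-/

set_option autoImplicit false

namespace Pool.Agent.Lib.MP_1a91b9_ntR

open Finset

noncomputable section

variable {R : Type} [CommRing R] [Qi R]

theorem co_one : Qi.co (1 : R) = (1, 0) := by
  have h1 := Qi.co_mul (1 : R) ((Qi.co (R := R)).symm (1, 0))
  rw [one_mul, AddEquiv.apply_symm_apply] at h1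
  rw [h1]
  simp [mulG]

theorem co_int (k : ℤ) : Qi.co (k : R) = (k, 0) := by
  have h : (k : R) = k • (1 : R) := by simp
  rw [h, map_zsmul, co_one]
  simp

theorem co_nat (k : ℕ) : Qi.co (k : R) = ((k : ℤ), 0) := by
  have h := co_int (R := R) (k : ℤ)
  rw [Int.cast_natCast] at h
  exact h

theorem nG_nat (k : ℕ) : nG (k : R) = k ^ 2 := by
  have h : ((nG (k : R) : ℕ) : ℤ) = ((k ^ 2 : ℕ) : ℤ) := by
    rw [nG_cast, co_nat]
    simp [nfG]
  exact_mod_cast h

/-- The conjugate. -/
def cj (x : R) : R :=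
  (Qi.co (R := R)).symm ((Qi.co x).1 + (Qi.F R).t * (Qi.co x).2, -(Qi.co x).2)

theorem mul_cj (x : R) : x * cj x = ((nG x : ℕ) : R) := by
  apply (Qi.co (R := R)).injective
  rw [Qi.co_mul, co_nat, nG_cast, cj, AddEquiv.apply_symm_apply]
  simp only [mulG, nfG]
  refine Prod.ext ?_ ?_
  · simp only
    ring
  · simp only
    ring

theorem dvd_nG (x : R) : x ∣ ((nG x : ℕ) : R) := ⟨cj x, (mul_cj x).symm⟩

variable (R) in
theorem isDomain_of_co : IsDomain R := by
  have : Nontrivial R := by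
    refine ⟨⟨0, 1, fun e => ?_⟩⟩
    have h := co_one (R := R)
    rw [← e, map_zero] at h
    exact zero_ne_one (congrArg Prod.fst h)
  have : NoZeroDivisors R := by
    refine ⟨fun {a b} hab => ?_⟩
    have h1 := nG_mul a b
    rw [hab, nG_eq_zero.2 rfl] at h1
    rcases mul_eq_zero.1 h1.symm with h | h
    · exact Or.inl (nG_eq_zero.1 h)
    · exact Or.inr (nG_eq_zero.1 h)
  exact NoZeroDivisors.to_isDomain R

variable (R) in
theorem isPID_of_co : IsPrincipalIdealRing R := by
  refine ⟨fun I => ?_⟩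
  by_cases h : I = ⊥
  · exact ⟨⟨0, by rw [h]; simp⟩⟩
  · have hex : ∃ n : ℕ, ∃ m ∈ I, m ≠ 0 ∧ nG m = n := by
      obtain ⟨m, hm, hm0⟩ := Submodule.exists_mem_ne_zero_of_ne_bot h
      exact ⟨nG m, m, hm, hm0, rfl⟩
    classical
    obtain ⟨m, hm, hm0, hn⟩ := Nat.find_spec hex
    refine ⟨⟨m, ?_⟩⟩
    apply le_antisymm
    · intro z hz
      obtain ⟨w, hw⟩ := exists_remG' m z hm0
      have h1 : z - m * w ∈ I := I.sub_mem hz (I.mul_mem_right w hm)
      have h2 : z - m * w = 0 := by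
        by_contra h3
        have h4 := Nat.find_min' hex ⟨z - m * w, h1, h3, rfl⟩
        rw [← hn] at h4
        have h5 := Nat.pos_of_ne_zero fun h5 : nG m = 0 => hm0 (nG_eq_zero.1 h5)
        omega
      rw [sub_eq_zero] at h2
      rw [h2]
      exact Ideal.mem_span_singleton.2 (dvd_mul_right _ _)
    · exact (Ideal.span_singleton_le_iff_mem (I := I)).2 hm

variable [IsDomain R]

theorem isUnit_iff_nG {x : R} : IsUnit x ↔ nG x = 1 := by
  constructor
  · intro h
    obtain ⟨y, hy⟩ := h.exists_right_inv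
    have h1 := nG_mul x y
    rw [hy, nG_one] at h1
    exact Nat.eq_one_of_mul_eq_one_right h1.symm
  · intro h
    have h1 := mul_cj x
    rw [h, Nat.cast_one] at h1
    exact IsUnit.of_mul_eq_one _ h1

theorem nG_two_le {x : R} (hx : Prime x) : 2 ≤ nG x := by
  have h1 : nG x ≠ 0 := fun h => hx.ne_zero (nG_eq_zero.1 h)
  have h2 : nG x ≠ 1 := fun h => hx.not_isUnit (isUnit_iff_nG.2 h)
  omega

theorem nG_unit_mul {u : R} (hu : IsUnit u) (x : R) : nG (u * x) = nG x := by
  rw [nG_mul, isUnit_iff_nG.1 hu, one_mul]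

/-- The basis given by the coordinates. -/
def bas (R : Type) [CommRing R] [Qi R] : Module.Basis (Fin 2) ℤ R :=
  Module.Basis.ofEquivFun ((Qi.co (R := R)).toIntLinearEquiv.trans
    (LinearEquiv.finTwoArrow ℤ ℤ).symm)

theorem bas_repr (x : R) : (bas R).repr x 0 = (Qi.co x).1 ∧ (bas R).repr x 1 = (Qi.co x).2 := by
  constructor <;> simp [bas]

theorem co_bas : Qi.co (bas R 0) = (1, 0) ∧ Qi.co (bas R 1) = (0, 1) := by
  have h : ∀ i j : Fin 2, (bas R).repr (bas R i) j = if i = j then 1 else 0 := by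
    intro i j
    rw [Module.Basis.repr_self, Finsupp.single_apply]
  refine ⟨Prod.ext ?_ ?_, Prod.ext ?_ ?_⟩
  · rw [← (bas_repr _).1, h]
    rfl
  · rw [← (bas_repr _).2, h]
    rfl
  · rw [← (bas_repr _).1, h]
    rfl
  · rw [← (bas_repr _).2, h]
    rfl

omit [IsDomain R] in
theorem norm_eq_nG (x : R) : Algebra.norm ℤ x = ((nG x : ℕ) : ℤ) := by
  have := isDomain_of_co R
  rw [Algebra.norm_eq_matrix_det (bas R), Matrix.det_fin_two, nG_cast]
  simp only [Algebra.leftMulMatrix_eq_repr_mul]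
  rw [(bas_repr _).1, (bas_repr _).2, (bas_repr _).1, (bas_repr _).2, Qi.co_mul, Qi.co_mul,
    co_bas.1, co_bas.2]
  simp only [mulG, nfG]
  ring

theorem card_quot_nG [IsPrincipalIdealRing R] (x : R) : Nat.card (R ⧸ Ideal.span {x}) = nG x := by
  have : Module.Free ℤ R := Module.Free.of_basis (bas R)
  have : Module.Finite ℤ R := Module.Finite.of_basis (bas R)
  have h1 := Ideal.absNorm_span_singleton x
  rw [norm_eq_nG, Int.natAbs_natCast, Ideal.absNorm_apply, Submodule.cardQuot_apply] at h1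
  exact h1

instance gauQ_of [IsPrincipalIdealRing R] : GauQ R := ⟨card_quot_nG⟩

end

end Pool.Agent.Lib.MP_1a91b9_ntR
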