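import Pool.Agent.Lib.MP_1a91b9_ntR.Cheb
import Pool.Agent.Lib.MP_1a91b9_ntR.Jac

/-!
# MP_1a91b9_nt, generic part R: quadratic symbols as Jacobi symbols

* `c2_split`: the symbol modulo `c + d w` of prime norm `c² + m d²`, `w² = -m`;
* `c2_inert`: the symbol modulo a rational prime which is prime in `R`;
* `c2_neg_one`, `c2_two`: the supplementary laws for `-1` and `2`.
-/

set_option autoImplicit false

namespace Pool.Agent.Lib.MP_1a91b9_ntR

open Finset

noncomputable section

variable {R : Type} [CommRing R] [IsDomain R] [IsPrincipalIdealRing R] [Qi R] [Pri R]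

theorem isSquare_int_iff {F : Type} [Field F] [Fintype F] {p : ℕ} (hp : p.Prime)
    (hcard : Fintype.card F = p) (k : ℤ) (hk : ¬ (p : ℤ) ∣ k) :
    IsSquare (k : F) ↔ js k p = 0 := by
  have : Fact p.Prime := ⟨hp⟩
  obtain ⟨e, he⟩ : ∃ e : ZMod p ≃+* F, e = ZMod.ringEquivOfPrime F hp hcard := ⟨_, rfl⟩
  have hk0 : (k : ZMod p) ≠ 0 := by
    rw [Ne, ZMod.intCast_zmod_eq_zero_iff_dvd]
    exact hk
  have h1 : IsSquare (k : F) ↔ IsSquare (k : ZMod p) := by
    constructor
    · rintro ⟨y, hy⟩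
      refine ⟨e.symm y, ?_⟩
      rw [← map_mul, ← hy, map_intCast]
    · rintro ⟨y, hy⟩
      refine ⟨e y, ?_⟩
      rw [← map_mul, ← hy, map_intCast]
  rw [h1, ← legendreSym.eq_one_iff p hk0, jacobiSym.legendreSym.to_jacobiSym]
  unfold js
  constructor
  · intro h
    rw [if_pos h]
  · intro h
    by_contra h2
    rw [if_neg h2] at h
    exact one_ne_zero h

theorem coprime_of_not_dvd {p : ℕ} (hp : p.Prime) {k : ℤ} (h : ¬ (p : ℤ) ∣ k) :
    IsCoprime k (p : ℤ) := by
  rw [isCoprime_comm]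
  exact (Prime.coprime_iff_not_dvd (Nat.prime_iff_prime_int.1 hp)).2 h

theorem c2_val {q : Pg R} {x : R} {v : ZMod 2} (h : c2 q x = 0 ↔ v = 0) : c2 q x = v := by
  have key : ∀ a b : ZMod 2, (a = 0 ↔ b = 0) → a = b := by decide
  exact key _ _ h

/-- **The symbol modulo an element of prime norm.** -/
theorem c2_split (q : Pg R) {p : ℕ} (hp : p.Prime) (hN : nG q.1 = p) {w : R} {m c d : ℤ}
    (hw : w ^ 2 = -(m : R)) (hq : q.1 = (c : R) + (d : R) * w) (hNm : c ^ 2 + m * d ^ 2 = p)
    {x y : ℤ} (hn : ¬ q.1 ∣ (x : R) + (y : R) * w) :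
    ¬ (p : ℤ) ∣ d ∧ ¬ (p : ℤ) ∣ x * d - y * c ∧
      c2 q ((x : R) + (y : R) * w) = js (x * d - y * c) p + js d p := by
  obtain ⟨F, _, _, f, hs, hk, h2, hcard⟩ := residue q
  rw [hN] at hcard
  have hpZ : Prime (p : ℤ) := Nat.prime_iff_prime_int.1 hp
  have hchar : CharP F p := (CharP.charP_iff_prime_eq_zero hp).2 (hcard ▸ Nat.cast_card_eq_zero F)
  have hint : ∀ k : ℤ, (k : F) = 0 ↔ (p : ℤ) ∣ k := fun k => CharP.intCast_eq_zero_iff F p k
  have hd : ¬ (p : ℤ) ∣ d := by
    rintro ⟨e, he⟩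
    have hc : (p : ℤ) ∣ c := by
      apply hpZ.dvd_of_dvd_pow (n := 2)
      refine ⟨1 - m * (e * d), ?_⟩
      rw [he] at hNm ⊢
      linear_combination hNm
    obtain ⟨g, hg⟩ := hc
    rw [he, hg] at hNm
    have h3 : (p : ℤ) * (p * (g ^ 2 + m * e ^ 2)) = p * 1 := by linear_combination hNm
    have h4 := mul_left_cancel₀ hpZ.ne_zero h3
    exact hpZ.not_isUnit (IsUnit.of_mul_eq_one _ h4)
  have hd0 : (d : F) ≠ 0 := fun h => hd ((hint d).1 h)
  have hb : (c : F) + (d : F) * f w = 0 := by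
    have h3 := (hk q.1).2 (dvd_refl _)
    rw [hq, map_add, map_mul, map_intCast, map_intCast] at h3
    exact h3
  have hfz : f ((x : R) + (y : R) * w) = (x : F) + (y : F) * f w := by
    rw [map_add, map_mul, map_intCast, map_intCast]
  have hkey : f ((x : R) + (y : R) * w) * (d : F) = (((x * d - y * c : ℤ)) : F) := by
    rw [hfz]
    push_cast
    linear_combination (y : F) * hb
  have hne : f ((x : R) + (y : R) * w) ≠ 0 := fun h => hn ((hk _).1 h)
  have hD : ¬ (p : ℤ) ∣ x * d - y * c := by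
    intro h
    rw [← hint, ← hkey] at h
    rcases mul_eq_zero.1 h with h | h
    · exact hne h
    · exact hd0 h
  refine ⟨hd, hD, ?_⟩
  rw [← js_mul (coprime_of_not_dvd hp hD) (coprime_of_not_dvd hp hd)]
  apply c2_val
  rw [c2_eq_zero_iff hs hk, ← isSquare_int_iff hp hcard ((x * d - y * c) * d)
    (fun h => (hpZ.dvd_or_dvd h).elim hD hd)]
  have e : (((x * d - y * c) * d : ℤ) : F) = f ((x : R) + (y : R) * w) * ((d : F) * d) := by
    rw [Int.cast_mul, ← hkey]
    ring
  rw [e]
  constructor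
  · rintro ⟨z, hz⟩
    exact ⟨z * d, by rw [hz]; ring⟩
  · rintro ⟨z, hz⟩
    refine ⟨z * (d : F)⁻¹, ?_⟩
    field_simp
    linear_combination hz

/-- **The symbol modulo a rational prime which is prime in `R`.** -/
theorem c2_inert (q : Pg R) {p : ℕ} (hp : p.Prime) (hp2 : p ≠ 2) (hN : nG q.1 = p ^ 2)
    (hd : q.1 ∣ (p : R)) {x : R} (hx : ¬ q.1 ∣ x) :
    ¬ (p : ℤ) ∣ (nG x : ℤ) ∧ c2 q x = js (nG x : ℤ) p := by
  classical
  obtain ⟨F, _, _, f, hs, hk, h2, hcard⟩ := residue q
  rw [hN] at hcard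
  have : Fact p.Prime := ⟨hp⟩
  have hp0 : (p : F) = 0 := by
    have h3 := (hk _).2 hd
    rwa [map_natCast] at h3
  have hchar : CharP F p := (CharP.charP_iff_prime_eq_zero hp).2 hp0
  have hfr : ∀ a b : F, (a + b) ^ p = a ^ p + b ^ p := fun a b => add_pow_char a b p
  have hZ : ∀ k : ℤ, (k : F) ^ p = (k : F) := by
    intro k
    have h3 : ((k : ZMod p)) ^ p = (k : ZMod p) := ZMod.pow_card _
    have h4 := congrArg (ZMod.castHom (dvd_refl p) F) h3
    rwa [map_pow, map_intCast] at h4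
  obtain ⟨θ, hθ⟩ : ∃ θ : R, θ = (Qi.co (R := R)).symm (0, 1) := ⟨_, rfl⟩
  have hcoθ : Qi.co θ = (0, 1) := by rw [hθ, AddEquiv.apply_symm_apply]
  have hgen : ∀ z : R, z = ((Qi.co z).1 : R) + ((Qi.co z).2 : R) * θ := by
    intro z
    apply (Qi.co (R := R)).injective
    rw [map_add, Qi.co_mul, co_int, co_int, hcoθ]
    simp [mulG]
  have hcj : ∀ z : R, cj z = ((Qi.co z).1 : R) + ((Qi.co z).2 : R) * (((Qi.F R).t : R) - θ) := by
    intro z
    apply (Qi.co (R := R)).injective
    rw [map_add, Qi.co_mul, map_sub, co_int, co_int, co_int, hcoθ, cj, AddEquiv.apply_symm_apply]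
    simp only [mulG, Prod.mk_add_mk, Prod.mk_sub_mk]
    refine Prod.ext ?_ ?_ <;> simp <;> ring
  have hθ2 : θ * θ = ((Qi.F R).t : R) * θ - ((Qi.F R).n : R) := by
    apply (Qi.co (R := R)).injective
    rw [map_sub, Qi.co_mul, Qi.co_mul, co_int, co_int, hcoθ]
    simp [mulG]
  have h5 : f θ * f θ = ((Qi.F R).t : F) * f θ - ((Qi.F R).n : F) := by
    rw [← map_mul, hθ2, map_sub, map_mul, map_intCast, map_intCast]
  have h6 : (f θ) ^ p * (f θ) ^ p = ((Qi.F R).t : F) * (f θ) ^ p - ((Qi.F R).n : F) := by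
    have h7 := congrArg (fun a : F => a ^ p) h5
    rw [mul_pow, sub_eq_add_neg, hfr, mul_pow, hZ] at h7
    have h8 : (-((Qi.F R).n : F)) ^ p = -((Qi.F R).n : F) := by
      have := hZ (-(Qi.F R).n)
      push_cast at this
      exact this
    rw [h8] at h7
    rw [h7]
    ring
  have h9 : (f θ) ^ p = ((Qi.F R).t : F) - f θ := by
    have h10 : ((f θ) ^ p - f θ) * ((f θ) ^ p - (((Qi.F R).t : F) - f θ)) = 0 := by
      linear_combination h6 - h5
    rcases mul_eq_zero.1 h10 with h11 | h11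
    · exfalso
      rw [sub_eq_zero] at h11
      have hall : ∀ a : F, a ^ p = a := by
        intro a
        obtain ⟨z, rfl⟩ := hs a
        rw [hgen z, map_add, map_mul, map_intCast, map_intCast, hfr, mul_pow, hZ, hZ, h11]
      have hdeg : (Polynomial.X ^ p - Polynomial.X : Polynomial F).natDegree = p :=
        FiniteField.X_pow_card_sub_X_natDegree_eq F hp.one_lt
      have hne : (Polynomial.X ^ p - Polynomial.X : Polynomial F) ≠ 0 :=
        FiniteField.X_pow_card_sub_X_ne_zero F hp.one_lt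
      have hle : Fintype.card F ≤ p := by
        have h12 : (univ : Finset F) ⊆
            (Polynomial.X ^ p - Polynomial.X : Polynomial F).roots.toFinset := by
          intro a _
          rw [Multiset.mem_toFinset, Polynomial.mem_roots hne]
          simp [hall a]
        calc Fintype.card F = (univ : Finset F).card := card_univ.symm
          _ ≤ _ := card_le_card h12
          _ ≤ _ := Multiset.toFinset_card_le _
          _ ≤ (Polynomial.X ^ p - Polynomial.X : Polynomial F).natDegree :=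
              Polynomial.card_roots' _
          _ = p := hdeg
      rw [hcard] at hle
      nlinarith [hp.two_le]
    · rwa [sub_eq_zero] at h11
  have h13 : ∀ z : R, (f z) ^ p = f (cj z) := by
    intro z
    rw [hcj z, map_add, map_mul, map_sub, map_intCast, map_intCast, map_intCast]
    conv_lhs => rw [hgen z, map_add, map_mul, map_intCast, map_intCast, hfr, mul_pow, hZ, hZ, h9]
  have h14 : f x * (f x) ^ p = ((nG x : ℕ) : F) := by
    rw [h13, ← map_mul, mul_cj, map_natCast]
  have hx0 : f x ≠ 0 := fun h => hx ((hk x).1 h)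
  have hn0 : ((nG x : ℕ) : F) ≠ 0 := by
    rw [← h14]
    exact mul_ne_zero hx0 (pow_ne_zero _ hx0)
  have hpn : ¬ (p : ℤ) ∣ (nG x : ℤ) := by
    intro h
    apply hn0
    have h15 : p ∣ nG x := by exact_mod_cast h
    exact (CharP.cast_eq_zero_iff F p _).2 h15
  refine ⟨hpn, c2_val ?_⟩
  have hz0 : ((nG x : ℤ) : ZMod p) ≠ 0 := by
    rw [Ne, ZMod.intCast_zmod_eq_zero_iff_dvd]
    exact hpn
  have hodd : p % 2 = 1 := Nat.odd_iff.1 (hp.odd_of_ne_two hp2)
  have hhalf : Fintype.card F / 2 = (p + 1) * (p / 2) := by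
    rw [hcard]
    obtain ⟨k, hk'⟩ : ∃ k, p = 2 * k + 1 := ⟨p / 2, by omega⟩
    have e1 : p / 2 = k := by omega
    rw [e1, hk']
    have e2 : (2 * k + 1) ^ 2 = 2 * ((2 * k + 1 + 1) * k) + 1 := by ring
    omega
  rw [c2_eq_zero_iff hs hk, FiniteField.isSquare_iff h2 hx0, hhalf, pow_mul, pow_succ', h14]
  have hjs : js (nG x : ℤ) p = 0 ↔ IsSquare ((nG x : ℤ) : ZMod p) := by
    rw [← legendreSym.eq_one_iff p hz0, jacobiSym.legendreSym.to_jacobiSym]
    unfold js
    constructor
    · intro h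
      by_contra h2
      rw [if_neg h2] at h
      exact one_ne_zero h
    · intro h
      rw [if_pos h]
  rw [hjs, ZMod.euler_criterion p hz0]
  have hinj := (ZMod.castHom (dvd_refl p) F).injective
  constructor
  · intro h
    apply hinj
    rw [map_pow, map_intCast, map_one, Int.cast_natCast]
    exact h
  · intro h
    have h15 := congrArg (ZMod.castHom (dvd_refl p) F) h
    rw [map_pow, map_intCast, map_one, Int.cast_natCast] at h15
    exact h15

/-- The first supplementary law. -/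
theorem c2_neg_one (q : Pg R) : c2 q (-1 : R) = if nG q.1 % 4 = 3 then 1 else 0 := by
  obtain ⟨F, _, _, f, hs, hk, h2, hcard⟩ := residue q
  apply c2_val
  rw [c2_eq_zero_iff hs hk, map_neg, map_one, FiniteField.isSquare_neg_one_iff, hcard]
  by_cases h : nG q.1 % 4 = 3
  · simp [h]
  · simp [h]

/-- The law for `2`. -/
theorem c2_two (q : Pg R) : c2 q (2 : R) = if nG q.1 % 8 = 3 ∨ nG q.1 % 8 = 5 then 1 else 0 := by
  obtain ⟨F, _, _, f, hs, hk, h2, hcard⟩ := residue q
  apply c2_val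
  rw [c2_eq_zero_iff hs hk, map_ofNat, FiniteField.isSquare_two_iff, hcard]
  by_cases h : nG q.1 % 8 = 3 ∨ nG q.1 % 8 = 5
  · rw [if_pos h]
    constructor
    · intro h1
      omega
    · intro h1
      exact absurd h1 one_ne_zero
  · rw [if_neg h]
    constructor
    · intro _
      rfl
    · intro _
      omega

end

end Pool.Agent.Lib.MP_1a91b9_ntR
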