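import Pool.Agent.Lib.MP_1a91b9_ntR.ClsB

/-!
# MP_1a91b9_nt, generic part R: from the sets of primes outside `B` to all the sets of primes

`DSBR hQ B g κ₀ P`: the sets of primes outside `B` with the property `P` have lower density at least
`κ₀` in the class `g`. `dsr_of`: if this holds for every part in `B` and every class, then the lower
density among all the sets of a class is at least `κ₀`.
-/

set_option autoImplicit false
set_option linter.unusedSectionVars false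

namespace Pool.Agent.Lib.MP_1a91b9_ntR

open Finset
open Pool.Agent.Lib.MP_1a91b9_ntH (PS nm pr mem_pr Sx mem_Sx nm_union one_le_nm)

noncomputable section

variable {R : Type} [CommRing R] [IsDomain R] [IsPrincipalIdealRing R] [Qi R] [Pri R] {Q : R}

/-- The sets of primes outside `B` with a given class. -/
def SRB (hQ : (sys R).Mod Q) (B : Finset (Pg R)) (g : GRB hQ B) (X : ℕ) :
    Finset (Finset (Pg R)) := by
  classical exact (Sx (Pg R) X).filter fun S => Disjoint S B ∧ ∑ q ∈ S, cqB hQ B q = g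

theorem mem_SRB {hQ : (sys R).Mod Q} {B : Finset (Pg R)} {g : GRB hQ B} {X : ℕ}
    {S : Finset (Pg R)} :
    S ∈ SRB hQ B g X ↔ nm S ≤ X ∧ Disjoint S B ∧ ∑ q ∈ S, cqB hQ B q = g := by
  classical
  rw [SRB, mem_filter, mem_Sx]

/-- The sets of primes outside `B` with a given class and a property. -/
def SPB (hQ : (sys R).Mod Q) (B : Finset (Pg R)) (g : GRB hQ B) (X : ℕ)
    (P : Finset (Pg R) → Prop) : Finset (Finset (Pg R)) := by
  classical exact (SRB hQ B g X).filter P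

theorem mem_SPB {hQ : (sys R).Mod Q} {B : Finset (Pg R)} {g : GRB hQ B} {X : ℕ}
    {P : Finset (Pg R) → Prop} {S : Finset (Pg R)} :
    S ∈ SPB hQ B g X P ↔ S ∈ SRB hQ B g X ∧ P S := by
  classical
  rw [SPB, mem_filter]

/-- The sets of primes outside `B` with the property `P` have lower density at least `κ₀` in the
class `g`. -/
def DSBR (hQ : (sys R).Mod Q) (B : Finset (Pg R)) (g : GRB hQ B) (κ₀ : ℝ)
    (P : Finset (Pg R) → Prop) : Prop :=
  ∀ ε : ℝ, 0 < ε → ∃ X₀ : ℕ, ∀ X : ℕ, X₀ ≤ X →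
    κ₀ * ((SRB hQ B g X).card : ℝ) - ε * X ≤ ((SPB hQ B g X P).card : ℝ)

theorem DSBR.mono {hQ : (sys R).Mod Q} {B : Finset (Pg R)} {g : GRB hQ B} {κ₀ : ℝ}
    {P P' : Finset (Pg R) → Prop} (h : DSBR hQ B g κ₀ P)
    (hP : ∀ S, Disjoint S B → ∑ q ∈ S, cqB hQ B q = g → P S → P' S) : DSBR hQ B g κ₀ P' := by
  intro ε hε
  obtain ⟨X0, h0⟩ := h ε hε
  refine ⟨X0, fun X hX => (h0 X hX).trans ?_⟩
  rw [Nat.cast_le]
  refine card_le_card fun S hS => ?_
  rw [mem_SPB, mem_SRB] at hS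
  rw [mem_SPB, mem_SRB]
  exact ⟨hS.1, hP S hS.1.2.1 hS.1.2.2 hS.2⟩

/-- The parts in `B` and the classes of the parts outside `B`. -/
def IBR (hQ : (sys R).Mod Q) [Fintype (GR hQ)] (B : Finset (Pg R)) (g : GR hQ) :
    Finset (Finset (Pg R) × GRB hQ B) := by
  classical
  exact (B.powerset ×ˢ (univ : Finset (GRB hQ B))).filter
    (fun i : Finset (Pg R) × GRB hQ B => (∑ q ∈ i.1, cq hQ q : GR hQ) + i.2.1 = g)

theorem mem_IBR {hQ : (sys R).Mod Q} [Fintype (GR hQ)] {B : Finset (Pg R)} {g : GR hQ}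
    {i : Finset (Pg R) × GRB hQ B} :
    i ∈ IBR hQ B g ↔ i.1 ⊆ B ∧ (∑ q ∈ i.1, cq hQ q : GR hQ) + i.2.1 = g := by
  classical
  rw [IBR, mem_filter, mem_product, mem_powerset]
  constructor
  · rintro ⟨⟨h1, _⟩, h2⟩
    exact ⟨h1, h2⟩
  · rintro ⟨h1, h2⟩
    exact ⟨⟨h1, mem_univ _⟩, h2⟩

open Classical in
theorem cntR (hQ : (sys R).Mod Q) [Fintype (GR hQ)] (B : Finset (Pg R)) (g : GR hQ)
    (P : Finset (Pg R) → Prop) (X : ℕ) :
    (SP hQ g X P).card =
      ∑ i ∈ IBR hQ B g, (SPB hQ B i.2 (X / nm i.1) fun S => P (i.1 ∪ S)).card := by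
  rw [card_eq_sum_card_fiberwise (f := fun S : Finset (Pg R) => (S ∩ B, ∑ q ∈ S \ B, cqB hQ B q))
    (t := IBR hQ B g) (fun S hS => ?_)]
  · refine sum_congr rfl fun i hi => ?_
    obtain ⟨hi1, hi2⟩ := mem_IBR.1 hi
    have hpos : 0 < nm i.1 := one_le_nm i.1
    refine card_bij' (fun S _ => S \ B) (fun T _ => i.1 ∪ T) ?_ ?_ ?_ ?_
    · intro S hS
      simp only [mem_filter, mem_SP, mem_SR, mem_SPB, mem_SRB] at hS ⊢
      obtain ⟨⟨⟨h1, h2⟩, h3⟩, h4⟩ := hS
      have h5 : S ∩ B = i.1 := congrArg Prod.fst h4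
      have h6 : ∑ q ∈ S \ B, cqB hQ B q = i.2 := congrArg Prod.snd h4
      have h7 : i.1 ∪ S \ B = S := by
        rw [← h5, union_comm, sdiff_union_inter]
      have h8 : Disjoint i.1 (S \ B) := disjoint_of_subset_left hi1 disjoint_sdiff
      refine ⟨⟨?_, sdiff_disjoint, h6⟩, ?_⟩
      · rw [Nat.le_div_iff_mul_le hpos, mul_comm, ← nm_union h8, h7]
        exact h1
      · rw [h7]
        exact h3
    · intro T hT
      simp only [mem_filter, mem_SP, mem_SR, mem_SPB, mem_SRB] at hT ⊢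
      obtain ⟨⟨h1, h2, h3⟩, h4⟩ := hT
      have h8 : Disjoint i.1 T := disjoint_of_subset_left hi1 h2.symm
      have e1 : (i.1 ∪ T) ∩ B = i.1 := by
        rw [union_inter_distrib_right, inter_eq_left.2 hi1, disjoint_iff_inter_eq_empty.1 h2,
          union_empty]
      have e2 : (i.1 ∪ T) \ B = T := by
        rw [union_sdiff_distrib, sdiff_eq_empty_iff_subset.2 hi1, empty_union,
          sdiff_eq_self_of_disjoint h2]
      refine ⟨⟨⟨?_, ?_⟩, h4⟩, ?_⟩
      · rw [Nat.le_div_iff_mul_le hpos, mul_comm, ← nm_union h8] at h1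
        exact h1
      · rw [sum_union h8, ← fst_cqB hQ B T, h3]
        exact hi2
      · rw [e1, e2, h3]
    · intro S hS
      simp only [mem_filter, mem_SP, mem_SR] at hS
      have h5 : S ∩ B = i.1 := congrArg Prod.fst hS.2
      show i.1 ∪ S \ B = S
      rw [← h5, union_comm, sdiff_union_inter]
    · intro T hT
      simp only [mem_SPB, mem_SRB] at hT
      show (i.1 ∪ T) \ B = T
      rw [union_sdiff_distrib, sdiff_eq_empty_iff_subset.2 hi1, empty_union,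
        sdiff_eq_self_of_disjoint hT.1.2.1]
  · rw [mem_coe, mem_SP, mem_SR] at hS
    rw [mem_coe, mem_IBR]
    refine ⟨inter_subset_right, ?_⟩
    show ∑ q ∈ S ∩ B, cq hQ q + (∑ q ∈ S \ B, cqB hQ B q).1 = g
    rw [fst_cqB, ← hS.1.2, ← sum_union (disjoint_of_subset_left inter_subset_right disjoint_sdiff),
      union_comm, sdiff_union_inter]

theorem SP_true (hQ : (sys R).Mod Q) (g : GR hQ) (X : ℕ) :
    (SP hQ g X fun _ => True) = SR hQ g X := by
  ext S
  rw [mem_SP, and_true]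

theorem SPB_true (hQ : (sys R).Mod Q) (B : Finset (Pg R)) (g : GRB hQ B) (X : ℕ) :
    (SPB hQ B g X fun _ => True) = SRB hQ B g X := by
  ext S
  rw [mem_SPB, and_true]

/-- **From the sets of primes outside `B` to all the sets of primes.** -/
theorem dsr_of (hQ : (sys R).Mod Q) [Fintype (GR hQ)] (B : Finset (Pg R)) (g : GR hQ) {κ₀ : ℝ}
    {P : Finset (Pg R) → Prop}
    (h : ∀ B' : Finset (Pg R), B' ⊆ B → ∀ g' : GRB hQ B, DSBR hQ B g' κ₀ fun S => P (B' ∪ S)) :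
    ∀ ε : ℝ, 0 < ε → ∃ X₀ : ℕ, ∀ X : ℕ, X₀ ≤ X →
      κ₀ * ((SR hQ g X).card : ℝ) - ε * X ≤ ((SP hQ g X P).card : ℝ) := by
  classical
  intro ε hε
  obtain ⟨n, hn⟩ : ∃ n : ℝ, n = ((IBR hQ B g).card : ℝ) + 1 := ⟨_, rfl⟩
  have hn0 : 0 < n := by
    rw [hn]
    positivity
  have h' : ∀ i : Finset (Pg R) × GRB hQ B, ∃ X₀ : ℕ, i ∈ IBR hQ B g → ∀ X : ℕ, X₀ ≤ X →
      κ₀ * ((SRB hQ B i.2 X).card : ℝ) - ε / n * X ≤
        ((SPB hQ B i.2 X fun S => P (i.1 ∪ S)).card : ℝ) := by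
    intro i
    by_cases hi : i ∈ IBR hQ B g
    · obtain ⟨X₀, h0⟩ := h i.1 (mem_IBR.1 hi).1 i.2 (ε / n) (by positivity)
      exact ⟨X₀, fun _ X hX => h0 X hX⟩
    · exact ⟨0, fun h1 => absurd h1 hi⟩
  choose X₀ hX₀ using h'
  refine ⟨∑ i ∈ IBR hQ B g, X₀ i * nm i.1, fun X hX => ?_⟩
  have hkey : ∀ i ∈ IBR hQ B g,
      κ₀ * ((SRB hQ B i.2 (X / nm i.1)).card : ℝ) - ε / n * X ≤
      ((SPB hQ B i.2 (X / nm i.1) fun S => P (i.1 ∪ S)).card : ℝ) := by
    intro i hi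
    have hpos : 0 < nm i.1 := one_le_nm i.1
    have h1 : X₀ i ≤ X / nm i.1 := by
      rw [Nat.le_div_iff_mul_le hpos]
      exact (single_le_sum (f := fun i => X₀ i * nm i.1) (fun _ _ => Nat.zero_le _) hi).trans hX
    have h2 := hX₀ i hi _ h1
    have h3 : ((X / nm i.1 : ℕ) : ℝ) ≤ X := by exact_mod_cast Nat.div_le_self _ _
    have h4 : ε / n * ((X / nm i.1 : ℕ) : ℝ) ≤ ε / n * X :=
      mul_le_mul_of_nonneg_left h3 (by positivity)
    linarith
  have hs := sum_le_sum hkey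
  rw [sum_sub_distrib, ← mul_sum, sum_const, nsmul_eq_mul] at hs
  have e1 := cntR hQ B g (fun _ => True) X
  have e2 := cntR hQ B g P X
  simp only [SP_true, SPB_true] at e1
  have e1' : ((SR hQ g X).card : ℝ) =
      ∑ i ∈ IBR hQ B g, ((SRB hQ B i.2 (X / nm i.1)).card : ℝ) := by exact_mod_cast e1
  have e2' : ((SP hQ g X P).card : ℝ) =
      ∑ i ∈ IBR hQ B g, ((SPB hQ B i.2 (X / nm i.1) fun S => P (i.1 ∪ S)).card : ℝ) := by
    exact_mod_cast e2
  rw [← e1', ← e2'] at hs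
  have hfin : ((IBR hQ B g).card : ℝ) * (ε / n * X) ≤ ε * X := by
    have h5 : ((IBR hQ B g).card : ℝ) ≤ n := by
      rw [hn]
      linarith
    have h6 : ((IBR hQ B g).card : ℝ) * (ε / n * X) ≤ n * (ε / n * X) :=
      mul_le_mul_of_nonneg_right h5 (by positivity)
    have h7 : n * (ε / n * X) = ε * X := by field_simp
    linarith
  linarith

end

end Pool.Agent.Lib.MP_1a91b9_ntR
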